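import Mathlib

set_option autoImplicit false

section RegroupSec
open MeasureTheory Measure ProbabilityTheory
open scoped ENNReal

namespace Pool.Agent.Worm

section

variable {ι : Type*} {X Y : Type*} [MeasurableSpace X] [MeasurableSpace Y]

/-- The product of two infinite products is the infinite product of the products. -/
theorem infinitePi_prod_map (α : ι → Measure X) (β : ι → Measure Y)
    [∀ i, IsProbabilityMeasure (α i)] [∀ i, IsProbabilityMeasure (β i)] :
    ((infinitePi α).prod (infinitePi β)).map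
      (fun (p : (ι → X) × (ι → Y)) (i : ι) => (p.1 i, p.2 i)) =
      infinitePi (fun i => (α i).prod (β i)) := by
  classical
  have hmeas : Measurable (fun (p : (ι → X) × (ι → Y)) (i : ι) => (p.1 i, p.2 i)) := by
    fun_prop
  refine eq_infinitePi _ fun s t ht => ?_
  rw [Measure.map_apply hmeas (MeasurableSet.pi s.countable_toSet fun i _ => ht i)]
  have hms : MeasurableSet ((fun (p : (ι → X) × (ι → Y)) (i : ι) => (p.1 i, p.2 i)) ⁻¹'
      ((s : Set ι).pi t)) := hmeas (MeasurableSet.pi s.countable_toSet fun i _ => ht i)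
  rw [Measure.prod_apply hms]
  have h1 : ∀ a : ι → X, (infinitePi β) (Prod.mk a ⁻¹'
      ((fun (p : (ι → X) × (ι → Y)) (i : ι) => (p.1 i, p.2 i)) ⁻¹' ((s : Set ι).pi t))) =
      ∏ i ∈ s, (β i) (Prod.mk (a i) ⁻¹' (t i)) := by
    intro a
    have : (Prod.mk a ⁻¹'
      ((fun (p : (ι → X) × (ι → Y)) (i : ι) => (p.1 i, p.2 i)) ⁻¹' ((s : Set ι).pi t))) =
      (s : Set ι).pi (fun i => Prod.mk (a i) ⁻¹' (t i)) := by
      ext b
      simp [Set.mem_pi]
    rw [this, infinitePi_pi]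
    intro i _
    exact measurable_prodMk_left (ht i)
  simp_rw [h1]
  have hind : iIndepFun (fun (i : ι) (a : ι → X) => (β i) (Prod.mk (a i) ⁻¹' (t i)))
      (infinitePi α) :=
    iIndepFun_infinitePi (X := fun i x => (β i) (Prod.mk x ⁻¹' (t i)))
      (fun i => measurable_measure_prodMk_left (ht i))
  rw [lintegral_prod_eq_prod_lintegral_of_indepFun s
    (fun (i : ι) (a : ι → X) => (β i) (Prod.mk (a i) ⁻¹' (t i))) hind
    (fun i => (measurable_measure_prodMk_left (ht i)).comp (measurable_pi_apply i))]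
  refine Finset.prod_congr rfl fun i _ => ?_
  have h2 := (measurePreserving_eval_infinitePi α i).lintegral_comp
    (f := fun x => (β i) (Prod.mk x ⁻¹' (t i))) (measurable_measure_prodMk_left (ht i))
  rw [Measure.prod_apply (ht i), ← h2]

end

/-- Sites of the lattice. -/
abbrev Site := ℤ × ℤ × ℤ

/-- The data attached to a site: number of worms, their lengths, their steps. -/
abbrev Dat := ℕ × (ℕ → ℕ) × (ℕ × ℕ → Fin 6)

/-- The uniform law on the six directions. -/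
noncomputable def uni : Measure (Fin 6) := (PMF.uniformOfFintype (Fin 6)).toMeasure

instance : IsProbabilityMeasure uni := by unfold uni; infer_instance

/-- The law of the data at a site. -/
noncomputable def datLaw (N m : Measure ℕ) : Measure Dat :=
  N.prod ((infinitePi (fun _ : ℕ => m)).prod (infinitePi (fun _ : ℕ × ℕ => uni)))

instance (N m : Measure ℕ) [IsProbabilityMeasure N] [IsProbabilityMeasure m] :
    IsProbabilityMeasure (datLaw N m) := by unfold datLaw; infer_instance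

/-- The law of all the data. -/
noncomputable def wormLaw (N m : Measure ℕ) [IsProbabilityMeasure N] [IsProbabilityMeasure m] :
    Measure (Site → Dat) := infinitePi (fun _ : Site => datLaw N m)

instance (N m : Measure ℕ) [IsProbabilityMeasure N] [IsProbabilityMeasure m] :
    IsProbabilityMeasure (wormLaw N m) := by unfold wormLaw; infer_instance

/-- Regrouping the frozen probability space by sites. -/
def regroup (ω : (Site → ℕ) × (Site × ℕ → ℕ) × (Site × ℕ × ℕ → Fin 6)) : Site → Dat :=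
  fun x => (ω.1 x, (fun i => ω.2.1 (x, i)), fun q => ω.2.2 (x, q))

lemma measurable_regroup : Measurable regroup := by
  unfold regroup
  fun_prop

theorem map_regroup (N m : Measure ℕ) [IsProbabilityMeasure N] [IsProbabilityMeasure m] :
    (((infinitePi (fun _ : Site => N)).prod
      ((infinitePi (fun _ : Site × ℕ => m)).prod
        (infinitePi (fun _ : Site × ℕ × ℕ => uni))))).map regroup = wormLaw N m := by
  have h2 := infinitePi_map_curry (ι := Site) (κ := ℕ) (fun _ _ => m)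
  have h3 := infinitePi_map_curry (ι := Site) (κ := ℕ × ℕ) (fun _ _ => uni)
  have h23 : ((infinitePi (fun _ : Site × ℕ => m)).prod
        (infinitePi (fun _ : Site × ℕ × ℕ => uni))).map
      (fun p (x : Site) => ((fun i => p.1 (x, i)), fun q => p.2 (x, q))) =
      infinitePi (fun _ : Site => (infinitePi (fun _ : ℕ => m)).prod
        (infinitePi (fun _ : ℕ × ℕ => uni))) := by
    rw [← infinitePi_prod_map, ← h2, ← h3, Measure.map_prod_map _ _ (by fun_prop) (by fun_prop),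
      Measure.map_map (by fun_prop) (by fun_prop)]
    rfl
  unfold wormLaw datLaw
  rw [← infinitePi_prod_map, ← h23]
  have hid : infinitePi (fun _ : Site => N) = (infinitePi (fun _ : Site => N)).map id := by
    rw [Measure.map_id]
  conv_rhs => rw [hid]
  rw [Measure.map_prod_map _ _ (by fun_prop) (by fun_prop),
      Measure.map_map (by fun_prop) (by fun_prop)]
  rfl

end Pool.Agent.Worm

end RegroupSec

section WalkSec
open MeasureTheory Measure ProbabilityTheory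
open scoped ENNReal

namespace Pool.Agent.Worm

/-- The six unit vectors. -/
def vec : Fin 6 → Site :=
  ![(1, 0, 0), (-1, 0, 0), (0, 1, 0), (0, -1, 0), (0, 0, 1), (0, 0, -1)]

/-- Position of the walk with step sequence `σ` at time `j`. -/
def walk (σ : ℕ → Fin 6) (j : ℕ) : Site := ∑ k ∈ Finset.range j, vec (σ k)

/-- The law of the sequence of steps. -/
noncomputable def stepLaw : Measure (ℕ → Fin 6) := infinitePi (fun _ : ℕ => uni)

instance : IsProbabilityMeasure stepLaw := by unfold stepLaw; infer_instance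

/-- Concatenation of step sequences at time `j`. -/
def cat (j : ℕ) (p : (ℕ → Fin 6) × (ℕ → Fin 6)) : ℕ → Fin 6 :=
  fun k => if k < j then p.1 k else p.2 (k - j)

lemma measurable_cat (j : ℕ) : Measurable (cat j) := by
  refine measurable_pi_iff.mpr fun k => ?_
  unfold cat
  by_cases h : k < j
  · simp only [h, if_true]; fun_prop
  · simp only [h, if_false]; fun_prop

theorem map_cat (j : ℕ) : (stepLaw.prod stepLaw).map (cat j) = stepLaw := by
  classical
  unfold stepLaw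
  refine eq_infinitePi _ fun s t ht => ?_
  rw [Measure.map_apply (measurable_cat j) (MeasurableSet.pi s.countable_toSet fun i _ => ht i)]
  set s1 := s.filter (· < j) with hs1
  set s2 := (s.filter (fun k => ¬ k < j)).image (fun k => k - j) with hs2
  have hset : cat j ⁻¹' ((s : Set ℕ).pi t) =
      ((s1 : Set ℕ).pi t) ×ˢ ((s2 : Set ℕ).pi (fun k => t (k + j))) := by
    ext ⟨σ, τ⟩
    simp only [Set.mem_preimage, Set.mem_pi, Set.mem_prod, Finset.mem_coe, hs1, hs2,
      Finset.mem_filter, Finset.mem_image, cat]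
    constructor
    · intro h
      constructor
      · rintro k ⟨hk, hkj⟩
        have := h k hk
        rwa [if_pos hkj] at this
      · rintro k ⟨k', ⟨hk', hk'j⟩, rfl⟩
        have := h k' hk'
        rw [if_neg hk'j] at this
        rwa [Nat.sub_add_cancel (not_lt.mp hk'j)]
    · rintro ⟨h1, h2⟩ k hk
      by_cases hkj : k < j
      · rw [if_pos hkj]; exact h1 k ⟨hk, hkj⟩
      · rw [if_neg hkj]
        have := h2 (k - j) ⟨k, ⟨hk, hkj⟩, rfl⟩
        rwa [Nat.sub_add_cancel (not_lt.mp hkj)] at this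
  rw [hset, Measure.prod_prod, infinitePi_pi _ (fun i _ => ht i),
    infinitePi_pi _ (fun i _ => ht (i + j))]
  have himg : ∏ i ∈ s2, uni (t (i + j)) = ∏ i ∈ s.filter (fun k => ¬ k < j), uni (t i) := by
    rw [hs2, Finset.prod_image]
    · refine Finset.prod_congr rfl fun k hk => ?_
      rw [Finset.mem_filter] at hk
      rw [Nat.sub_add_cancel (not_lt.mp hk.2)]
    · intro a ha b hb hab
      simp only [Finset.coe_filter, Set.mem_ofPred_eq] at ha hb
      simp only at hab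
      omega
  rw [himg, hs1, Finset.prod_filter_mul_prod_filter_not]

lemma walk_zero (σ : ℕ → Fin 6) : walk σ 0 = 0 := by simp [walk]

lemma walk_succ (σ : ℕ → Fin 6) (j : ℕ) : walk σ (j + 1) = walk σ j + vec (σ j) := by
  simp [walk, Finset.sum_range_succ]

lemma walk_congr {σ τ : ℕ → Fin 6} {j : ℕ} (h : ∀ k < j, σ k = τ k) : walk σ j = walk τ j := by
  unfold walk
  exact Finset.sum_congr rfl fun k hk => by rw [h k (Finset.mem_range.mp hk)]

lemma walk_cat_le (j i : ℕ) (hi : i ≤ j) (p : (ℕ → Fin 6) × (ℕ → Fin 6)) :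
    walk (cat j p) i = walk p.1 i := by
  apply walk_congr
  intro k hk
  simp [cat, show k < j by omega]

lemma walk_cat_add (j i : ℕ) (p : (ℕ → Fin 6) × (ℕ → Fin 6)) :
    walk (cat j p) (j + i) = walk p.1 j + walk p.2 i := by
  induction i with
  | zero => simp [walk_zero, walk_cat_le j j le_rfl p]
  | succ i ih =>
    rw [← add_assoc, walk_succ, ih, walk_succ, add_assoc]
    congr 2
    simp [cat]

@[fun_prop]
lemma measurable_walk (j : ℕ) : Measurable (fun σ : ℕ → Fin 6 => walk σ j) := by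
  unfold walk
  have : ∀ k ∈ Finset.range j, Measurable (fun σ : ℕ → Fin 6 => vec (σ k)) := by
    intro k _
    exact (measurable_of_finite vec).comp (measurable_pi_apply k)
  exact Finset.measurable_fun_sum _ this

/-- The Markov property at a fixed time. -/
lemma lintegral_cat (j : ℕ) (F : (ℕ → Fin 6) → ℝ≥0∞) (hF : Measurable F) :
    ∫⁻ σ, F σ ∂stepLaw = ∫⁻ σ, ∫⁻ τ, F (cat j (σ, τ)) ∂stepLaw ∂stepLaw := by
  conv_lhs => rw [← map_cat j]
  rw [lintegral_map hF (measurable_cat j), lintegral_prod]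
  exact (hF.comp (measurable_cat j)).aemeasurable

/-- sup norm on sites -/
def nrm (x : Site) : ℕ := max x.1.natAbs (max x.2.1.natAbs x.2.2.natAbs)

lemma nrm_le_iff (x : Site) (n : ℕ) :
    nrm x ≤ n ↔ x.1.natAbs ≤ n ∧ x.2.1.natAbs ≤ n ∧ x.2.2.natAbs ≤ n := by
  simp [nrm]

lemma nrm_zero : nrm 0 = 0 := by simp [nrm]

lemma nrm_eq_zero {x : Site} (h : nrm x = 0) : x = 0 := by
  have := (nrm_le_iff x 0).mp h.le
  obtain ⟨a, b, c⟩ := x
  simp only [Nat.le_zero, Int.natAbs_eq_zero] at this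
  obtain ⟨rfl, rfl, rfl⟩ := this
  rfl

lemma nrm_neg (x : Site) : nrm (-x) = nrm x := by simp [nrm]

lemma nrm_add_le (x y : Site) : nrm (x + y) ≤ nrm x + nrm y := by
  rw [nrm_le_iff]
  have hx := (nrm_le_iff x _).mp le_rfl
  have hy := (nrm_le_iff y _).mp le_rfl
  simp only [Prod.fst_add, Prod.snd_add]
  refine ⟨(Int.natAbs_add_le _ _).trans ?_, (Int.natAbs_add_le _ _).trans ?_,
    (Int.natAbs_add_le _ _).trans ?_⟩ <;> omega

lemma nrm_sub_le (x y : Site) : nrm (x - y) ≤ nrm x + nrm y := by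
  rw [sub_eq_add_neg, ← nrm_neg y]
  exact nrm_add_le _ _

lemma nrm_sub_comm (x y : Site) : nrm (x - y) = nrm (y - x) := by
  rw [← nrm_neg, neg_sub]

lemma nrm_vec (e : Fin 6) : nrm (vec e) = 1 := by
  fin_cases e <;> rfl

end Pool.Agent.Worm

end WalkSec

section MomentsSec
open MeasureTheory Measure ProbabilityTheory
open scoped ENNReal

namespace Pool.Agent.Worm

lemma uni_singleton (e : Fin 6) : uni {e} = (6 : ℝ≥0∞)⁻¹ := by
  unfold uni
  rw [PMF.toMeasure_apply_singleton _ _ (measurableSet_singleton e), PMF.uniformOfFintype_apply]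
  simp

lemma lintegral_uni (f : Fin 6 → ℝ≥0∞) : 6 * ∫⁻ e, f e ∂uni = ∑ e, f e := by
  rw [lintegral_fintype, Finset.mul_sum]
  refine Finset.sum_congr rfl fun e _ => ?_
  rw [uni_singleton, mul_comm (f e), ← mul_assoc, ENNReal.mul_inv_cancel (by norm_num) (by norm_num),
    one_mul]

/-- one step of the walk -/
lemma lintegral_walk_succ (f : Site → ℝ≥0∞) (j : ℕ) :
    6 * ∫⁻ σ, f (walk σ (j + 1)) ∂stepLaw = ∫⁻ σ, ∑ e, f (walk σ j + vec e) ∂stepLaw := by
  rw [lintegral_cat j (fun σ => f (walk σ (j + 1)))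
    ((measurable_of_countable f).comp (measurable_walk _))]
  simp_rw [walk_cat_add]
  rw [← lintegral_const_mul]
  · refine lintegral_congr fun σ => ?_
    have h1 : ∀ τ : ℕ → Fin 6, walk τ 1 = vec (τ 0) := by
      intro τ; simp [walk]
    simp_rw [h1]
    have h2 := (measurePreserving_eval_infinitePi (fun _ : ℕ => uni) 0).lintegral_comp
      (f := fun e => f (walk σ j + vec e)) (measurable_of_finite _)
    have h3 : ∫⁻ τ : ℕ → Fin 6, f (walk σ j + vec (τ 0)) ∂stepLaw =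
        ∫⁻ e, f (walk σ j + vec e) ∂uni := h2
    rw [h3, lintegral_uni]
  · apply Measurable.lintegral_prod_right'
      (f := fun p : (ℕ → Fin 6) × (ℕ → Fin 6) => f (walk p.1 j + walk p.2 1))
    exact (measurable_of_countable f).comp
      (((measurable_walk j).comp measurable_fst).add ((measurable_walk 1).comp measurable_snd))

def g2 (x : Site) : ℕ := x.1.natAbs ^ 2 + x.2.1.natAbs ^ 2 + x.2.2.natAbs ^ 2

def g4 (x : Site) : ℕ := x.1.natAbs ^ 4 + x.2.1.natAbs ^ 4 + x.2.2.natAbs ^ 4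

lemma cast_g2 (x : Site) : (g2 x : ℤ) = x.1 ^ 2 + x.2.1 ^ 2 + x.2.2 ^ 2 := by
  simp [g2, sq_abs]

lemma cast_g4 (x : Site) : (g4 x : ℤ) = x.1 ^ 4 + x.2.1 ^ 4 + x.2.2 ^ 4 := by
  have h : ∀ a : ℤ, |a| ^ 4 = a ^ 4 := by
    intro a
    calc |a| ^ 4 = (|a| ^ 2) ^ 2 := by ring
      _ = (a ^ 2) ^ 2 := by rw [sq_abs]
      _ = a ^ 4 := by ring
  simp [g4, h]

lemma sum_g2 (x : Site) : ∑ e, g2 (x + vec e) = 6 * g2 x + 6 := by
  zify
  simp only [cast_g2, Fin.sum_univ_six, vec]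
  obtain ⟨a, b, c⟩ := x
  simp
  ring

lemma sum_g4 (x : Site) : ∑ e, g4 (x + vec e) = 6 * g4 x + 12 * g2 x + 6 := by
  zify
  simp only [cast_g2, cast_g4, Fin.sum_univ_six, vec]
  obtain ⟨a, b, c⟩ := x
  simp
  ring

lemma nrm_sq_le (x : Site) : nrm x ^ 2 ≤ g2 x := by
  unfold nrm g2
  rcases max_choice x.1.natAbs (max x.2.1.natAbs x.2.2.natAbs) with h | h
  · rw [h]; omega
  · rw [h]
    rcases max_choice x.2.1.natAbs x.2.2.natAbs with h | h <;> rw [h] <;> omega

lemma nrm_four_le (x : Site) : nrm x ^ 4 ≤ g4 x := by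
  unfold nrm g4
  rcases max_choice x.1.natAbs (max x.2.1.natAbs x.2.2.natAbs) with h | h
  · rw [h]; omega
  · rw [h]
    rcases max_choice x.2.1.natAbs x.2.2.natAbs with h | h <;> rw [h] <;> omega

lemma lintegral_g2 (j : ℕ) : ∫⁻ σ, (g2 (walk σ j) : ℝ≥0∞) ∂stepLaw = j := by
  induction j with
  | zero => simp [walk_zero, g2]
  | succ j ih =>
    have h := lintegral_walk_succ (fun x => (g2 x : ℝ≥0∞)) j
    have h2 : ∫⁻ σ, ∑ e, (g2 (walk σ j + vec e) : ℝ≥0∞) ∂stepLaw =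
        6 * ((j : ℝ≥0∞) + 1) := by
      have h3 : ∀ σ : ℕ → Fin 6, ∑ e, (g2 (walk σ j + vec e) : ℝ≥0∞) =
          6 * (g2 (walk σ j) : ℝ≥0∞) + 6 := by
        intro σ
        exact_mod_cast sum_g2 (walk σ j)
      simp_rw [h3]
      rw [lintegral_add_right _ measurable_const, lintegral_const_mul, ih]
      · simp [mul_add]
      · exact (measurable_of_countable (fun x : Site => (g2 x : ℝ≥0∞))).comp (measurable_walk _)
    rw [h2] at h
    have h4 := (ENNReal.mul_right_inj (by norm_num) (by norm_num)).mp h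
    rw [h4]
    push_cast
    rfl

lemma lintegral_g4 (j : ℕ) : ∫⁻ σ, (g4 (walk σ j) : ℝ≥0∞) ∂stepLaw = (j : ℝ≥0∞) ^ 2 := by
  induction j with
  | zero => simp [walk_zero, g4]
  | succ j ih =>
    have h := lintegral_walk_succ (fun x => (g4 x : ℝ≥0∞)) j
    have hm2 : Measurable (fun σ : ℕ → Fin 6 => (g2 (walk σ j) : ℝ≥0∞)) :=
      (measurable_of_countable (fun x : Site => (g2 x : ℝ≥0∞))).comp (measurable_walk _)
    have hm4 : Measurable (fun σ : ℕ → Fin 6 => (g4 (walk σ j) : ℝ≥0∞)) :=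
      (measurable_of_countable (fun x : Site => (g4 x : ℝ≥0∞))).comp (measurable_walk _)
    have h2 : ∫⁻ σ, ∑ e, (g4 (walk σ j + vec e) : ℝ≥0∞) ∂stepLaw =
        6 * ((j : ℝ≥0∞) + 1) ^ 2 := by
      have h3 : ∀ σ : ℕ → Fin 6, ∑ e, (g4 (walk σ j + vec e) : ℝ≥0∞) =
          6 * (g4 (walk σ j) : ℝ≥0∞) + 12 * (g2 (walk σ j) : ℝ≥0∞) + 6 := by
        intro σ
        exact_mod_cast sum_g4 (walk σ j)
      simp_rw [h3]
      rw [lintegral_add_right _ measurable_const, lintegral_add_left (hm4.const_mul 6),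
        lintegral_const_mul _ hm4, lintegral_const_mul _ hm2, ih, lintegral_g2]
      simp
      ring
    rw [h2] at h
    have h4 := (ENNReal.mul_right_inj (by norm_num) (by norm_num)).mp h
    rw [h4]
    push_cast
    rfl

/-- maximal displacement up to time `N` -/
def mx (σ : ℕ → Fin 6) (N : ℕ) : ℕ := (Finset.range (N + 1)).sup (fun j => nrm (walk σ j))

lemma le_mx (σ : ℕ → Fin 6) {N j : ℕ} (h : j ≤ N) : nrm (walk σ j) ≤ mx σ N := by
  unfold mx
  exact Finset.le_sup (f := fun j => nrm (walk σ j)) (Finset.mem_range.mpr (by omega))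

lemma mx_mono (σ : ℕ → Fin 6) {N M : ℕ} (h : N ≤ M) : mx σ N ≤ mx σ M := by
  unfold mx
  exact Finset.sup_mono (Finset.range_mono (by omega))

lemma mx_le {σ : ℕ → Fin 6} {N D : ℕ} (h : ∀ j ≤ N, nrm (walk σ j) ≤ D) : mx σ N ≤ D := by
  unfold mx
  exact Finset.sup_le fun j hj => h j (by have := Finset.mem_range.mp hj; omega)

lemma measurable_mx (N : ℕ) : Measurable (fun σ : ℕ → Fin 6 => mx σ N) := by
  unfold mx
  have h : ∀ s : Finset ℕ, Measurable (fun σ : ℕ → Fin 6 => s.sup (fun j => nrm (walk σ j))) := by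
    intro s
    induction s using Finset.induction_on with
    | empty => simp only [Finset.sup_empty]; exact measurable_const
    | insert a s _ ih =>
      simp only [Finset.sup_insert]
      exact Measurable.sup ((measurable_of_countable nrm).comp (measurable_walk a)) ih
  exact h _

lemma quartic (a b : ℕ) : (a + b) ^ 4 ≤ 2 * a ^ 4 + 128 * b ^ 4 := by
  zify
  nlinarith [sq_nonneg ((a : ℤ) ^ 2 - 2 * a * b - 7 * b ^ 2), sq_nonneg ((2 * (a : ℤ) - 8 * b) * b),
    sq_nonneg ((b : ℤ) ^ 2)]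

/-- Fourth moment maximal inequality at dyadic times. -/
lemma lintegral_mx_dyadic (n : ℕ) :
    ∫⁻ σ, ((mx σ (2 ^ n) : ℕ) : ℝ≥0∞) ^ 4 ∂stepLaw ≤ 128 * 4 ^ n := by
  induction n with
  | zero =>
    have h : ∀ σ : ℕ → Fin 6, ((mx σ (2 ^ 0) : ℕ) : ℝ≥0∞) ^ 4 ≤ 1 := by
      intro σ
      have : mx σ (2 ^ 0) ≤ 1 := by
        apply mx_le
        intro j hj
        interval_cases j
        · simp [walk_zero, nrm_zero]
        · simp [walk, nrm_vec]
      calc ((mx σ (2 ^ 0) : ℕ) : ℝ≥0∞) ^ 4 ≤ ((1 : ℕ) : ℝ≥0∞) ^ 4 := by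
            gcongr
        _ = 1 := by simp
    calc ∫⁻ σ, ((mx σ (2 ^ 0) : ℕ) : ℝ≥0∞) ^ 4 ∂stepLaw ≤ ∫⁻ σ, 1 ∂stepLaw :=
          lintegral_mono h
      _ = 1 := by simp
      _ ≤ 128 * 4 ^ 0 := by norm_num
  | succ n ih =>
    have hmeas : ∀ N, Measurable (fun σ : ℕ → Fin 6 => ((mx σ N : ℕ) : ℝ≥0∞) ^ 4) := by
      intro N
      exact (measurable_of_countable (fun k : ℕ => (k : ℝ≥0∞) ^ 4)).comp (measurable_mx N)
    have hmw : Measurable (fun σ : ℕ → Fin 6 => (nrm (walk σ (2 ^ n)) : ℝ≥0∞) ^ 4) :=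
      (measurable_of_countable (fun x : Site => (nrm x : ℝ≥0∞) ^ 4)).comp (measurable_walk _)
    rw [lintegral_cat (2 ^ n) _ (hmeas _)]
    have hpt : ∀ σ τ : ℕ → Fin 6, ((mx (cat (2 ^ n) (σ, τ)) (2 ^ (n + 1)) : ℕ) : ℝ≥0∞) ^ 4 ≤
        ((mx σ (2 ^ n) : ℕ) : ℝ≥0∞) ^ 4 + (2 * ((mx τ (2 ^ n) : ℕ) : ℝ≥0∞) ^ 4 +
          128 * (nrm (walk σ (2 ^ n)) : ℝ≥0∞) ^ 4) := by
      intro σ τ
      have h1 : mx (cat (2 ^ n) (σ, τ)) (2 ^ (n + 1)) ≤
          max (mx σ (2 ^ n)) (mx τ (2 ^ n) + nrm (walk σ (2 ^ n))) := by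
        apply mx_le
        intro j hj
        by_cases hjn : j ≤ 2 ^ n
        · rw [walk_cat_le _ _ hjn]
          exact (le_mx σ hjn).trans (le_max_left _ _)
        · obtain ⟨i, rfl⟩ := Nat.exists_eq_add_of_le (not_le.mp hjn).le
          rw [walk_cat_add]
          have hi : i ≤ 2 ^ n := by rw [pow_succ] at hj; omega
          refine (nrm_add_le _ _).trans ?_
          refine le_trans ?_ (le_max_right _ _)
          have := le_mx τ hi
          simp only
          omega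
      have h2 : (mx (cat (2 ^ n) (σ, τ)) (2 ^ (n + 1))) ^ 4 ≤
          (mx σ (2 ^ n)) ^ 4 + (2 * (mx τ (2 ^ n)) ^ 4 + 128 * (nrm (walk σ (2 ^ n))) ^ 4) := by
        have h3 := quartic (mx τ (2 ^ n)) (nrm (walk σ (2 ^ n)))
        refine (Nat.pow_le_pow_left h1 4).trans ?_
        rcases max_choice (mx σ (2 ^ n)) (mx τ (2 ^ n) + nrm (walk σ (2 ^ n))) with h | h
        · rw [h]; omega
        · rw [h]; omega
      exact_mod_cast h2
    calc ∫⁻ σ, ∫⁻ τ, ((mx (cat (2 ^ n) (σ, τ)) (2 ^ (n + 1)) : ℕ) : ℝ≥0∞) ^ 4 ∂stepLaw ∂stepLaw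
        ≤ ∫⁻ σ, ∫⁻ τ, (((mx σ (2 ^ n) : ℕ) : ℝ≥0∞) ^ 4 + (2 * ((mx τ (2 ^ n) : ℕ) : ℝ≥0∞) ^ 4 +
          128 * (nrm (walk σ (2 ^ n)) : ℝ≥0∞) ^ 4)) ∂stepLaw ∂stepLaw :=
          lintegral_mono fun σ => lintegral_mono fun τ => hpt σ τ
      _ = ∫⁻ σ, (((mx σ (2 ^ n) : ℕ) : ℝ≥0∞) ^ 4 +
          (2 * ∫⁻ τ, ((mx τ (2 ^ n) : ℕ) : ℝ≥0∞) ^ 4 ∂stepLaw +
          128 * (nrm (walk σ (2 ^ n)) : ℝ≥0∞) ^ 4)) ∂stepLaw := by
          refine lintegral_congr fun σ => ?_
          rw [lintegral_add_left measurable_const, lintegral_add_right _ measurable_const,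
            lintegral_const_mul _ (hmeas _)]
          simp
      _ = ∫⁻ σ, ((mx σ (2 ^ n) : ℕ) : ℝ≥0∞) ^ 4 ∂stepLaw +
          (2 * ∫⁻ τ, ((mx τ (2 ^ n) : ℕ) : ℝ≥0∞) ^ 4 ∂stepLaw +
          128 * ∫⁻ σ, (nrm (walk σ (2 ^ n)) : ℝ≥0∞) ^ 4 ∂stepLaw) := by
          rw [lintegral_add_left (hmeas _), lintegral_add_left measurable_const,
            lintegral_const_mul _ hmw]
          simp
      _ ≤ 128 * 4 ^ n + (2 * (128 * 4 ^ n) + 128 * 4 ^ n) := by
          have h5 : ∫⁻ σ, (nrm (walk σ (2 ^ n)) : ℝ≥0∞) ^ 4 ∂stepLaw ≤ 4 ^ n := by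
            calc ∫⁻ σ, (nrm (walk σ (2 ^ n)) : ℝ≥0∞) ^ 4 ∂stepLaw
                ≤ ∫⁻ σ, (g4 (walk σ (2 ^ n)) : ℝ≥0∞) ∂stepLaw := by
                  apply lintegral_mono
                  intro σ
                  have := nrm_four_le (walk σ (2 ^ n))
                  simp only
                  exact_mod_cast this
              _ = ((2 ^ n : ℕ) : ℝ≥0∞) ^ 2 := lintegral_g4 _
              _ = 4 ^ n := by
                  push_cast
                  rw [← pow_mul, mul_comm, pow_mul]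
                  norm_num
          gcongr
      _ = 128 * 4 ^ (n + 1) := by ring

/-- Fourth moment maximal inequality. -/
lemma lintegral_mx (N : ℕ) :
    ∫⁻ σ, ((mx σ N : ℕ) : ℝ≥0∞) ^ 4 ∂stepLaw ≤ 512 * (N : ℝ≥0∞) ^ 2 := by
  rcases Nat.eq_zero_or_pos N with h0 | hpos
  · subst h0
    have : ∀ σ : ℕ → Fin 6, mx σ 0 = 0 := by
      intro σ
      apply Nat.le_zero.mp
      apply mx_le
      intro j hj
      obtain rfl : j = 0 := Nat.le_zero.mp hj
      simp [walk_zero, nrm_zero]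
    simp [this]
  · set n := Nat.log 2 N + 1 with hn
    have h1 : N ≤ 2 ^ n := (Nat.lt_pow_succ_log_self (by norm_num) N).le
    have h2 : 2 ^ n ≤ 2 * N := by
      rw [hn, pow_succ]
      have := Nat.pow_log_le_self 2 (by omega : N ≠ 0)
      omega
    calc ∫⁻ σ, ((mx σ N : ℕ) : ℝ≥0∞) ^ 4 ∂stepLaw
        ≤ ∫⁻ σ, ((mx σ (2 ^ n) : ℕ) : ℝ≥0∞) ^ 4 ∂stepLaw := by
          apply lintegral_mono
          intro σ
          have := mx_mono σ h1
          simp only
          gcongr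
      _ ≤ 128 * 4 ^ n := lintegral_mx_dyadic n
      _ = 128 * ((2 ^ n : ℕ) : ℝ≥0∞) ^ 2 := by
          push_cast
          rw [← pow_mul, mul_comm n, pow_mul]
          norm_num
      _ ≤ 128 * ((2 * N : ℕ) : ℝ≥0∞) ^ 2 := by gcongr
      _ = 512 * (N : ℝ≥0∞) ^ 2 := by push_cast; ring

end Pool.Agent.Worm

end MomentsSec

section VisitsSec
open MeasureTheory Measure ProbabilityTheory
open scoped ENNReal

namespace Pool.Agent.Worm

/-- The box with lowest corner `c` and side `s`. -/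
noncomputable def box (c : Site) (s : ℕ) : Finset Site :=
  Finset.Ico c.1 (c.1 + s) ×ˢ (Finset.Ico c.2.1 (c.2.1 + s) ×ˢ Finset.Ico c.2.2 (c.2.2 + s))

lemma mem_box {c : Site} {s : ℕ} {a : Site} : a ∈ box c s ↔
    (c.1 ≤ a.1 ∧ a.1 < c.1 + s) ∧ (c.2.1 ≤ a.2.1 ∧ a.2.1 < c.2.1 + s) ∧
      (c.2.2 ≤ a.2.2 ∧ a.2.2 < c.2.2 + s) := by
  simp [box]

lemma card_box (c : Site) (s : ℕ) : (box c s).card = s ^ 3 := by
  simp [box, Finset.card_product]
  ring

/-- Starting points from which the path `σ` visits the box before time `ℓ`. -/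
noncomputable def visits (c : Site) (s : ℕ) (σ : ℕ → Fin 6) (ℓ : ℕ) : Finset Site :=
  (Finset.range ℓ).biUnion (fun j => box (c - walk σ j) s)

lemma mem_visits {c : Site} {s : ℕ} {σ : ℕ → Fin 6} {ℓ : ℕ} {x : Site} :
    x ∈ visits c s σ ℓ ↔ ∃ j < ℓ, x + walk σ j ∈ box c s := by
  simp only [visits, Finset.mem_biUnion, Finset.mem_range, mem_box, Prod.fst_sub, Prod.snd_sub,
    Prod.fst_add, Prod.snd_add]
  refine exists_congr fun j => and_congr_right fun _ => ?_
  constructor <;> rintro ⟨⟨h1, h2⟩, ⟨h3, h4⟩, h5, h6⟩ <;>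
    refine ⟨⟨?_, ?_⟩, ⟨?_, ?_⟩, ?_, ?_⟩ <;> linarith

lemma card_visits_le (c : Site) (s : ℕ) (σ : ℕ → Fin 6) (ℓ D : ℕ)
    (hD : ∀ j < ℓ, nrm (walk σ j) ≤ D) : (visits c s σ ℓ).card ≤ (s + 2 * D) ^ 3 := by
  have hsub : visits c s σ ℓ ⊆ box (c - ((D : ℤ), (D : ℤ), (D : ℤ))) (s + 2 * D) := by
    intro x hx
    rw [mem_visits] at hx
    obtain ⟨j, hj, hx⟩ := hx
    have hn := (nrm_le_iff _ _).mp (hD j hj)
    rw [mem_box] at hx ⊢
    simp only [Prod.fst_add, Prod.snd_add, Prod.fst_sub, Prod.snd_sub] at hx ⊢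
    push_cast
    omega
  calc (visits c s σ ℓ).card ≤ (box (c - ((D : ℤ), (D : ℤ), (D : ℤ))) (s + 2 * D)).card := Finset.card_le_card hsub
    _ = (s + 2 * D) ^ 3 := card_box _ _

lemma measurable_card_visits (c : Site) (s ℓ : ℕ) :
    Measurable (fun σ : ℕ → Fin 6 => (visits c s σ ℓ).card) := by
  unfold visits
  have h : ∀ t : Finset ℕ, Measurable (fun σ : ℕ → Fin 6 =>
      t.biUnion (fun j => box (c - walk σ j) s)) := by
    intro t
    induction t using Finset.induction_on with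
    | empty => simp only [Finset.biUnion_empty]; exact measurable_const
    | insert a t _ ih =>
      simp only [Finset.biUnion_insert]
      have h1 : Measurable (fun σ : ℕ → Fin 6 => box (c - walk σ a) s) :=
        (measurable_of_countable (fun x : Site => box (c - x) s)).comp (measurable_walk a)
      exact (measurable_of_countable (fun p : Finset Site × Finset Site => p.1 ∪ p.2)).comp
        (h1.prodMk ih)
  exact (measurable_of_countable Finset.card).comp (h _)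

lemma visits_mono (c : Site) (s : ℕ) (σ : ℕ → Fin 6) {ℓ ℓ' : ℕ} (h : ℓ ≤ ℓ') :
    visits c s σ ℓ ⊆ visits c s σ ℓ' := by
  intro x hx
  rw [mem_visits] at hx ⊢
  obtain ⟨j, hj, hx⟩ := hx
  exact ⟨j, by omega, hx⟩

/-- Displacement larger than `α` strictly before time `ℓ`. -/
def Large (α : ℕ) (σ : ℕ → Fin 6) (ℓ : ℕ) : Prop := ∃ j < ℓ, α < nrm (walk σ j)

lemma measurableSet_large (α ℓ : ℕ) : MeasurableSet {σ : ℕ → Fin 6 | Large α σ ℓ} := by
  have : {σ : ℕ → Fin 6 | Large α σ ℓ} =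
      ⋃ j ∈ Finset.range ℓ, (fun σ : ℕ → Fin 6 => nrm (walk σ j)) ⁻¹' {k | α < k} := by
    ext σ; simp [Large]
  rw [this]
  refine Finset.measurableSet_biUnion _ fun j _ => ?_
  exact ((measurable_of_countable nrm).comp (measurable_walk j)) (Set.to_countable _).measurableSet

lemma lintegral_visits_large (c : Site) (α ℓ : ℕ) :
    (α : ℝ≥0∞) * ∫⁻ σ, {σ : ℕ → Fin 6 | Large α σ ℓ}.indicator
      (fun σ => ((visits c (40 * α) σ ℓ).card : ℝ≥0∞)) σ ∂stepLaw ≤
      42 ^ 3 * 512 * (ℓ : ℝ≥0∞) ^ 2 := by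
  have hmc : Measurable (fun σ : ℕ → Fin 6 => ((visits c (40 * α) σ ℓ).card : ℝ≥0∞)) :=
    (measurable_of_countable (fun k : ℕ => (k : ℝ≥0∞))).comp (measurable_card_visits c _ ℓ)
  rw [← lintegral_const_mul _ (hmc.indicator (measurableSet_large α ℓ))]
  have hpt : ∀ σ : ℕ → Fin 6, (α : ℝ≥0∞) * {σ : ℕ → Fin 6 | Large α σ ℓ}.indicator
      (fun σ => ((visits c (40 * α) σ ℓ).card : ℝ≥0∞)) σ ≤
      42 ^ 3 * ((mx σ ℓ : ℕ) : ℝ≥0∞) ^ 4 := by
    intro σ
    by_cases hL : Large α σ ℓ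
    · rw [Set.indicator_of_mem (by exact hL)]
      obtain ⟨j, hj, hα⟩ := hL
      have h1 : α ≤ mx σ ℓ := hα.le.trans (le_mx σ hj.le)
      have h2 := card_visits_le c (40 * α) σ ℓ (mx σ ℓ) (fun j hj => le_mx σ hj.le)
      have h3 : α * (visits c (40 * α) σ ℓ).card ≤ 42 ^ 3 * (mx σ ℓ) ^ 4 := by
        calc α * (visits c (40 * α) σ ℓ).card ≤ mx σ ℓ * (40 * mx σ ℓ + 2 * mx σ ℓ) ^ 3 := by
              apply Nat.mul_le_mul h1
              refine h2.trans ?_
              apply Nat.pow_le_pow_left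
              omega
          _ = 42 ^ 3 * (mx σ ℓ) ^ 4 := by ring
      exact_mod_cast h3
    · rw [Set.indicator_of_notMem (by exact hL)]
      simp
  calc _ ≤ ∫⁻ σ, 42 ^ 3 * ((mx σ ℓ : ℕ) : ℝ≥0∞) ^ 4 ∂stepLaw := lintegral_mono hpt
    _ = 42 ^ 3 * ∫⁻ σ, ((mx σ ℓ : ℕ) : ℝ≥0∞) ^ 4 ∂stepLaw := by
        rw [lintegral_const_mul]
        exact (measurable_of_countable (fun k : ℕ => (k : ℝ≥0∞) ^ 4)).comp (measurable_mx ℓ)
    _ ≤ 42 ^ 3 * (512 * (ℓ : ℝ≥0∞) ^ 2) := by
        gcongr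
        exact lintegral_mx ℓ
    _ = _ := by ring

lemma lintegral_visits_block (c : Site) (α : ℕ) :
    (α : ℝ≥0∞) * ∫⁻ σ, ((visits c (40 * α) σ (α ^ 2)).card : ℝ≥0∞) ∂stepLaw ≤
      42 ^ 3 * 513 * (α : ℝ≥0∞) ^ 4 := by
  have hmc : Measurable (fun σ : ℕ → Fin 6 => ((visits c (40 * α) σ (α ^ 2)).card : ℝ≥0∞)) :=
    (measurable_of_countable (fun k : ℕ => (k : ℝ≥0∞))).comp (measurable_card_visits c _ _)
  rw [← lintegral_const_mul _ hmc]
  have hpt : ∀ σ : ℕ → Fin 6, (α : ℝ≥0∞) * ((visits c (40 * α) σ (α ^ 2)).card : ℝ≥0∞) ≤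
      42 ^ 3 * (α : ℝ≥0∞) ^ 4 + 42 ^ 3 * ((mx σ (α ^ 2) : ℕ) : ℝ≥0∞) ^ 4 := by
    intro σ
    have h2 := card_visits_le c (40 * α) σ (α ^ 2) (mx σ (α ^ 2)) (fun j hj => le_mx σ hj.le)
    have h3 : α * (visits c (40 * α) σ (α ^ 2)).card ≤
        42 ^ 3 * α ^ 4 + 42 ^ 3 * (mx σ (α ^ 2)) ^ 4 := by
      rcases le_total α (mx σ (α ^ 2)) with h | h
      · calc α * (visits c (40 * α) σ (α ^ 2)).card
            ≤ mx σ (α ^ 2) * (40 * mx σ (α ^ 2) + 2 * mx σ (α ^ 2)) ^ 3 := by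
              apply Nat.mul_le_mul h
              refine h2.trans ?_
              apply Nat.pow_le_pow_left
              omega
          _ = 42 ^ 3 * (mx σ (α ^ 2)) ^ 4 := by ring
          _ ≤ _ := Nat.le_add_left _ _
      · calc α * (visits c (40 * α) σ (α ^ 2)).card
            ≤ α * (40 * α + 2 * α) ^ 3 := by
              apply Nat.mul_le_mul le_rfl
              refine h2.trans ?_
              apply Nat.pow_le_pow_left
              omega
          _ = 42 ^ 3 * α ^ 4 := by ring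
          _ ≤ _ := Nat.le_add_right _ _
    exact_mod_cast h3
  have hm4 : Measurable (fun σ : ℕ → Fin 6 => ((mx σ (α ^ 2) : ℕ) : ℝ≥0∞) ^ 4) :=
    (measurable_of_countable (fun k : ℕ => (k : ℝ≥0∞) ^ 4)).comp (measurable_mx _)
  calc _ ≤ ∫⁻ σ, (42 ^ 3 * (α : ℝ≥0∞) ^ 4 + 42 ^ 3 * ((mx σ (α ^ 2) : ℕ) : ℝ≥0∞) ^ 4) ∂stepLaw :=
        lintegral_mono hpt
    _ = 42 ^ 3 * (α : ℝ≥0∞) ^ 4 + 42 ^ 3 * ∫⁻ σ, ((mx σ (α ^ 2) : ℕ) : ℝ≥0∞) ^ 4 ∂stepLaw := by
        rw [lintegral_add_left measurable_const, lintegral_const_mul _ hm4]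
        simp
    _ ≤ 42 ^ 3 * (α : ℝ≥0∞) ^ 4 + 42 ^ 3 * (512 * ((α ^ 2 : ℕ) : ℝ≥0∞) ^ 2) := by
        gcongr
        exact lintegral_mx (α ^ 2)
    _ = _ := by push_cast; ring

lemma lintegral_visits_blocks (s B : ℕ) (V : ℝ≥0∞)
    (hV : ∀ c : Site, ∫⁻ σ, ((visits c s σ B).card : ℝ≥0∞) ∂stepLaw ≤ V) (k : ℕ) :
    ∀ c : Site, ∫⁻ σ, ((visits c s σ (k * B)).card : ℝ≥0∞) ∂stepLaw ≤ k * V := by
  induction k with
  | zero => intro c; simp [visits]
  | succ k ih =>
    intro c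
    have hmc : ∀ (c : Site) (ℓ : ℕ),
        Measurable (fun σ : ℕ → Fin 6 => ((visits c s σ ℓ).card : ℝ≥0∞)) := fun c ℓ =>
      (measurable_of_countable (fun k : ℕ => (k : ℝ≥0∞))).comp (measurable_card_visits c _ _)
    rw [lintegral_cat B _ (hmc c _)]
    have hpt : ∀ σ τ : ℕ → Fin 6, ((visits c s (cat B (σ, τ)) ((k + 1) * B)).card : ℝ≥0∞) ≤
        ((visits c s σ B).card : ℝ≥0∞) + ((visits (c - walk σ B) s τ (k * B)).card : ℝ≥0∞) := by
      intro σ τ
      have hsub : visits c s (cat B (σ, τ)) ((k + 1) * B) ⊆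
          visits c s σ B ∪ visits (c - walk σ B) s τ (k * B) := by
        intro x hx
        rw [mem_visits] at hx
        obtain ⟨j, hj, hx⟩ := hx
        rw [Finset.mem_union, mem_visits, mem_visits]
        by_cases hjB : j < B
        · left
          rw [walk_cat_le _ _ hjB.le] at hx
          exact ⟨j, hjB, hx⟩
        · right
          obtain ⟨i, rfl⟩ := Nat.exists_eq_add_of_le (not_lt.mp hjB)
          refine ⟨i, by rw [add_mul] at hj; omega, ?_⟩
          rw [walk_cat_add] at hx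
          rw [mem_box] at hx ⊢
          simp only [Prod.fst_add, Prod.snd_add, Prod.fst_sub, Prod.snd_sub] at hx ⊢
          omega
      have := (Finset.card_le_card hsub).trans (Finset.card_union_le _ _)
      exact_mod_cast this
    calc ∫⁻ σ, ∫⁻ τ, ((visits c s (cat B (σ, τ)) ((k + 1) * B)).card : ℝ≥0∞) ∂stepLaw ∂stepLaw
        ≤ ∫⁻ σ, ∫⁻ τ, (((visits c s σ B).card : ℝ≥0∞) +
          ((visits (c - walk σ B) s τ (k * B)).card : ℝ≥0∞)) ∂stepLaw ∂stepLaw :=
          lintegral_mono fun σ => lintegral_mono fun τ => hpt σ τ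
      _ = ∫⁻ σ, (((visits c s σ B).card : ℝ≥0∞) +
          ∫⁻ τ, ((visits (c - walk σ B) s τ (k * B)).card : ℝ≥0∞) ∂stepLaw) ∂stepLaw := by
          refine lintegral_congr fun σ => ?_
          rw [lintegral_add_left measurable_const]
          simp
      _ ≤ ∫⁻ σ, (((visits c s σ B).card : ℝ≥0∞) + k * V) ∂stepLaw :=
          lintegral_mono fun σ => by
            simp only
            gcongr
            exact ih _
      _ = ∫⁻ σ, ((visits c s σ B).card : ℝ≥0∞) ∂stepLaw + k * V := by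
          rw [lintegral_add_left (hmc c B)]
          simp
      _ ≤ V + k * V := by gcongr; exact hV c
      _ = ((k + 1 : ℕ) : ℝ≥0∞) * V := by push_cast; ring

/-- For long walks. -/
lemma lintegral_visits_long (c : Site) (α ℓ : ℕ) (hα : 1 ≤ α) (hℓ : α ^ 2 ≤ ℓ) :
    ∫⁻ σ, ((visits c (40 * α) σ ℓ).card : ℝ≥0∞) ∂stepLaw ≤
      42 ^ 3 * 1026 * (α : ℝ≥0∞) * ℓ := by
  have hα0 : (α : ℝ≥0∞) ≠ 0 := by
    simp only [ne_eq, Nat.cast_eq_zero]; omega
  have hαt : (α : ℝ≥0∞) ≠ ∞ := ENNReal.natCast_ne_top α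
  have hV : ∀ c : Site, ∫⁻ σ, ((visits c (40 * α) σ (α ^ 2)).card : ℝ≥0∞) ∂stepLaw ≤
      42 ^ 3 * 513 * (α : ℝ≥0∞) ^ 3 := by
    intro c
    have h := lintegral_visits_block c α
    have h2 : 42 ^ 3 * 513 * (α : ℝ≥0∞) ^ 4 = α * (42 ^ 3 * 513 * (α : ℝ≥0∞) ^ 3) := by ring
    rw [h2] at h
    exact (ENNReal.mul_le_mul_iff_right hα0 hαt).mp h
  have hB : 0 < α ^ 2 := by positivity
  set k := ℓ / α ^ 2 + 1 with hk
  have h1 : ℓ ≤ k * α ^ 2 := by
    rw [hk, mul_comm]
    exact (Nat.lt_mul_div_succ ℓ hB).le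
  have h2 : k * α ^ 2 ≤ 2 * ℓ := by
    rw [hk, add_mul, one_mul]
    have := Nat.div_mul_le_self ℓ (α ^ 2)
    omega
  calc ∫⁻ σ, ((visits c (40 * α) σ ℓ).card : ℝ≥0∞) ∂stepLaw
      ≤ ∫⁻ σ, ((visits c (40 * α) σ (k * α ^ 2)).card : ℝ≥0∞) ∂stepLaw := by
        apply lintegral_mono
        intro σ
        have := Finset.card_le_card (visits_mono c (40 * α) σ h1)
        simp only
        exact_mod_cast this
    _ ≤ k * (42 ^ 3 * 513 * (α : ℝ≥0∞) ^ 3) := lintegral_visits_blocks _ _ _ hV k c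
    _ = 42 ^ 3 * 513 * (α : ℝ≥0∞) * ((k * α ^ 2 : ℕ) : ℝ≥0∞) := by push_cast; ring
    _ ≤ 42 ^ 3 * 513 * (α : ℝ≥0∞) * ((2 * ℓ : ℕ) : ℝ≥0∞) := by gcongr
    _ = _ := by push_cast; ring

end Pool.Agent.Worm

end VisitsSec

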