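import Mathlib
import Pool.Agent.Lib.MP_b9fdbf_pr.Base

set_option autoImplicit false

section HeatKernelSec
set_option linter.deprecated false

open MeasureTheory Measure ProbabilityTheory
open scoped ENNReal

namespace Pool.Agent.Worm

/-! ### One dimensional walk -/

/-- one dimensional transition probabilities -/
noncomputable def q : ℕ → ℤ → ℝ
  | 0, z => if z = 0 then 1 else 0
  | n + 1, z => (q n (z + 1) + q n (z - 1)) / 2

/-- integer-indexed binomial coefficient -/
def cz (n : ℕ) (k : ℤ) : ℕ := if 0 ≤ k then n.choose k.toNat else 0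

lemma cz_succ (n : ℕ) (k : ℤ) : cz (n + 1) k = cz n k + cz n (k - 1) := by
  unfold cz
  rcases lt_trichotomy k 0 with h | h | h
  · rw [if_neg (by omega), if_neg (by omega), if_neg (by omega)]
  · subst h; simp
  · rw [if_pos (by omega), if_pos (by omega), if_pos (by omega)]
    obtain ⟨m, rfl⟩ : ∃ m : ℕ, k = m + 1 := ⟨(k - 1).toNat, by omega⟩
    have h1 : ((m : ℤ) + 1).toNat = m + 1 := by omega
    have h2 : ((m : ℤ) + 1 - 1).toNat = m := by omega
    rw [h1, h2, Nat.choose_succ_succ', add_comm]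

lemma cz_le (n : ℕ) (k : ℤ) : cz n k ≤ n.choose (n / 2) := by
  unfold cz
  split_ifs
  · exact Nat.choose_le_middle _ _
  · exact Nat.zero_le _

lemma q_eq (n : ℕ) : ∀ k : ℤ, q n (2 * k - n) = cz n k / 2 ^ n ∧ q n (2 * k - n + 1) = 0 := by
  induction n with
  | zero =>
    intro k
    constructor
    · simp only [q, cz]
      by_cases h : k = 0
      · subst h; simp
      · rw [if_neg (by push_cast; omega)]
        split_ifs with h2
        · rw [Nat.choose_eq_zero_of_lt (by omega)]; simp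
        · simp
    · simp only [q]
      rw [if_neg (by push_cast; omega)]
  | succ n ih =>
    intro k
    constructor
    · simp only [q]
      have h1 : (2 * k - ((n + 1 : ℕ) : ℤ) + 1) = 2 * k - n := by push_cast; ring
      have h2 : (2 * k - ((n + 1 : ℕ) : ℤ) - 1) = 2 * (k - 1) - n := by push_cast; ring
      rw [h1, h2, (ih k).1, (ih (k - 1)).1, cz_succ]
      push_cast
      rw [pow_succ]
      ring
    · simp only [q]
      have h1 : (2 * k - ((n + 1 : ℕ) : ℤ) + 1 + 1) = 2 * k - n + 1 := by push_cast; ring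
      have h2 : (2 * k - ((n + 1 : ℕ) : ℤ) + 1 - 1) = 2 * (k - 1) - n + 1 := by push_cast; ring
      rw [h1, h2, (ih k).2, (ih (k - 1)).2]
      simp

lemma q_nonneg (n : ℕ) : ∀ z, 0 ≤ q n z := by
  induction n with
  | zero => intro z; simp only [q]; split_ifs <;> norm_num
  | succ n ih =>
    intro z
    simp only [q]
    have := ih (z + 1)
    have := ih (z - 1)
    positivity

lemma q_le (n : ℕ) (z : ℤ) : q n z ≤ n.choose (n / 2) / 2 ^ n := by
  rcases Int.even_or_odd (z + n) with ⟨k, hk⟩ | ⟨k, hk⟩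
  · have h1 : z = 2 * k - n := by omega
    rw [h1, (q_eq n k).1]
    gcongr
    exact_mod_cast cz_le n k
  · have h1 : z = 2 * k - n + 1 := by omega
    rw [h1, (q_eq n k).2]
    positivity

lemma centralBinom_sq_le (m : ℕ) : (2 * m + 1) * (Nat.centralBinom m) ^ 2 ≤ 16 ^ m := by
  induction m with
  | zero => simp
  | succ m ih =>
    have h := Nat.succ_mul_centralBinom_succ m
    have h2 : (m + 1) ^ 2 * ((2 * (m + 1) + 1) * (Nat.centralBinom (m + 1)) ^ 2) ≤
        (m + 1) ^ 2 * 16 ^ (m + 1) := by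
      calc (m + 1) ^ 2 * ((2 * (m + 1) + 1) * (Nat.centralBinom (m + 1)) ^ 2)
          = (2 * (m + 1) + 1) * ((m + 1) * Nat.centralBinom (m + 1)) ^ 2 := by ring
        _ = (2 * (m + 1) + 1) * (2 * (2 * m + 1) * Nat.centralBinom m) ^ 2 := by rw [h]
        _ = 4 * ((2 * m + 3) * (2 * m + 1)) * ((2 * m + 1) * (Nat.centralBinom m) ^ 2) := by ring
        _ ≤ 4 * (4 * (m + 1) ^ 2) * 16 ^ m := by
            apply Nat.mul_le_mul _ ih
            apply Nat.mul_le_mul le_rfl
            nlinarith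
        _ = (m + 1) ^ 2 * 16 ^ (m + 1) := by ring
    exact Nat.le_of_mul_le_mul_left h2 (by positivity)

lemma middle_sq_le (n : ℕ) : ((n.choose (n / 2) : ℝ) / 2 ^ n) ^ 2 ≤ 1 / (n + 1) := by
  have key : (n + 1) * (n.choose (n / 2)) ^ 2 ≤ 4 ^ n := by
    rcases Nat.even_or_odd n with ⟨m, hm⟩ | ⟨m, hm⟩
    · subst hm
      have h1 : (m + m) / 2 = m := by omega
      have h2 : (m + m).choose m = Nat.centralBinom m := by
        rw [Nat.centralBinom, two_mul]
      rw [h1, h2]
      have := centralBinom_sq_le m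
      have h3 : (4 : ℕ) ^ (m + m) = 16 ^ m := by
        rw [← two_mul, pow_mul]; norm_num
      rw [h3]
      calc (m + m + 1) * Nat.centralBinom m ^ 2 = (2 * m + 1) * Nat.centralBinom m ^ 2 := by ring
        _ ≤ _ := this
    · subst hm
      have h1 : (2 * m + 1) / 2 = m := by omega
      rw [h1]
      have h2 : 2 * (2 * m + 1).choose m = Nat.centralBinom (m + 1) := by
        rw [Nat.centralBinom, show 2 * (m + 1) = (2 * m + 1) + 1 by ring,
          Nat.choose_succ_succ' (2 * m + 1) m]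
        have : (2 * m + 1).choose (m + 1) = (2 * m + 1).choose m := by
          apply Nat.choose_symm_of_eq_add; omega
        rw [this]; ring
      have h3 := centralBinom_sq_le (m + 1)
      rw [← h2] at h3
      have h4 : (4 : ℕ) ^ (2 * m + 1) * 4 = 16 ^ (m + 1) := by
        rw [← pow_succ, show 2 * m + 1 + 1 = 2 * (m + 1) by ring, pow_mul]; norm_num
      rw [← h4] at h3
      have h5 : (2 * (m + 1) + 1) * (2 * (2 * m + 1).choose m) ^ 2 =
          ((2 * m + 3) * ((2 * m + 1).choose m) ^ 2) * 4 := by ring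
      rw [h5] at h3
      have h6 := Nat.le_of_mul_le_mul_right h3 (by norm_num)
      refine le_trans ?_ h6
      apply Nat.mul_le_mul _ le_rfl
      omega
  rw [div_pow, div_le_div_iff₀ (by positivity) (by positivity)]
  have h7 : ((2 : ℝ) ^ n) ^ 2 = 4 ^ n := by
    rw [← pow_mul, mul_comm, pow_mul]; norm_num
  rw [h7, one_mul]
  have : (((n + 1) * (n.choose (n / 2)) ^ 2 : ℕ) : ℝ) ≤ ((4 ^ n : ℕ) : ℝ) := by exact_mod_cast key
  push_cast at this
  linarith

lemma q_sq_le (n : ℕ) (z : ℤ) : (q n z) ^ 2 ≤ 1 / (n + 1) :=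
  (pow_le_pow_left₀ (q_nonneg n z) (q_le n z) 2).trans (middle_sq_le n)

/-! ### Operators -/

/-- shift operator -/
noncomputable def Sh (v : Site) : Module.End ℝ (Site → ℝ) :=
  LinearMap.funLeft ℝ ℝ (fun x : Site => x + v)

lemma Sh_apply (v : Site) (f : Site → ℝ) (x : Site) : Sh v f x = f (x + v) := rfl

lemma Sh_commute (v w : Site) : Commute (Sh v) (Sh w) := by
  apply LinearMap.ext
  intro f
  funext x
  change Sh v (Sh w f) x = Sh w (Sh v f) x
  simp only [Sh_apply]
  rw [add_right_comm]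

noncomputable def Op (v : Site) : Module.End ℝ (Site → ℝ) := (1 / 2 : ℝ) • (Sh v + Sh (-v))

lemma Op_apply (v : Site) (f : Site → ℝ) (x : Site) :
    Op v f x = (f (x + v) + f (x - v)) / 2 := by
  change (1 / 2 : ℝ) * (f (x + v) + f (x + -v)) = _
  rw [← sub_eq_add_neg]; ring

lemma Op_commute (v w : Site) : Commute (Op v) (Op w) := by
  unfold Op
  refine Commute.smul_left (Commute.smul_right ?_ _) _
  exact ((Sh_commute _ _).add_right (Sh_commute _ _)).add_left
    ((Sh_commute _ _).add_right (Sh_commute _ _))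

def e1 : Site := (1, 0, 0)
def e2 : Site := (0, 1, 0)
def e3 : Site := (0, 0, 1)

/-- point mass at the origin -/
noncomputable def dl : Site → ℝ := fun x => if x = 0 then 1 else 0

lemma op_pow3 (k : ℕ) (x : Site) :
    ((Op e3) ^ k) dl x = q 0 x.1 * (q 0 x.2.1 * q k x.2.2) := by
  induction k generalizing x with
  | zero =>
    simp only [pow_zero, q, Module.End.one_apply, dl]
    by_cases h1 : x.1 = 0 <;> by_cases h2 : x.2.1 = 0 <;> by_cases h3 : x.2.2 = 0 <;>
      simp [h1, h2, h3, Prod.ext_iff]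
  | succ k ih =>
    rw [pow_succ', Module.End.mul_apply, Op_apply, ih, ih]
    obtain ⟨a, b, c⟩ := x
    simp only [e3, Prod.mk_add_mk, Prod.mk_sub_mk, add_zero, sub_zero]
    rw [show q (k + 1) c = (q k (c + 1) + q k (c - 1)) / 2 from rfl]
    ring

lemma op_pow2 (j k : ℕ) (x : Site) :
    ((Op e2) ^ j) (((Op e3) ^ k) dl) x = q 0 x.1 * (q j x.2.1 * q k x.2.2) := by
  induction j generalizing x with
  | zero => rw [pow_zero, Module.End.one_apply, op_pow3]
  | succ j ih =>
    rw [pow_succ', Module.End.mul_apply, Op_apply, ih, ih]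
    obtain ⟨a, b, c⟩ := x
    simp only [e2, Prod.mk_add_mk, Prod.mk_sub_mk, add_zero, sub_zero]
    rw [show q (j + 1) b = (q j (b + 1) + q j (b - 1)) / 2 from rfl]
    ring

lemma op_pow1 (i j k : ℕ) (x : Site) :
    ((Op e1) ^ i) (((Op e2) ^ j) (((Op e3) ^ k) dl)) x =
      q i x.1 * (q j x.2.1 * q k x.2.2) := by
  induction i generalizing x with
  | zero => rw [pow_zero, Module.End.one_apply, op_pow2]
  | succ i ih =>
    rw [pow_succ', Module.End.mul_apply, Op_apply, ih, ih]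
    obtain ⟨a, b, c⟩ := x
    simp only [e1, Prod.mk_add_mk, Prod.mk_sub_mk, add_zero, sub_zero]
    rw [show q (i + 1) a = (q i (a + 1) + q i (a - 1)) / 2 from rfl]
    ring

/-- two dimensional part -/
noncomputable def Op23 : Module.End ℝ (Site → ℝ) := (1 / 2 : ℝ) • Op e2 + (1 / 2 : ℝ) • Op e3

/-- averaging operator -/
noncomputable def Av : Module.End ℝ (Site → ℝ) := (1 / 3 : ℝ) • Op e1 + (2 / 3 : ℝ) • Op23

lemma Av_apply (f : Site → ℝ) (x : Site) : 6 * Av f x = ∑ e, f (x + vec e) := by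
  have h : Av f x = (1 / 3 : ℝ) * Op e1 f x + (2 / 3) * ((1 / 2) * Op e2 f x + (1 / 2) * Op e3 f x) :=
    rfl
  rw [h, Op_apply, Op_apply, Op_apply, Fin.sum_univ_six]
  obtain ⟨a, b, c⟩ := x
  simp only [vec, e1, e2, e3, Matrix.cons_val_zero, Matrix.cons_val_one, Matrix.cons_val,
    Prod.mk_add_mk, Prod.mk_sub_mk, add_zero, sub_zero, ← sub_eq_add_neg]
  ring

lemma sum_apply_end {ι : Type*} (s : Finset ι) (F : ι → Module.End ℝ (Site → ℝ)) (f : Site → ℝ)
    (x : Site) : (∑ i ∈ s, F i) f x = ∑ i ∈ s, F i f x := by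
  rw [LinearMap.sum_apply, Finset.sum_apply]

lemma pow_expand (A B : Module.End ℝ (Site → ℝ)) (h : Commute A B) (a b : ℝ) (n : ℕ)
    (f : Site → ℝ) (x : Site) :
    ((a • A + b • B) ^ n) f x =
      ∑ i ∈ Finset.range (n + 1), (n.choose i * a ^ i * b ^ (n - i)) *
        (A ^ i) ((B ^ (n - i)) f) x := by
  rw [Commute.add_pow (Commute.smul_left (Commute.smul_right h _) _), sum_apply_end]
  refine Finset.sum_congr rfl fun i _ => ?_
  rw [smul_pow, smul_pow, smul_mul_smul_comm, ← nsmul_eq_mul', LinearMap.smul_apply,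
    LinearMap.smul_apply, Module.End.mul_apply]
  simp only [Pi.smul_apply, smul_eq_mul, nsmul_eq_mul]
  ring

end Pool.Agent.Worm

end HeatKernelSec

section HeatKernel2Sec
set_option linter.deprecated false

open MeasureTheory Measure ProbabilityTheory
open scoped ENNReal

namespace Pool.Agent.Worm

/-! ### Binomial identities -/

lemma choose_id2 (s j : ℕ) (hj : j ≤ s) :
    ((s.choose j : ℝ)) * (1 / ((j : ℝ) + 1) * (1 / (((s - j : ℕ) : ℝ) + 1))) =
      ((s + 2).choose (j + 1) : ℝ) / (((s : ℝ) + 1) * ((s : ℝ) + 2)) := by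
  have h1 : ((s.choose j : ℕ) : ℝ) = (s.factorial : ℝ) / (j.factorial * (s - j).factorial) := by
    exact Nat.cast_choose ℝ hj
  have h2 : (((s + 2).choose (j + 1) : ℕ) : ℝ) =
      ((s + 2).factorial : ℝ) / ((j + 1).factorial * (s + 2 - (j + 1)).factorial) := by
    exact Nat.cast_choose ℝ (by omega)
  have h3 : s + 2 - (j + 1) = (s - j) + 1 := by omega
  rw [h1, h2, h3, Nat.factorial_succ, Nat.factorial_succ, Nat.factorial_succ, Nat.factorial_succ]
  have a1 : (s.factorial : ℝ) ≠ 0 := by positivity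
  have a2 : (j.factorial : ℝ) ≠ 0 := by positivity
  have a3 : ((s - j).factorial : ℝ) ≠ 0 := by positivity
  have a4 : (s : ℝ) + 1 ≠ 0 := by positivity
  have a5 : (s : ℝ) + 2 ≠ 0 := by positivity
  have a6 : (j : ℝ) + 1 ≠ 0 := by positivity
  have a7 : ((s - j : ℕ) : ℝ) + 1 ≠ 0 := by positivity
  push_cast
  field_simp
  ring

lemma choose_id3 (t i : ℕ) (hi : i ≤ t) :
    ((t.choose i : ℝ)) * (1 / ((i : ℝ) + 1) *
      (1 / ((((t - i : ℕ) : ℝ) + 1) * (((t - i : ℕ) : ℝ) + 2)))) =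
      ((t + 3).choose (i + 1) : ℝ) / (((t : ℝ) + 1) * ((t : ℝ) + 2) * ((t : ℝ) + 3)) := by
  have h1 : ((t.choose i : ℕ) : ℝ) = (t.factorial : ℝ) / (i.factorial * (t - i).factorial) := by
    exact Nat.cast_choose ℝ hi
  have h2 : (((t + 3).choose (i + 1) : ℕ) : ℝ) =
      ((t + 3).factorial : ℝ) / ((i + 1).factorial * (t + 3 - (i + 1)).factorial) := by
    exact Nat.cast_choose ℝ (by omega)
  have h3 : t + 3 - (i + 1) = (t - i) + 2 := by omega
  rw [h1, h2, h3, Nat.factorial_succ (t + 2), Nat.factorial_succ (t + 1), Nat.factorial_succ t,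
    Nat.factorial_succ i, Nat.factorial_succ (t - i + 1), Nat.factorial_succ (t - i)]
  have a1 : (t.factorial : ℝ) ≠ 0 := by positivity
  have a2 : (i.factorial : ℝ) ≠ 0 := by positivity
  have a3 : ((t - i).factorial : ℝ) ≠ 0 := by positivity
  have a4 : (t : ℝ) + 1 ≠ 0 := by positivity
  have a5 : (t : ℝ) + 2 ≠ 0 := by positivity
  have a8 : (t : ℝ) + 3 ≠ 0 := by positivity
  have a6 : (i : ℝ) + 1 ≠ 0 := by positivity
  have a7 : ((t - i : ℕ) : ℝ) + 1 ≠ 0 := by positivity
  have a9 : ((t - i : ℕ) : ℝ) + 2 ≠ 0 := by positivity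
  push_cast
  field_simp
  ring

/-! ### two-dimensional kernel -/

/-- two dimensional kernel -/
noncomputable def r2 (s : ℕ) (y : ℤ × ℤ) : ℝ :=
  ∑ j ∈ Finset.range (s + 1), ((s.choose j : ℝ) * (1 / 2) ^ j * (1 / 2) ^ (s - j)) *
    (q j y.1 * q (s - j) y.2)

lemma sum_weights (n : ℕ) (a b : ℝ) (hab : a + b = 1) :
    ∑ j ∈ Finset.range (n + 1), ((n.choose j : ℝ) * a ^ j * b ^ (n - j)) = 1 := by
  have h := add_pow a b n
  rw [hab, one_pow] at h
  rw [h]
  refine Finset.sum_congr rfl fun j _ => ?_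
  ring

/-- Jensen for squares with weights. -/
lemma sq_sum_le {ι : Type*} (S : Finset ι) (w a : ι → ℝ) (hw : ∀ i ∈ S, 0 ≤ w i)
    (h1 : ∑ i ∈ S, w i = 1) : (∑ i ∈ S, w i * a i) ^ 2 ≤ ∑ i ∈ S, w i * (a i) ^ 2 := by
  have h := Finset.sum_sq_le_sum_mul_sum_of_sq_eq_mul S (r := fun i => w i * a i)
    (f := w) (g := fun i => w i * (a i) ^ 2) hw (fun i hi => mul_nonneg (hw i hi) (sq_nonneg _))
    (fun i _ => by ring)
  rw [h1, one_mul] at h
  exact h

lemma r2_sq_le (s : ℕ) (y : ℤ × ℤ) : (r2 s y) ^ 2 ≤ 4 / (((s : ℝ) + 1) * ((s : ℝ) + 2)) := by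
  unfold r2
  refine (sq_sum_le _ _ _ (fun i _ => by positivity) (sum_weights s _ _ (by norm_num))).trans ?_
  calc ∑ j ∈ Finset.range (s + 1), ((s.choose j : ℝ) * (1 / 2) ^ j * (1 / 2) ^ (s - j)) *
        (q j y.1 * q (s - j) y.2) ^ 2
      ≤ ∑ j ∈ Finset.range (s + 1), ((s.choose j : ℝ) * (1 / 2) ^ j * (1 / 2) ^ (s - j)) *
        (1 / ((j : ℝ) + 1) * (1 / (((s - j : ℕ) : ℝ) + 1))) := by
        refine Finset.sum_le_sum fun j _ => ?_
        refine mul_le_mul_of_nonneg_left ?_ (by positivity)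
        rw [mul_pow]
        exact mul_le_mul (q_sq_le _ _) (q_sq_le _ _) (sq_nonneg _) (by positivity)
    _ = ∑ j ∈ Finset.range (s + 1), (1 / 2) ^ s *
        (((s + 2).choose (j + 1) : ℝ) / (((s : ℝ) + 1) * ((s : ℝ) + 2))) := by
        refine Finset.sum_congr rfl fun j hj => ?_
        have hj' : j ≤ s := by have := Finset.mem_range.mp hj; omega
        rw [← choose_id2 s j hj']
        have h2 : ((1 : ℝ) / 2) ^ s = (1 / 2) ^ j * (1 / 2) ^ (s - j) := by
          rw [← pow_add]; congr 1; omega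
        rw [h2]; ring
    _ = (1 / 2) ^ s / (((s : ℝ) + 1) * ((s : ℝ) + 2)) *
        ∑ j ∈ Finset.range (s + 1), ((s + 2).choose (j + 1) : ℝ) := by
        rw [Finset.mul_sum]
        refine Finset.sum_congr rfl fun j _ => ?_
        ring
    _ ≤ (1 / 2) ^ s / (((s : ℝ) + 1) * ((s : ℝ) + 2)) * 2 ^ (s + 2) := by
        refine mul_le_mul_of_nonneg_left ?_ (by positivity)
        have h3 : ∑ j ∈ Finset.range (s + 1), ((s + 2).choose (j + 1)) ≤ 2 ^ (s + 2) := by
          rw [← Nat.sum_range_choose (s + 2)]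
          have h4 : ∑ j ∈ Finset.range (s + 1), ((s + 2).choose (j + 1)) ≤
              ∑ j ∈ Finset.range (s + 2), ((s + 2).choose (j + 1)) := by
            apply Finset.sum_le_sum_of_subset
            exact Finset.range_mono (by omega)
          refine h4.trans ?_
          rw [Finset.sum_range_succ' _ (s + 2)]
          exact Nat.le_add_right _ _
        exact_mod_cast h3
    _ = 4 / (((s : ℝ) + 1) * ((s : ℝ) + 2)) := by
        rw [pow_add, div_mul_eq_mul_div, ← mul_assoc, ← mul_pow]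
        norm_num

lemma op23_pow_apply (i s : ℕ) (x : Site) :
    ((Op e1) ^ i) ((Op23 ^ s) dl) x = q i x.1 * r2 s x.2 := by
  have h1 : (Op23 ^ s) dl = ∑ j ∈ Finset.range (s + 1),
      ((s.choose j : ℝ) * (1 / 2) ^ j * (1 / 2) ^ (s - j)) • ((Op e2) ^ j) (((Op e3) ^ (s - j)) dl) := by
    funext y
    unfold Op23
    rw [pow_expand _ _ (Op_commute _ _), Finset.sum_apply]
    rfl
  rw [h1, _root_.map_sum, Finset.sum_apply]
  unfold r2
  rw [Finset.mul_sum]
  refine Finset.sum_congr rfl fun j _ => ?_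
  rw [map_smul, Pi.smul_apply, op_pow1, smul_eq_mul]
  ring

lemma commute_e1_op23 : Commute (Op e1) Op23 := by
  unfold Op23
  exact (Commute.smul_right (Op_commute _ _) _).add_right (Commute.smul_right (Op_commute _ _) _)

/-- three dimensional kernel -/
lemma av_pow_apply (t : ℕ) (x : Site) : (Av ^ t) dl x =
    ∑ i ∈ Finset.range (t + 1), ((t.choose i : ℝ) * (1 / 3) ^ i * (2 / 3) ^ (t - i)) *
      (q i x.1 * r2 (t - i) x.2) := by
  unfold Av
  rw [pow_expand _ _ commute_e1_op23]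
  refine Finset.sum_congr rfl fun i _ => ?_
  rw [op23_pow_apply]

lemma av_pow_sq_le (t : ℕ) (x : Site) :
    ((Av ^ t) dl x) ^ 2 ≤ 27 / (((t : ℝ) + 1) * ((t : ℝ) + 2) * ((t : ℝ) + 3)) := by
  rw [av_pow_apply]
  refine (sq_sum_le _ _ _ (fun i _ => by positivity) (sum_weights t _ _ (by norm_num))).trans ?_
  calc ∑ i ∈ Finset.range (t + 1), ((t.choose i : ℝ) * (1 / 3) ^ i * (2 / 3) ^ (t - i)) *
        (q i x.1 * r2 (t - i) x.2) ^ 2
      ≤ ∑ i ∈ Finset.range (t + 1), ((t.choose i : ℝ) * (1 / 3) ^ i * (2 / 3) ^ (t - i)) *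
        (1 / ((i : ℝ) + 1) * (4 / ((((t - i : ℕ) : ℝ) + 1) * (((t - i : ℕ) : ℝ) + 2)))) := by
        refine Finset.sum_le_sum fun i _ => ?_
        refine mul_le_mul_of_nonneg_left ?_ (by positivity)
        rw [mul_pow]
        exact mul_le_mul (q_sq_le _ _) (r2_sq_le _ _) (sq_nonneg _) (by positivity)
    _ = ∑ i ∈ Finset.range (t + 1), 27 / (((t : ℝ) + 1) * ((t : ℝ) + 2) * ((t : ℝ) + 3)) *
        (((t + 3).choose (i + 1) : ℝ) * (1 / 3) ^ (i + 1) * (2 / 3) ^ (t + 3 - (i + 1))) := by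
        refine Finset.sum_congr rfl fun i hi => ?_
        have hi' : i ≤ t := by have := Finset.mem_range.mp hi; omega
        have h0 := choose_id3 t i hi'
        have h2 : t + 3 - (i + 1) = (t - i) + 2 := by omega
        calc ((t.choose i : ℝ) * (1 / 3) ^ i * (2 / 3) ^ (t - i)) *
              (1 / ((i : ℝ) + 1) * (4 / ((((t - i : ℕ) : ℝ) + 1) * (((t - i : ℕ) : ℝ) + 2))))
            = (((t.choose i : ℝ)) * (1 / ((i : ℝ) + 1) *
              (1 / ((((t - i : ℕ) : ℝ) + 1) * (((t - i : ℕ) : ℝ) + 2))))) *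
              (4 * (1 / 3) ^ i * (2 / 3) ^ (t - i)) := by ring
          _ = (((t + 3).choose (i + 1) : ℝ) / (((t : ℝ) + 1) * ((t : ℝ) + 2) * ((t : ℝ) + 3))) *
              (4 * (1 / 3) ^ i * (2 / 3) ^ (t - i)) := by rw [h0]
          _ = _ := by
              rw [h2, pow_succ ((1 : ℝ) / 3) i, pow_add ((2 : ℝ) / 3) (t - i) 2]
              ring
    _ = 27 / (((t : ℝ) + 1) * ((t : ℝ) + 2) * ((t : ℝ) + 3)) *
        ∑ i ∈ Finset.range (t + 1),
        (((t + 3).choose (i + 1) : ℝ) * (1 / 3) ^ (i + 1) * (2 / 3) ^ (t + 3 - (i + 1))) := by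
        rw [Finset.mul_sum]
    _ ≤ 27 / (((t : ℝ) + 1) * ((t : ℝ) + 2) * ((t : ℝ) + 3)) * 1 := by
        refine mul_le_mul_of_nonneg_left ?_ (by positivity)
        have h3 := sum_weights (t + 3) (1 / 3) (2 / 3) (by norm_num)
        rw [Finset.sum_range_succ' _ (t + 3)] at h3
        have h4 : ∑ i ∈ Finset.range (t + 1),
            (((t + 3).choose (i + 1) : ℝ) * (1 / 3) ^ (i + 1) * (2 / 3) ^ (t + 3 - (i + 1))) ≤
            ∑ i ∈ Finset.range (t + 3),
            (((t + 3).choose (i + 1) : ℝ) * (1 / 3) ^ (i + 1) * (2 / 3) ^ (t + 3 - (i + 1))) := by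
          apply Finset.sum_le_sum_of_subset_of_nonneg
          · exact Finset.range_mono (by omega)
          · intro i _ _; positivity
        refine h4.trans (le_trans (le_add_of_nonneg_right ?_) h3.le)
        positivity
    _ = _ := mul_one _

/-! ### Identification with the walk -/

lemma av_pow_nonneg (t : ℕ) (x : Site) : 0 ≤ (Av ^ t) dl x := by
  induction t generalizing x with
  | zero => simp only [pow_zero, Module.End.one_apply, dl]; split_ifs <;> norm_num
  | succ t ih =>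
    rw [pow_succ', Module.End.mul_apply]
    have h := Av_apply ((Av ^ t) dl) x
    have h2 : 0 ≤ ∑ e, (Av ^ t) dl (x + vec e) := Finset.sum_nonneg fun e _ => ih _
    linarith

lemma walk_law (t : ℕ) (x : Site) :
    ∫⁻ σ, ENNReal.ofReal (dl (x + walk σ t)) ∂stepLaw = ENNReal.ofReal ((Av ^ t) dl x) := by
  induction t generalizing x with
  | zero => simp [walk_zero]
  | succ t ih =>
    have h := lintegral_walk_succ (fun y => ENNReal.ofReal (dl (x + y))) t
    have h2 : ∫⁻ σ, ∑ e, ENNReal.ofReal (dl (x + (walk σ t + vec e))) ∂stepLaw =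
        ∑ e, ENNReal.ofReal ((Av ^ t) dl (x + vec e)) := by
      rw [lintegral_finset_sum]
      · refine Finset.sum_congr rfl fun e _ => ?_
        rw [← ih]
        refine lintegral_congr fun σ => ?_
        congr 2
        abel
      · intro e _
        exact (measurable_of_countable
          (fun y : Site => ENNReal.ofReal (dl (x + (y + vec e))))).comp (measurable_walk t)
    rw [h2, ← ENNReal.ofReal_sum_of_nonneg (fun e _ => av_pow_nonneg t _), ← Av_apply,
      ENNReal.ofReal_mul (by norm_num)] at h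
    have h6 : ENNReal.ofReal 6 = 6 := by norm_num
    rw [h6] at h
    have h4 := (ENNReal.mul_right_inj (by norm_num) (by norm_num)).mp h
    rw [h4, pow_succ', Module.End.mul_apply]

/-- Heat kernel bound function. -/
noncomputable def H (t : ℕ) : ℝ := 6 / (((t : ℝ) + 1) * Real.sqrt ((t : ℝ) + 1))

lemma H_pos (t : ℕ) : 0 < H t := by unfold H; positivity

lemma H_anti {s t : ℕ} (h : s ≤ t) : H t ≤ H s := by
  unfold H
  have h1 : (s : ℝ) ≤ t := by exact_mod_cast h
  gcongr

lemma av_pow_le (t : ℕ) (x : Site) : (Av ^ t) dl x ≤ H t := by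
  have h1 := av_pow_sq_le t x
  have h2 : 27 / (((t : ℝ) + 1) * ((t : ℝ) + 2) * ((t : ℝ) + 3)) ≤ (H t) ^ 2 := by
    unfold H
    rw [div_pow, mul_pow, Real.sq_sqrt (by positivity)]
    have h3 : ((t : ℝ) + 1) ^ 2 * ((t : ℝ) + 1) ≤ ((t : ℝ) + 1) * ((t : ℝ) + 2) * ((t : ℝ) + 3) := by
      have h4 : (0 : ℝ) ≤ t := Nat.cast_nonneg t
      nlinarith [mul_nonneg h4 h4]
    calc 27 / (((t : ℝ) + 1) * ((t : ℝ) + 2) * ((t : ℝ) + 3))
        ≤ 27 / (((t : ℝ) + 1) ^ 2 * ((t : ℝ) + 1)) := by gcongr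
      _ ≤ 6 ^ 2 / (((t : ℝ) + 1) ^ 2 * ((t : ℝ) + 1)) := by gcongr; norm_num
  exact le_of_abs_le (abs_le_of_sq_le_sq (h1.trans h2) (H_pos t).le)

lemma walk_prob_le (t : ℕ) (x : Site) :
    stepLaw {σ | walk σ t = x} ≤ ENNReal.ofReal (H t) := by
  have h1 := walk_law t (-x)
  have h2 : ∀ σ : ℕ → Fin 6, ENNReal.ofReal (dl (-x + walk σ t)) =
      ({σ | walk σ t = x} : Set (ℕ → Fin 6)).indicator 1 σ := by
    intro σ
    by_cases h : walk σ t = x
    · rw [Set.indicator_of_mem (by exact h)]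
      simp [dl, h]
    · rw [Set.indicator_of_notMem (by exact h)]
      have : -x + walk σ t ≠ 0 := by
        intro h'
        apply h
        rw [neg_add_eq_zero] at h'
        exact h'.symm
      simp [dl, this]
  simp_rw [h2] at h1
  rw [lintegral_indicator_one (measurableSet_eq_fun (measurable_walk t) measurable_const)] at h1
  rw [h1]
  exact ENNReal.ofReal_le_ofReal (av_pow_le t _)

end Pool.Agent.Worm

end HeatKernel2Sec

section SumHSec
set_option linter.deprecated false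

open MeasureTheory Measure ProbabilityTheory
open scoped ENNReal

namespace Pool.Agent.Worm

/-- distance of two natural numbers -/
def dd (s t : ℕ) : ℕ := (s - t) + (t - s)

lemma sum_dd_le (f : ℕ → ℝ) (hf : ∀ a, 0 ≤ f a) (T s : ℕ) (hs : s < T) :
    ∑ t ∈ Finset.range T, f (dd s t) ≤ 2 * ∑ a ∈ Finset.range T, f a := by
  have h1 : ∑ t ∈ Finset.range T, f (dd s t) =
      ∑ t ∈ Finset.range (s + 1), f (dd s t) + ∑ t ∈ Finset.Ico (s + 1) T, f (dd s t) := by
    rw [Finset.sum_range_add_sum_Ico _ (by omega)]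
  have h2 : ∑ t ∈ Finset.range (s + 1), f (dd s t) = ∑ a ∈ Finset.range (s + 1), f a := by
    rw [← Finset.sum_range_reflect f (s + 1)]
    refine Finset.sum_congr rfl fun t ht => ?_
    have ht' := Finset.mem_range.mp ht
    congr 1
    unfold dd
    omega
  have h3 : ∑ t ∈ Finset.Ico (s + 1) T, f (dd s t) =
      ∑ i ∈ Finset.range (T - (s + 1)), f (i + 1) := by
    rw [Finset.sum_Ico_eq_sum_range]
    refine Finset.sum_congr rfl fun t _ => ?_
    congr 1
    unfold dd
    omega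
  have h4 : ∑ i ∈ Finset.range (T - (s + 1)), f (i + 1) ≤ ∑ a ∈ Finset.range T, f a := by
    have h5 : ∑ i ∈ Finset.range (T - (s + 1)), f (i + 1) ≤
        ∑ i ∈ Finset.range (T - (s + 1) + 1), f i := by
      rw [Finset.sum_range_succ']
      exact le_add_of_nonneg_right (hf 0)
    refine h5.trans ?_
    exact Finset.sum_le_sum_of_subset_of_nonneg (Finset.range_mono (by omega))
      (fun i _ _ => hf i)
  have h6 : ∑ a ∈ Finset.range (s + 1), f a ≤ ∑ a ∈ Finset.range T, f a :=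
    Finset.sum_le_sum_of_subset_of_nonneg (Finset.range_mono (by omega)) (fun i _ _ => hf i)
  rw [h1, h2, h3, two_mul]
  exact add_le_add h6 h4

lemma sqrt_step (n : ℕ) (hn : 1 ≤ n) :
    H n ≤ 12 / Real.sqrt n - 12 / Real.sqrt ((n : ℝ) + 1) := by
  unfold H
  have hn0 : (0 : ℝ) < n := by exact_mod_cast hn
  set x := Real.sqrt n with hx
  set y := Real.sqrt ((n : ℝ) + 1) with hy
  have hx0 : 0 < x := Real.sqrt_pos.mpr hn0
  have hy0 : 0 < y := Real.sqrt_pos.mpr (by positivity)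
  have hxy : x ≤ y := Real.sqrt_le_sqrt (by linarith)
  have hx2 : x ^ 2 = n := Real.sq_sqrt hn0.le
  have hy2 : y ^ 2 = n + 1 := Real.sq_sqrt (by positivity)
  have hdiff : (y - x) * (y + x) = 1 := by nlinarith
  rw [← hy2, div_sub_div _ _ hx0.ne' hy0.ne', div_le_div_iff₀ (by positivity) (by positivity)]
  -- 6 * (x*y) ≤ (12*y - x*12) * (y^2*y)
  have h1 : (y - x) * (2 * y) ≥ 1 := by nlinarith
  have h2 : 0 ≤ y - x := by linarith
  have h3 : x * y ≤ y ^ 2 := by nlinarith
  nlinarith [mul_nonneg h2 (pow_pos hy0 3).le, mul_nonneg (by linarith : 0 ≤ (y - x) * (2 * y) - 1) (pow_pos hy0 2).le]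

lemma sum_H_max (a n : ℕ) :
    ∑ b ∈ Finset.range n, H (max a b) ≤ 18 / Real.sqrt ((a : ℝ) + 1) := by
  have hkey : ∀ k : ℕ, ∑ b ∈ Finset.range (a + 1 + k), H (max a b) ≤
      18 / Real.sqrt ((a : ℝ) + 1) - 12 / Real.sqrt (((a + 1 + k : ℕ) : ℝ)) := by
    intro k
    induction k with
    | zero =>
      have h1 : ∑ b ∈ Finset.range (a + 1 + 0), H (max a b) = (a + 1 : ℕ) * H a := by
        rw [add_zero, Finset.sum_congr rfl (g := fun _ => H a)]
        · rw [Finset.sum_const, Finset.card_range, nsmul_eq_mul]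
        · intro b hb
          rw [max_eq_left (by have := Finset.mem_range.mp hb; omega)]
      rw [h1]
      unfold H
      push_cast
      have h2 : Real.sqrt ((a : ℝ) + 1) ≠ 0 := (Real.sqrt_pos.mpr (by positivity)).ne'
      have h3 : (a : ℝ) + 1 ≠ 0 := by positivity
      rw [add_zero]
      apply le_of_eq
      field_simp
      ring
    | succ k ih =>
      rw [← add_assoc, Finset.sum_range_succ, max_eq_right (by omega)]
      have h1 := sqrt_step (a + 1 + k) (by omega)
      have h2 : (((a + 1 + k + 1 : ℕ)) : ℝ) = ((a + 1 + k : ℕ) : ℝ) + 1 := by push_cast; ring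
      rw [h2]
      linarith
  have hle : ∑ b ∈ Finset.range n, H (max a b) ≤ ∑ b ∈ Finset.range (a + 1 + n), H (max a b) :=
    Finset.sum_le_sum_of_subset_of_nonneg (Finset.range_mono (by omega))
      (fun i _ _ => (H_pos _).le)
  refine hle.trans ((hkey n).trans ?_)
  have : 0 ≤ 12 / Real.sqrt (((a + 1 + n : ℕ) : ℝ)) := by positivity
  linarith

lemma sum_inv_sqrt (n : ℕ) : ∑ a ∈ Finset.range n, 1 / Real.sqrt ((a : ℝ) + 1) ≤
    2 * Real.sqrt n := by
  induction n with
  | zero => simp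
  | succ n ih =>
    rw [Finset.sum_range_succ]
    push_cast
    set x := Real.sqrt n with hx
    set y := Real.sqrt ((n : ℝ) + 1) with hy
    have hn0 : (0 : ℝ) ≤ n := Nat.cast_nonneg n
    have hx0 : 0 ≤ x := Real.sqrt_nonneg _
    have hy0 : 0 < y := Real.sqrt_pos.mpr (by positivity)
    have hxy : x ≤ y := Real.sqrt_le_sqrt (by linarith)
    have hx2 : x ^ 2 = n := Real.sq_sqrt hn0
    have hy2 : y ^ 2 = n + 1 := Real.sq_sqrt (by positivity)
    have h1 : 1 / y ≤ 2 * (y - x) := by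
      rw [div_le_iff₀ hy0]
      nlinarith
    linarith

lemma sum_H_four (T T' : ℕ) :
    ∑ s ∈ Finset.range T, ∑ s' ∈ Finset.range T, ∑ u ∈ Finset.range T', ∑ u' ∈ Finset.range T',
      H (max (dd s s') (dd u u')) ≤ 144 * T * T' * Real.sqrt T := by
  have h1 : ∀ s s' : ℕ, ∑ u ∈ Finset.range T', ∑ u' ∈ Finset.range T',
      H (max (dd s s') (dd u u')) ≤ 36 * T' * (1 / Real.sqrt ((dd s s' : ℝ) + 1)) := by
    intro s s'
    have h2 : ∀ u ∈ Finset.range T', ∑ u' ∈ Finset.range T', H (max (dd s s') (dd u u')) ≤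
        2 * (18 / Real.sqrt ((dd s s' : ℝ) + 1)) := by
      intro u hu
      refine (sum_dd_le (fun b => H (max (dd s s') b)) (fun a => (H_pos _).le) T' u
        (Finset.mem_range.mp hu)).trans ?_
      have := sum_H_max (dd s s') T'
      linarith
    refine (Finset.sum_le_sum h2).trans ?_
    rw [Finset.sum_const, Finset.card_range, nsmul_eq_mul]
    apply le_of_eq
    ring
  have h3 : ∀ s ∈ Finset.range T, ∑ s' ∈ Finset.range T, ∑ u ∈ Finset.range T',
      ∑ u' ∈ Finset.range T', H (max (dd s s') (dd u u')) ≤ 144 * T' * Real.sqrt T := by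
    intro s hs
    calc ∑ s' ∈ Finset.range T, ∑ u ∈ Finset.range T',
      ∑ u' ∈ Finset.range T', H (max (dd s s') (dd u u'))
        ≤ ∑ s' ∈ Finset.range T, 36 * T' * (1 / Real.sqrt ((dd s s' : ℝ) + 1)) :=
          Finset.sum_le_sum fun s' _ => h1 s s'
      _ = 36 * T' * ∑ s' ∈ Finset.range T, (1 / Real.sqrt ((dd s s' : ℝ) + 1)) := by
          rw [Finset.mul_sum]
      _ ≤ 36 * T' * (2 * (2 * Real.sqrt T)) := by
          refine mul_le_mul_of_nonneg_left ?_ (by positivity)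
          refine (sum_dd_le (fun a => 1 / Real.sqrt ((a : ℝ) + 1)) (fun a => by positivity) T s
            (Finset.mem_range.mp hs)).trans ?_
          have := sum_inv_sqrt T
          linarith
      _ = _ := by ring
  refine (Finset.sum_le_sum h3).trans ?_
  rw [Finset.sum_const, Finset.card_range, nsmul_eq_mul]
  apply le_of_eq
  ring

/-! ### Increments -/

lemma incr_le_aux (a k : ℕ) (w : Site) :
    stepLaw {σ | walk σ (a + k) - walk σ a = w} ≤ ENNReal.ofReal (H k) := by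
  have hms : MeasurableSet {σ : ℕ → Fin 6 | walk σ (a + k) - walk σ a = w} :=
    measurableSet_eq_fun ((measurable_walk _).sub (measurable_walk _)) measurable_const
  rw [← lintegral_indicator_one hms, lintegral_cat a _ (measurable_one.indicator hms)]
  have h1 : ∀ σ τ : ℕ → Fin 6, ({σ : ℕ → Fin 6 | walk σ (a + k) - walk σ a = w}).indicator
      (1 : (ℕ → Fin 6) → ℝ≥0∞) (cat a (σ, τ)) = ({τ | walk τ k = w} : Set (ℕ → Fin 6)).indicator 1 τ := by
    intro σ τ
    have h2 : walk (cat a (σ, τ)) (a + k) - walk (cat a (σ, τ)) a = walk τ k := by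
      rw [walk_cat_add, walk_cat_le a a le_rfl]
      simp
    by_cases h : walk τ k = w
    · rw [Set.indicator_of_mem (by simp only [Set.mem_ofPred_eq, h2]; exact h),
        Set.indicator_of_mem (by exact h)]
      rfl
    · rw [Set.indicator_of_notMem (by simp only [Set.mem_ofPred_eq, h2]; exact h),
        Set.indicator_of_notMem (by exact h)]
  simp_rw [h1]
  rw [lintegral_const, measure_univ, mul_one,
    lintegral_indicator_one (measurableSet_eq_fun (measurable_walk _) measurable_const)]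
  exact walk_prob_le k w

lemma incr_le (s s' : ℕ) (w : Site) :
    stepLaw {σ | walk σ s - walk σ s' = w} ≤ ENNReal.ofReal (H (dd s s')) := by
  rcases le_total s' s with h | h
  · obtain ⟨k, rfl⟩ := Nat.exists_eq_add_of_le h
    have h1 : dd (s' + k) s' = k := by unfold dd; omega
    rw [h1]
    exact incr_le_aux s' k w
  · obtain ⟨k, rfl⟩ := Nat.exists_eq_add_of_le h
    have h1 : dd s (s + k) = k := by unfold dd; omega
    rw [h1]
    have h2 : {σ : ℕ → Fin 6 | walk σ s - walk σ (s + k) = w} =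
        {σ | walk σ (s + k) - walk σ s = -w} := by
      ext σ
      simp only [Set.mem_ofPred_eq]
      rw [← neg_sub (walk σ s), neg_inj]
    rw [h2]
    exact incr_le_aux s k (-w)

/-- two independent walks -/
lemma pair_le (z : Site) (s s' u u' : ℕ) :
    ∫⁻ σ, stepLaw {τ | walk σ s - walk σ s' - z = walk τ u - walk τ u'} ∂stepLaw ≤
      ENNReal.ofReal (H (max (dd s s') (dd u u'))) := by
  have hH : ENNReal.ofReal (H (max (dd s s') (dd u u'))) =
      min (ENNReal.ofReal (H (dd s s'))) (ENNReal.ofReal (H (dd u u'))) := by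
    rcases le_total (dd s s') (dd u u') with h | h
    · rw [max_eq_right h, min_eq_right (ENNReal.ofReal_le_ofReal (H_anti h))]
    · rw [max_eq_left h, min_eq_left (ENNReal.ofReal_le_ofReal (H_anti h))]
  rw [hH, le_min_iff]
  have hm : MeasurableSet {p : (ℕ → Fin 6) × (ℕ → Fin 6) |
      walk p.1 s - walk p.1 s' - z = walk p.2 u - walk p.2 u'} := by
    refine measurableSet_eq_fun ?_ ?_
    · exact (((measurable_walk _).comp measurable_fst).sub
        ((measurable_walk _).comp measurable_fst)).sub measurable_const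
    · exact ((measurable_walk _).comp measurable_snd).sub ((measurable_walk _).comp measurable_snd)
  have h1 : ∫⁻ σ, stepLaw {τ | walk σ s - walk σ s' - z = walk τ u - walk τ u'} ∂stepLaw =
      (stepLaw.prod stepLaw) {p : (ℕ → Fin 6) × (ℕ → Fin 6) |
      walk p.1 s - walk p.1 s' - z = walk p.2 u - walk p.2 u'} := by
    rw [Measure.prod_apply hm]
    rfl
  constructor
  · rw [h1, Measure.prod_apply_symm hm]
    calc ∫⁻ τ, stepLaw ((fun σ => (σ, τ)) ⁻¹' {p : (ℕ → Fin 6) × (ℕ → Fin 6) |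
          walk p.1 s - walk p.1 s' - z = walk p.2 u - walk p.2 u'}) ∂stepLaw
        ≤ ∫⁻ τ : ℕ → Fin 6, ENNReal.ofReal (H (dd s s')) ∂stepLaw := by
          refine lintegral_mono fun τ => ?_
          have h2 : ((fun σ => (σ, τ)) ⁻¹' {p : (ℕ → Fin 6) × (ℕ → Fin 6) |
              walk p.1 s - walk p.1 s' - z = walk p.2 u - walk p.2 u'}) =
              {σ | walk σ s - walk σ s' = walk τ u - walk τ u' + z} := by
            ext σ
            simp only [Set.mem_preimage, Set.mem_ofPred_eq]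
            exact sub_eq_iff_eq_add
          rw [h2]
          exact incr_le s s' _
      _ = _ := by simp
  · calc ∫⁻ σ, stepLaw {τ | walk σ s - walk σ s' - z = walk τ u - walk τ u'} ∂stepLaw
        ≤ ∫⁻ σ : ℕ → Fin 6, ENNReal.ofReal (H (dd u u')) ∂stepLaw := by
          refine lintegral_mono fun σ => ?_
          have h2 : {τ | walk σ s - walk σ s' - z = walk τ u - walk τ u'} =
              {τ | walk τ u - walk τ u' = walk σ s - walk σ s' - z} := by
            ext τ
            simp only [Set.mem_ofPred_eq]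
            exact eq_comm
          rw [h2]
          exact incr_le u u' _
      _ = _ := by simp

end Pool.Agent.Worm

end SumHSec

section SecondMomentSec
set_option linter.deprecated false

open MeasureTheory Measure ProbabilityTheory
open scoped ENNReal

namespace Pool.Agent.Worm

lemma two_mul_le_one_add_sq (x : ℝ≥0∞) : 2 * x ≤ 1 + x ^ 2 := by
  rcases eq_or_ne x ∞ with h | h
  · subst h; simp
  · lift x to NNReal using h
    have : 2 * x ≤ 1 + x ^ 2 := by
      rw [← NNReal.coe_le_coe]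
      push_cast
      nlinarith [sq_nonneg ((x : ℝ) - 1)]
    exact_mod_cast this

/-- Deterministic second moment inequality. -/
lemma comb {ι κ : Type*} [DecidableEq κ] (P : Finset ι) (Λ : Finset κ) (f : ι → κ) (a : ℝ≥0∞) :
    2 * a * ∑ p ∈ P, (if f p ∈ Λ then (1 : ℝ≥0∞) else 0) ≤
      ∑ y ∈ Λ, (if (∃ p ∈ P, f p = y) then (1 : ℝ≥0∞) else 0) +
        a ^ 2 * ∑ p ∈ P, ∑ p' ∈ P, (if f p = f p' then (1 : ℝ≥0∞) else 0) := by
  classical
  set N : κ → ℝ≥0∞ := fun y => ∑ p ∈ P, (if f p = y then (1 : ℝ≥0∞) else 0) with hN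
  have h1 : ∑ p ∈ P, (if f p ∈ Λ then (1 : ℝ≥0∞) else 0) = ∑ y ∈ Λ, N y := by
    rw [hN, Finset.sum_comm]
    refine Finset.sum_congr rfl fun p _ => ?_
    rw [Finset.sum_ite_eq]
  have h2 : ∑ y ∈ Λ, (N y) ^ 2 ≤ ∑ p ∈ P, ∑ p' ∈ P, (if f p = f p' then (1 : ℝ≥0∞) else 0) := by
    have h3 : ∀ y, (N y) ^ 2 = ∑ p ∈ P, ∑ p' ∈ P,
        ((if f p = y then (1 : ℝ≥0∞) else 0) * (if f p' = y then (1 : ℝ≥0∞) else 0)) := by
      intro y
      rw [hN, sq, Finset.sum_mul_sum]
    simp_rw [h3]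
    rw [Finset.sum_comm]
    refine Finset.sum_le_sum fun p _ => ?_
    rw [Finset.sum_comm]
    refine Finset.sum_le_sum fun p' _ => ?_
    have h4 : ∑ y ∈ Λ, ((if f p = y then (1 : ℝ≥0∞) else 0) * (if f p' = y then (1 : ℝ≥0∞) else 0)) =
        if f p ∈ Λ then (if f p' = f p then (1 : ℝ≥0∞) else 0) else 0 := by
      simp only [ite_mul, one_mul, zero_mul]
      rw [Finset.sum_ite_eq]
    rw [h4]
    by_cases h5 : f p = f p'
    · rw [if_pos h5, if_pos h5.symm]
      split_ifs <;> simp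
    · rw [show (if f p' = f p then (1 : ℝ≥0∞) else 0) = 0 from if_neg (fun h => h5 h.symm)]
      simp
  have h6 : ∀ y, 2 * a * N y ≤ (if (∃ p ∈ P, f p = y) then (1 : ℝ≥0∞) else 0) + a ^ 2 * (N y) ^ 2 := by
    intro y
    by_cases h7 : ∃ p ∈ P, f p = y
    · rw [if_pos h7, ← mul_pow, mul_assoc]
      exact two_mul_le_one_add_sq _
    · have h8 : N y = 0 := by
        rw [hN]
        refine Finset.sum_eq_zero fun p hp => ?_
        rw [if_neg]
        intro h9
        exact h7 ⟨p, hp, h9⟩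
      rw [h8]
      simp
  calc 2 * a * ∑ p ∈ P, (if f p ∈ Λ then (1 : ℝ≥0∞) else 0) = ∑ y ∈ Λ, 2 * a * N y := by
        rw [h1, Finset.mul_sum]
    _ ≤ ∑ y ∈ Λ, ((if (∃ p ∈ P, f p = y) then (1 : ℝ≥0∞) else 0) + a ^ 2 * (N y) ^ 2) :=
        Finset.sum_le_sum fun y _ => h6 y
    _ = ∑ y ∈ Λ, (if (∃ p ∈ P, f p = y) then (1 : ℝ≥0∞) else 0) + a ^ 2 * ∑ y ∈ Λ, (N y) ^ 2 := by
        rw [Finset.sum_add_distrib, Finset.mul_sum]
    _ ≤ _ := by gcongr

/-- Second moment inequality for random families. -/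
lemma second_moment {Ω ι : Type*} [MeasurableSpace Ω] (μ : Measure Ω) (P : Finset ι)
    (Λ : Finset Site) (f : ι → Ω → Site) (hf : ∀ p, Measurable (f p)) (F : Set Ω)
    (hF : MeasurableSet F) (a : ℝ≥0∞) :
    2 * a * ∑ p ∈ P, μ (F ∩ {ω | f p ω ∈ Λ}) ≤
      ∑ y ∈ Λ, μ (F ∩ {ω | ∃ p ∈ P, f p ω = y}) +
        a ^ 2 * ∑ p ∈ P, ∑ p' ∈ P, μ {ω | f p ω = f p' ω} := by
  classical
  have m1 : ∀ p, MeasurableSet (F ∩ {ω | f p ω ∈ Λ}) := fun p =>
    hF.inter ((hf p) (Set.to_countable {y | y ∈ Λ}).measurableSet)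
  have m2 : ∀ y, MeasurableSet (F ∩ {ω | ∃ p ∈ P, f p ω = y}) := by
    intro y
    have : {ω | ∃ p ∈ P, f p ω = y} = ⋃ p ∈ P, {ω | f p ω = y} := by ext ω; simp
    rw [this]
    exact hF.inter (Finset.measurableSet_biUnion _ fun p _ =>
      measurableSet_eq_fun (hf p) measurable_const)
  have m3 : ∀ p p', MeasurableSet {ω | f p ω = f p' ω} := fun p p' =>
    measurableSet_eq_fun (hf p) (hf p')
  have e1 : ∀ p, μ (F ∩ {ω | f p ω ∈ Λ}) = ∫⁻ ω, (F ∩ {ω | f p ω ∈ Λ}).indicator 1 ω ∂μ :=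
    fun p => (lintegral_indicator_one (m1 p)).symm
  have e2 : ∀ y, μ (F ∩ {ω | ∃ p ∈ P, f p ω = y}) =
      ∫⁻ ω, (F ∩ {ω | ∃ p ∈ P, f p ω = y}).indicator 1 ω ∂μ :=
    fun y => (lintegral_indicator_one (m2 y)).symm
  have e3 : ∀ p p', μ {ω | f p ω = f p' ω} = ∫⁻ ω, ({ω | f p ω = f p' ω}).indicator 1 ω ∂μ :=
    fun p p' => (lintegral_indicator_one (m3 p p')).symm
  simp_rw [e1, e2, e3]
  have i1 : ∀ p, Measurable (fun ω => (F ∩ {ω | f p ω ∈ Λ}).indicator (1 : Ω → ℝ≥0∞) ω) :=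
    fun p => measurable_one.indicator (m1 p)
  have i2 : ∀ y, Measurable (fun ω => (F ∩ {ω | ∃ p ∈ P, f p ω = y}).indicator
      (1 : Ω → ℝ≥0∞) ω) := fun y => measurable_one.indicator (m2 y)
  have i3 : ∀ p p', Measurable (fun ω => ({ω | f p ω = f p' ω}).indicator
      (1 : Ω → ℝ≥0∞) ω) := fun p p' => measurable_one.indicator (m3 p p')
  rw [← lintegral_finset_sum _ (fun p _ => i1 p), ← lintegral_finset_sum _ (fun p _ => i2 p)]
  have e4 : ∑ p ∈ P, ∑ p' ∈ P, ∫⁻ ω, ({ω | f p ω = f p' ω}).indicator 1 ω ∂μ =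
      ∫⁻ ω, ∑ p ∈ P, ∑ p' ∈ P, ({ω | f p ω = f p' ω}).indicator 1 ω ∂μ := by
    rw [lintegral_finset_sum _ (fun p _ => Finset.measurable_fun_sum _ fun p' _ => i3 p p')]
    refine Finset.sum_congr rfl fun p _ => ?_
    rw [lintegral_finset_sum _ (fun p' _ => i3 p p')]
  rw [e4, ← lintegral_const_mul _ (Finset.measurable_fun_sum _ fun p _ => i1 p),
    ← lintegral_const_mul _ (Finset.measurable_fun_sum _ fun p _ =>
      Finset.measurable_fun_sum _ fun p' _ => i3 p p'),
    ← lintegral_add_left (Finset.measurable_fun_sum _ fun p _ => i2 p)]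
  refine lintegral_mono fun ω => ?_
  have hc := comb P Λ (fun p => f p ω) a
  by_cases hω : ω ∈ F
  · have j1 : ∀ p, (F ∩ {ω | f p ω ∈ Λ}).indicator (1 : Ω → ℝ≥0∞) ω =
        if f p ω ∈ Λ then 1 else 0 := by
      intro p; simp [Set.indicator, hω]
    have j2 : ∀ y, (F ∩ {ω | ∃ p ∈ P, f p ω = y}).indicator (1 : Ω → ℝ≥0∞) ω =
        if (∃ p ∈ P, f p ω = y) then 1 else 0 := by
      intro y; simp [Set.indicator, hω]
    have j3 : ∀ p p', ({ω | f p ω = f p' ω}).indicator (1 : Ω → ℝ≥0∞) ω =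
        if f p ω = f p' ω then 1 else 0 := by
      intro p p'; simp [Set.indicator]
    simp_rw [j1, j2, j3]
    exact hc
  · have j1 : ∀ p, (F ∩ {ω | f p ω ∈ Λ}).indicator (1 : Ω → ℝ≥0∞) ω = 0 := by
      intro p; simp [hω]
    simp_rw [j1]
    simp

end Pool.Agent.Worm

end SecondMomentSec

section MeetSec
set_option linter.deprecated false

open MeasureTheory Measure ProbabilityTheory
open scoped ENNReal

namespace Pool.Agent.Worm

/-- The annulus between radius `40 R` and radius `40 (512 R)`. -/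
noncomputable def Lam (R : ℕ) : Finset Site :=
  (box (-((40 * (512 * R) : ℕ) : ℤ), -((40 * (512 * R) : ℕ) : ℤ), -((40 * (512 * R) : ℕ) : ℤ))
    (2 * (40 * (512 * R)) + 1)).filter (fun y => 40 * R < nrm y)

lemma mem_ball_box (D : ℕ) (y : Site) :
    y ∈ box (-(D : ℤ), -(D : ℤ), -(D : ℤ)) (2 * D + 1) ↔ nrm y ≤ D := by
  rw [mem_box, nrm_le_iff]
  push_cast
  omega

lemma mem_Lam {R : ℕ} {y : Site} : y ∈ Lam R ↔ nrm y ≤ 40 * (512 * R) ∧ 40 * R < nrm y := by
  unfold Lam
  rw [Finset.mem_filter, mem_ball_box]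

lemma card_Lam_le {R : ℕ} (hR : 1 ≤ R) : (Lam R).card ≤ (41472 * R) ^ 3 := by
  unfold Lam
  refine (Finset.card_filter_le _ _).trans ?_
  rw [card_box]
  apply Nat.pow_le_pow_left
  omega

/-- The walk from `y` hits `A` while not moving too much. -/
def Ht (R : ℕ) (A : Finset Site) (y : Site) : Set (ℕ → Fin 6) :=
  {τ | mx τ ((512 * R) ^ 2) ≤ 8 * (512 * R) ∧ ∃ u < (512 * R) ^ 2, y + walk τ u ∈ A}

lemma measurableSet_mx_le (N D : ℕ) : MeasurableSet {σ : ℕ → Fin 6 | mx σ N ≤ D} :=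
  (measurable_mx N) (Set.to_countable {k | k ≤ D}).measurableSet

lemma measurableSet_Ht (R : ℕ) (A : Finset Site) (y : Site) : MeasurableSet (Ht R A y) := by
  have : Ht R A y = {τ | mx τ ((512 * R) ^ 2) ≤ 8 * (512 * R)} ∩
      ⋃ u ∈ Finset.range ((512 * R) ^ 2), (fun τ : ℕ → Fin 6 => y + walk τ u) ⁻¹' {a | a ∈ A} := by
    ext τ
    simp [Ht]
  rw [this]
  refine (measurableSet_mx_le _ _).inter (Finset.measurableSet_biUnion _ fun u _ => ?_)
  exact (measurable_const.add (measurable_walk u)) (Set.to_countable _).measurableSet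

/-- trace of the walk -/
def tr (z : Site) (σ : ℕ → Fin 6) (T : ℕ) : Finset Site :=
  (Finset.range T).image (fun s => z + walk σ s)

lemma mem_tr {z : Site} {σ : ℕ → Fin 6} {T : ℕ} {a : Site} :
    a ∈ tr z σ T ↔ ∃ s < T, z + walk σ s = a := by
  simp [tr]

lemma measurable_tr (z : Site) (T : ℕ) : Measurable (fun σ : ℕ → Fin 6 => tr z σ T) := by
  unfold tr
  induction T with
  | zero => simp only [Finset.range_zero, Finset.image_empty]; exact measurable_const
  | succ T ih =>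
    simp only [Finset.range_add_one, Finset.image_insert]
    exact (measurable_of_countable (fun p : Site × Finset Site => insert p.1 p.2)).comp
        ((measurable_const.add (measurable_walk T)).prodMk ih)

/-- Sets which are hit by many walks. -/
def Good (R : ℕ) (A : Finset Site) : Prop :=
  (∀ a ∈ A, nrm a ≤ 40 * R) ∧ (R : ℝ≥0∞) ^ 3 ≤ ∑ y ∈ Lam R, stepLaw (Ht R A y)

lemma measurableSet_good (R : ℕ) (z : Site) (T : ℕ) :
    MeasurableSet {σ : ℕ → Fin 6 | Good R (tr z σ T)} :=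
  (measurable_tr z T) (Set.to_countable {A | Good R A}).measurableSet

lemma mx_tail {R : ℕ} (hR : 1 ≤ R) : stepLaw {σ | 8 * R < mx σ (R ^ 2)} ≤ 1 / 8 := by
  have h1 := lintegral_mx (R ^ 2)
  have hR0 : (R : ℝ≥0∞) ≠ 0 := by simp only [ne_eq, Nat.cast_eq_zero]; omega
  have hRt : (R : ℝ≥0∞) ≠ ∞ := ENNReal.natCast_ne_top R
  have hms : MeasurableSet {σ : ℕ → Fin 6 | 8 * R < mx σ (R ^ 2)} :=
    (measurable_mx (R ^ 2)) (Set.to_countable {k | 8 * R < k}).measurableSet
  have h2 : (8 * (R : ℝ≥0∞)) ^ 4 * stepLaw {σ | 8 * R < mx σ (R ^ 2)} ≤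
      512 * (R : ℝ≥0∞) ^ 4 := by
    calc (8 * (R : ℝ≥0∞)) ^ 4 * stepLaw {σ | 8 * R < mx σ (R ^ 2)}
        = ∫⁻ σ, ({σ | 8 * R < mx σ (R ^ 2)}).indicator (fun _ => (8 * (R : ℝ≥0∞)) ^ 4) σ ∂stepLaw := by
          rw [lintegral_indicator_const hms]
      _ ≤ ∫⁻ σ, ((mx σ (R ^ 2) : ℕ) : ℝ≥0∞) ^ 4 ∂stepLaw := by
          refine lintegral_mono fun σ => ?_
          by_cases h : 8 * R < mx σ (R ^ 2)
          · rw [Set.indicator_of_mem (by exact h)]
            have h3 : ((8 * R : ℕ) : ℝ≥0∞) ≤ ((mx σ (R ^ 2) : ℕ) : ℝ≥0∞) := by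
              exact_mod_cast h.le
            push_cast at h3
            gcongr
          · rw [Set.indicator_of_notMem (by exact h)]
            exact zero_le
      _ ≤ 512 * ((R ^ 2 : ℕ) : ℝ≥0∞) ^ 2 := h1
      _ = 512 * (R : ℝ≥0∞) ^ 4 := by push_cast; ring
  have h4 : (8 * (R : ℝ≥0∞)) ^ 4 * stepLaw {σ | 8 * R < mx σ (R ^ 2)} =
      (512 * (R : ℝ≥0∞) ^ 4) * (8 * stepLaw {σ | 8 * R < mx σ (R ^ 2)}) := by ring
  rw [h4] at h2
  have h5 : (512 * (R : ℝ≥0∞) ^ 4) ≠ 0 := by positivity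
  have h6 : (512 * (R : ℝ≥0∞) ^ 4) ≠ ∞ := by finiteness
  have h7 : 8 * stepLaw {σ | 8 * R < mx σ (R ^ 2)} ≤ 1 := by
    have := (ENNReal.mul_le_mul_iff_right h5 h6).mp (h2.trans_eq (mul_one _).symm)
    exact this
  rw [ENNReal.le_div_iff_mul_le (Or.inl (by norm_num)) (Or.inl (by norm_num)), mul_comm]
  exact h7

lemma near_tail {R : ℕ} (hR : 1 ≤ R) (w : Site) (u : ℕ) (hu : 131072 * R ^ 2 ≤ u) :
    stepLaw {τ | nrm (w - walk τ u) ≤ 40 * R} ≤ 1 / 8 := by
  have hsub : {τ : ℕ → Fin 6 | nrm (w - walk τ u) ≤ 40 * R} ⊆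
      ⋃ b ∈ box (-((40 * R : ℕ) : ℤ), -((40 * R : ℕ) : ℤ), -((40 * R : ℕ) : ℤ)) (2 * (40 * R) + 1),
        {τ | walk τ u = w - b} := by
    intro τ hτ
    simp only [Set.mem_iUnion, exists_prop]
    refine ⟨w - walk τ u, (mem_ball_box _ _).mpr hτ, ?_⟩
    show walk τ u = w - (w - walk τ u)
    abel
  refine (measure_mono hsub).trans ((measure_biUnion_finset_le _ _).trans ?_)
  refine (Finset.sum_le_sum fun b _ => walk_prob_le u (w - b)).trans ?_
  rw [Finset.sum_const, card_box, nsmul_eq_mul]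
  have hR1 : (1 : ℝ) ≤ R := by exact_mod_cast hR
  have h1 : H u ≤ 6 / (131072 * (R : ℝ) ^ 2 * (362 * R)) := by
    unfold H
    have h2 : (131072 : ℝ) * (R : ℝ) ^ 2 ≤ (u : ℝ) + 1 := by
      have : ((131072 * R ^ 2 : ℕ) : ℝ) ≤ u := by exact_mod_cast hu
      push_cast at this
      linarith
    have h3 : 362 * (R : ℝ) ≤ Real.sqrt ((u : ℝ) + 1) := by
      apply Real.le_sqrt_of_sq_le
      nlinarith
    gcongr
  have h4 : (((2 * (40 * R) + 1) ^ 3 : ℕ) : ℝ) * H u ≤ 1 / 8 := by
    have h5 : (((2 * (40 * R) + 1) ^ 3 : ℕ) : ℝ) ≤ (81 * R) ^ 3 := by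
      push_cast
      gcongr
      linarith
    calc (((2 * (40 * R) + 1) ^ 3 : ℕ) : ℝ) * H u
        ≤ (81 * R) ^ 3 * (6 / (131072 * (R : ℝ) ^ 2 * (362 * R))) :=
          mul_le_mul h5 h1 (H_pos u).le (by positivity)
      _ = 81 ^ 3 * 6 / (131072 * 362) := by
          have : (R : ℝ) ≠ 0 := by positivity
          field_simp
      _ ≤ 1 / 8 := by norm_num
  have h6 : (((2 * (40 * R) + 1) ^ 3 : ℕ) : ℝ≥0∞) * ENNReal.ofReal (H u) =
      ENNReal.ofReal ((((2 * (40 * R) + 1) ^ 3 : ℕ) : ℝ) * H u) := by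
    rw [ENNReal.ofReal_mul (by positivity), ENNReal.ofReal_natCast]
  rw [h6]
  refine (ENNReal.ofReal_le_ofReal h4).trans ?_
  rw [ENNReal.ofReal_div_of_pos (by norm_num)]
  norm_num

/-- the good displacement event -/
def FF (R : ℕ) : Set ((ℕ → Fin 6) × (ℕ → Fin 6)) :=
  {p | mx p.1 (R ^ 2) ≤ 8 * R ∧ mx p.2 ((512 * R) ^ 2) ≤ 8 * (512 * R)}

lemma measurableSet_FF (R : ℕ) : MeasurableSet (FF R) := by
  have : FF R = ({σ | mx σ (R ^ 2) ≤ 8 * R} ×ˢ {τ | mx τ ((512 * R) ^ 2) ≤ 8 * (512 * R)}) := rfl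
  rw [this]
  exact (measurableSet_mx_le _ _).prod (measurableSet_mx_le _ _)

lemma half_le {R : ℕ} (hR : 1 ≤ R) (z : Site) (hz : nrm z ≤ 32 * R) (s u : ℕ) (hs : s < R ^ 2)
    (hu : 131072 * R ^ 2 ≤ u) (hu' : u < (512 * R) ^ 2) :
    1 / 2 ≤ (stepLaw.prod stepLaw) (FF R ∩ {p | z + walk p.1 s - walk p.2 u ∈ Lam R}) := by
  have hcov : (Set.univ : Set ((ℕ → Fin 6) × (ℕ → Fin 6))) ⊆
      (FF R ∩ {p | z + walk p.1 s - walk p.2 u ∈ Lam R}) ∪
      (({σ | 8 * R < mx σ (R ^ 2)} ×ˢ Set.univ) ∪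
      ((Set.univ ×ˢ {τ | 8 * (512 * R) < mx τ ((512 * R) ^ 2)}) ∪
        {p | nrm ((z + walk p.1 s) - walk p.2 u) ≤ 40 * R})) := by
    rintro ⟨σ, τ⟩ -
    by_cases h1 : mx σ (R ^ 2) ≤ 8 * R
    · by_cases h2 : mx τ ((512 * R) ^ 2) ≤ 8 * (512 * R)
      · by_cases h3 : nrm ((z + walk σ s) - walk τ u) ≤ 40 * R
        · right; right; right; exact h3
        · left
          refine ⟨⟨h1, h2⟩, ?_⟩
          show z + walk σ s - walk τ u ∈ Lam R
          rw [mem_Lam]
          refine ⟨?_, not_le.mp h3⟩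
          have h4 := le_mx σ hs.le
          have h5 := le_mx τ hu'.le
          refine (nrm_sub_le _ _).trans ?_
          have h6 := nrm_add_le z (walk σ s)
          omega
      · right; right; left
        exact ⟨Set.mem_univ _, not_le.mp h2⟩
    · right; left
      exact ⟨not_le.mp h1, Set.mem_univ _⟩
  have hm : MeasurableSet {p : (ℕ → Fin 6) × (ℕ → Fin 6) |
      nrm ((z + walk p.1 s) - walk p.2 u) ≤ 40 * R} := by
    have : Measurable (fun p : (ℕ → Fin 6) × (ℕ → Fin 6) => nrm ((z + walk p.1 s) - walk p.2 u)) :=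
      (measurable_of_countable nrm).comp ((measurable_const.add
        ((measurable_walk s).comp measurable_fst)).sub ((measurable_walk u).comp measurable_snd))
    exact this (Set.to_countable {k | k ≤ 40 * R}).measurableSet
  have hnear : (stepLaw.prod stepLaw) {p : (ℕ → Fin 6) × (ℕ → Fin 6) |
      nrm ((z + walk p.1 s) - walk p.2 u) ≤ 40 * R} ≤ 1 / 8 := by
    rw [Measure.prod_apply hm]
    calc ∫⁻ σ, stepLaw (Prod.mk σ ⁻¹' {p : (ℕ → Fin 6) × (ℕ → Fin 6) |
          nrm ((z + walk p.1 s) - walk p.2 u) ≤ 40 * R}) ∂stepLaw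
        ≤ ∫⁻ _σ : ℕ → Fin 6, 1 / 8 ∂stepLaw := by
          refine lintegral_mono fun σ => ?_
          exact near_tail hR (z + walk σ s) u hu
      _ = 1 / 8 := by simp
  have h1 := (measure_mono (μ := stepLaw.prod stepLaw) hcov).trans ((measure_union_le _ _).trans
    (add_le_add le_rfl ((measure_union_le _ _).trans
      (add_le_add le_rfl (measure_union_le _ _)))))
  rw [measure_univ, Measure.prod_prod, Measure.prod_prod, measure_univ, mul_one, one_mul] at h1
  have h2 := mx_tail hR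
  have h3 := mx_tail (R := 512 * R) (by omega)
  have h4 : (1 : ℝ≥0∞) ≤ (stepLaw.prod stepLaw)
      (FF R ∩ {p | z + walk p.1 s - walk p.2 u ∈ Lam R}) + (1 / 8 + (1 / 8 + 1 / 8)) :=
    h1.trans (add_le_add le_rfl (add_le_add h2 (add_le_add h3 hnear)))
  have h5 : (1 : ℝ≥0∞) / 8 + (1 / 8 + 1 / 8) ≤ 1 / 2 := by
    rw [← ENNReal.toReal_le_toReal (by finiteness) (by finiteness)]
    rw [ENNReal.toReal_add (by finiteness) (by finiteness),
      ENNReal.toReal_add (by finiteness) (by finiteness)]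
    norm_num
  have h6 : (1 : ℝ≥0∞) / 2 + 1 / 2 ≤ (stepLaw.prod stepLaw)
      (FF R ∩ {p | z + walk p.1 s - walk p.2 u ∈ Lam R}) + 1 / 2 := by
    rw [ENNReal.add_halves]
    exact h4.trans (add_le_add le_rfl h5)
  exact (ENNReal.add_le_add_iff_right (by finiteness)).mp h6

end Pool.Agent.Worm

end MeetSec

section GoodLemSec
set_option linter.deprecated false

open MeasureTheory Measure ProbabilityTheory
open scoped ENNReal

namespace Pool.Agent.Worm

/-- first moment -/
lemma first_moment {R : ℕ} (hR : 1 ≤ R) (z : Site) (hz : nrm z ≤ 32 * R) :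
    ENNReal.ofReal (65536 * (R : ℝ) ^ 4) ≤
      ∑ q ∈ Finset.range (R ^ 2) ×ˢ Finset.range ((512 * R) ^ 2),
        (stepLaw.prod stepLaw) (FF R ∩ {p | z + walk p.1 q.1 - walk p.2 q.2 ∈ Lam R}) := by
  rw [Finset.sum_product]
  have h1 : ∀ s ∈ Finset.range (R ^ 2), ENNReal.ofReal (65536 * (R : ℝ) ^ 2) ≤
      ∑ u ∈ Finset.range ((512 * R) ^ 2),
        (stepLaw.prod stepLaw) (FF R ∩ {p | z + walk p.1 s - walk p.2 u ∈ Lam R}) := by
    intro s hs
    have h2 : ∑ u ∈ Finset.Ico (131072 * R ^ 2) ((512 * R) ^ 2), (1 / 2 : ℝ≥0∞) ≤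
        ∑ u ∈ Finset.range ((512 * R) ^ 2),
        (stepLaw.prod stepLaw) (FF R ∩ {p | z + walk p.1 s - walk p.2 u ∈ Lam R}) := by
      calc ∑ u ∈ Finset.Ico (131072 * R ^ 2) ((512 * R) ^ 2), (1 / 2 : ℝ≥0∞)
          ≤ ∑ u ∈ Finset.Ico (131072 * R ^ 2) ((512 * R) ^ 2),
            (stepLaw.prod stepLaw) (FF R ∩ {p | z + walk p.1 s - walk p.2 u ∈ Lam R}) := by
            refine Finset.sum_le_sum fun u hu => ?_
            have hu' := Finset.mem_Ico.mp hu
            exact half_le hR z hz s u (Finset.mem_range.mp hs) hu'.1 hu'.2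
        _ ≤ _ := by
            apply Finset.sum_le_sum_of_subset
            rw [Finset.range_eq_Ico]
            exact Finset.Ico_subset_Ico (Nat.zero_le _) le_rfl
    refine le_trans ?_ h2
    rw [Finset.sum_const, Nat.card_Ico, nsmul_eq_mul]
    have h3 : (512 * R) ^ 2 - 131072 * R ^ 2 = 131072 * R ^ 2 := by
      rw [mul_pow]; omega
    rw [h3]
    have h4 : (1 / 2 : ℝ≥0∞) = ENNReal.ofReal (1 / 2) := by
      rw [ENNReal.ofReal_div_of_pos (by norm_num)]; norm_num
    rw [h4, ← ENNReal.ofReal_natCast, ← ENNReal.ofReal_mul (by positivity)]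
    apply ENNReal.ofReal_le_ofReal
    push_cast
    linarith
  refine le_trans ?_ (Finset.sum_le_sum h1)
  rw [Finset.sum_const, Finset.card_range, nsmul_eq_mul, ← ENNReal.ofReal_natCast,
    ← ENNReal.ofReal_mul (by positivity)]
  apply ENNReal.ofReal_le_ofReal
  push_cast
  apply le_of_eq
  ring

/-- second moment -/
lemma second_moment_bound {R : ℕ} (z : Site) :
    ∑ q ∈ Finset.range (R ^ 2) ×ˢ Finset.range ((512 * R) ^ 2),
      ∑ q' ∈ Finset.range (R ^ 2) ×ˢ Finset.range ((512 * R) ^ 2),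
        (stepLaw.prod stepLaw) {p | z + walk p.1 q.1 - walk p.2 q.2 =
          z + walk p.1 q'.1 - walk p.2 q'.2} ≤ ENNReal.ofReal (37748736 * (R : ℝ) ^ 5) := by
  have h1 : ∀ q q' : ℕ × ℕ, (stepLaw.prod stepLaw) {p | z + walk p.1 q.1 - walk p.2 q.2 =
          z + walk p.1 q'.1 - walk p.2 q'.2} ≤
          ENNReal.ofReal (H (max (dd q.1 q'.1) (dd q.2 q'.2))) := by
    intro q q'
    have h2 : {p : (ℕ → Fin 6) × (ℕ → Fin 6) | z + walk p.1 q.1 - walk p.2 q.2 =
          z + walk p.1 q'.1 - walk p.2 q'.2} =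
          {p | walk p.1 q.1 - walk p.1 q'.1 - 0 = walk p.2 q.2 - walk p.2 q'.2} := by
      ext p
      simp only [Set.mem_ofPred_eq, sub_zero]
      constructor
      · intro h
        have h3 : walk p.1 q.1 - walk p.1 q'.1 = (z + walk p.1 q.1 - walk p.2 q.2) -
            (z + walk p.1 q'.1 - walk p.2 q'.2) + (walk p.2 q.2 - walk p.2 q'.2) := by abel
        rw [h3, h, sub_self, zero_add]
      · intro h
        have h3 : z + walk p.1 q.1 - walk p.2 q.2 = (z + walk p.1 q'.1 - walk p.2 q'.2) +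
            ((walk p.1 q.1 - walk p.1 q'.1) - (walk p.2 q.2 - walk p.2 q'.2)) := by abel
        rw [h3, h, sub_self, add_zero]
    rw [h2]
    have hm : MeasurableSet {p : (ℕ → Fin 6) × (ℕ → Fin 6) |
        walk p.1 q.1 - walk p.1 q'.1 - 0 = walk p.2 q.2 - walk p.2 q'.2} := by
      refine measurableSet_eq_fun ?_ ?_
      · exact (((measurable_walk _).comp measurable_fst).sub
          ((measurable_walk _).comp measurable_fst)).sub measurable_const
      · exact ((measurable_walk _).comp measurable_snd).sub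
          ((measurable_walk _).comp measurable_snd)
    rw [Measure.prod_apply hm]
    exact pair_le 0 q.1 q'.1 q.2 q'.2
  refine (Finset.sum_le_sum fun q _ => Finset.sum_le_sum fun q' _ => h1 q q').trans ?_
  have h4 : ∑ q ∈ Finset.range (R ^ 2) ×ˢ Finset.range ((512 * R) ^ 2),
      ∑ q' ∈ Finset.range (R ^ 2) ×ˢ Finset.range ((512 * R) ^ 2),
        ENNReal.ofReal (H (max (dd q.1 q'.1) (dd q.2 q'.2))) = ENNReal.ofReal
      (∑ s ∈ Finset.range (R ^ 2), ∑ s' ∈ Finset.range (R ^ 2),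
        ∑ u ∈ Finset.range ((512 * R) ^ 2), ∑ u' ∈ Finset.range ((512 * R) ^ 2),
        H (max (dd s s') (dd u u'))) := by
    have hp : ∀ n, 0 ≤ H n := fun n => (H_pos n).le
    rw [ENNReal.ofReal_sum_of_nonneg (fun _ _ => Finset.sum_nonneg fun _ _ =>
      Finset.sum_nonneg fun _ _ => Finset.sum_nonneg fun _ _ => hp _), Finset.sum_product]
    refine Finset.sum_congr rfl fun s _ => ?_
    rw [ENNReal.ofReal_sum_of_nonneg (fun _ _ =>
      Finset.sum_nonneg fun _ _ => Finset.sum_nonneg fun _ _ => hp _)]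
    simp_rw [Finset.sum_product]
    rw [Finset.sum_comm]
    refine Finset.sum_congr rfl fun s' _ => ?_
    rw [ENNReal.ofReal_sum_of_nonneg (fun _ _ => Finset.sum_nonneg fun _ _ => hp _)]
    refine Finset.sum_congr rfl fun u _ => ?_
    rw [ENNReal.ofReal_sum_of_nonneg (fun _ _ => hp _)]
  rw [h4]
  apply ENNReal.ofReal_le_ofReal
  refine (sum_H_four _ _).trans ?_
  have h5 : Real.sqrt ((R ^ 2 : ℕ) : ℝ) = R := by
    push_cast
    exact Real.sqrt_sq (Nat.cast_nonneg R)
  rw [h5]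
  push_cast
  apply le_of_eq
  ring

/-- the meeting event -/
def Mt (R : ℕ) (z y : Site) : Set ((ℕ → Fin 6) × (ℕ → Fin 6)) :=
  FF R ∩ {p | ∃ q ∈ Finset.range (R ^ 2) ×ˢ Finset.range ((512 * R) ^ 2),
    z + walk p.1 q.1 - walk p.2 q.2 = y}

lemma measurableSet_Mt (R : ℕ) (z y : Site) : MeasurableSet (Mt R z y) := by
  refine (measurableSet_FF R).inter ?_
  have : {p : (ℕ → Fin 6) × (ℕ → Fin 6) |
      ∃ q ∈ Finset.range (R ^ 2) ×ˢ Finset.range ((512 * R) ^ 2),
      z + walk p.1 q.1 - walk p.2 q.2 = y} =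
      ⋃ q ∈ Finset.range (R ^ 2) ×ˢ Finset.range ((512 * R) ^ 2),
      {p | z + walk p.1 q.1 - walk p.2 q.2 = y} := by
    ext p; simp only [Set.mem_ofPred_eq, Set.mem_iUnion, exists_prop]
  rw [this]
  refine Finset.measurableSet_biUnion _ fun q _ => measurableSet_eq_fun ?_ measurable_const
  exact (measurable_const.add ((measurable_walk _).comp measurable_fst)).sub
    ((measurable_walk _).comp measurable_snd)

lemma measure_Mt_le (R : ℕ) (z y : Site) : (stepLaw.prod stepLaw) (Mt R z y) ≤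
    ∫⁻ σ, ({σ | mx σ (R ^ 2) ≤ 8 * R}).indicator
      (fun σ => stepLaw (Ht R (tr z σ (R ^ 2)) y)) σ ∂stepLaw := by
  rw [Measure.prod_apply (measurableSet_Mt R z y)]
  refine lintegral_mono fun σ => ?_
  by_cases h : mx σ (R ^ 2) ≤ 8 * R
  · rw [Set.indicator_of_mem (by exact h)]
    refine measure_mono ?_
    rintro τ ⟨⟨_, h2⟩, ⟨s, u⟩, hq, heq⟩
    rw [Finset.mem_product, Finset.mem_range, Finset.mem_range] at hq
    refine ⟨h2, u, hq.2, ?_⟩
    rw [mem_tr]
    refine ⟨s, hq.1, ?_⟩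
    simp only at heq
    rw [← heq]
    abel
  · rw [Set.indicator_of_notMem (by exact h)]
    have : Prod.mk σ ⁻¹' Mt R z y = ∅ := by
      ext τ
      simp only [Set.mem_preimage, Set.mem_empty_iff_false, iff_false]
      rintro ⟨⟨h1, _⟩, _⟩
      exact h h1
    rw [this, measure_empty]

/-- Walks started near the origin have good traces with positive probability. -/
theorem good_prob {R : ℕ} (hR : 1 ≤ R) (z : Site) (hz : nrm z ≤ 32 * R) :
    ENNReal.ofReal (1 / 41472 ^ 3) ≤ stepLaw {σ | Good R (tr z σ (R ^ 2))} := by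
  have hR1 : (1 : ℝ) ≤ R := by exact_mod_cast hR
  -- second moment inequality
  have hsm := second_moment (stepLaw.prod stepLaw)
    (Finset.range (R ^ 2) ×ˢ Finset.range ((512 * R) ^ 2)) (Lam R)
    (fun q p => z + walk p.1 q.1 - walk p.2 q.2)
    (fun q => (measurable_const.add ((measurable_walk _).comp measurable_fst)).sub
      ((measurable_walk _).comp measurable_snd)) (FF R) (measurableSet_FF R)
    (ENNReal.ofReal (1 / (576 * R)))
  have h1 := first_moment hR z hz
  have h2 := second_moment_bound (R := R) z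
  set P : ℝ≥0∞ := stepLaw {σ | Good R (tr z σ (R ^ 2))} with hP
  have hPt : P ≠ ∞ := measure_ne_top _ _
  -- the meeting probability
  have h3 : ∑ y ∈ Lam R, (stepLaw.prod stepLaw) (Mt R z y) ≤
      ENNReal.ofReal ((R : ℝ) ^ 3) + ENNReal.ofReal ((41472 * (R : ℝ)) ^ 3) * P := by
    have hmH : ∀ y, Measurable (fun σ : ℕ → Fin 6 => stepLaw (Ht R (tr z σ (R ^ 2)) y)) := by
      intro y
      exact (measurable_of_countable (fun A : Finset Site => stepLaw (Ht R A y))).comp
        (measurable_tr z (R ^ 2))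
    calc ∑ y ∈ Lam R, (stepLaw.prod stepLaw) (Mt R z y)
        ≤ ∑ y ∈ Lam R, ∫⁻ σ, ({σ | mx σ (R ^ 2) ≤ 8 * R}).indicator
          (fun σ => stepLaw (Ht R (tr z σ (R ^ 2)) y)) σ ∂stepLaw :=
          Finset.sum_le_sum fun y _ => measure_Mt_le R z y
      _ = ∫⁻ σ, ∑ y ∈ Lam R, ({σ | mx σ (R ^ 2) ≤ 8 * R}).indicator
          (fun σ => stepLaw (Ht R (tr z σ (R ^ 2)) y)) σ ∂stepLaw := by
          rw [lintegral_finset_sum]
          intro y _
          exact (hmH y).indicator (measurableSet_mx_le _ _)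
      _ ≤ ∫⁻ σ, (ENNReal.ofReal ((R : ℝ) ^ 3) + ENNReal.ofReal ((41472 * (R : ℝ)) ^ 3) *
          ({σ | Good R (tr z σ (R ^ 2))}).indicator 1 σ) ∂stepLaw := by
          refine lintegral_mono fun σ => ?_
          by_cases h : mx σ (R ^ 2) ≤ 8 * R
          · simp only [Set.indicator_of_mem (show σ ∈ {σ | mx σ (R ^ 2) ≤ 8 * R} from h)]
            by_cases hg : Good R (tr z σ (R ^ 2))
            · rw [Set.indicator_of_mem (by exact hg)]
              refine le_trans ?_ le_add_self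
              rw [Pi.one_apply, mul_one]
              calc ∑ y ∈ Lam R, stepLaw (Ht R (tr z σ (R ^ 2)) y) ≤ ∑ y ∈ Lam R, 1 :=
                    Finset.sum_le_sum fun y _ => prob_le_one
                _ = ((Lam R).card : ℝ≥0∞) := by simp
                _ ≤ (((41472 * R) ^ 3 : ℕ) : ℝ≥0∞) := by exact_mod_cast card_Lam_le hR
                _ = ENNReal.ofReal ((41472 * (R : ℝ)) ^ 3) := by
                    rw [← ENNReal.ofReal_natCast]
                    push_cast
                    rfl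
            · refine le_trans ?_ le_self_add
              have hloc : ∀ a ∈ tr z σ (R ^ 2), nrm a ≤ 40 * R := by
                intro a ha
                obtain ⟨s, hs, rfl⟩ := mem_tr.mp ha
                have h5 := le_mx σ hs.le
                have h6 := nrm_add_le z (walk σ s)
                omega
              have h7 : ¬ ((R : ℝ≥0∞) ^ 3 ≤ ∑ y ∈ Lam R, stepLaw (Ht R (tr z σ (R ^ 2)) y)) :=
                fun h8 => hg ⟨hloc, h8⟩
              refine (not_le.mp h7).le.trans ?_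
              rw [ENNReal.ofReal_pow (by positivity), ENNReal.ofReal_natCast]
          · simp only [Set.indicator_of_notMem (show σ ∉ {σ | mx σ (R ^ 2) ≤ 8 * R} from h)]
            simp
      _ = ENNReal.ofReal ((R : ℝ) ^ 3) + ENNReal.ofReal ((41472 * (R : ℝ)) ^ 3) * P := by
          rw [lintegral_add_left measurable_const, lintegral_const_mul _
            (measurable_one.indicator (measurableSet_good R z _)),
            lintegral_indicator_one (measurableSet_good R z _)]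
          simp [hP]
  -- combine
  have h4 : ENNReal.ofReal (2 * (1 / (576 * R)) * (65536 * (R : ℝ) ^ 4)) ≤
      ENNReal.ofReal ((R : ℝ) ^ 3 + (41472 * (R : ℝ)) ^ 3 * P.toReal +
        (1 / (576 * R)) ^ 2 * (37748736 * (R : ℝ) ^ 5)) := by
    calc ENNReal.ofReal (2 * (1 / (576 * R)) * (65536 * (R : ℝ) ^ 4))
        = 2 * ENNReal.ofReal (1 / (576 * R)) * ENNReal.ofReal (65536 * (R : ℝ) ^ 4) := by
          rw [ENNReal.ofReal_mul (by positivity), ENNReal.ofReal_mul (by positivity)]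
          norm_num
      _ ≤ 2 * ENNReal.ofReal (1 / (576 * R)) *
          ∑ q ∈ Finset.range (R ^ 2) ×ˢ Finset.range ((512 * R) ^ 2),
          (stepLaw.prod stepLaw) (FF R ∩ {p | z + walk p.1 q.1 - walk p.2 q.2 ∈ Lam R}) := by
          gcongr
      _ ≤ _ := hsm
      _ ≤ (ENNReal.ofReal ((R : ℝ) ^ 3) + ENNReal.ofReal ((41472 * (R : ℝ)) ^ 3) * P) +
          ENNReal.ofReal (1 / (576 * R)) ^ 2 * ENNReal.ofReal (37748736 * (R : ℝ) ^ 5) := by
          gcongr
          exact h3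
      _ = _ := by
          have e1 : ENNReal.ofReal ((41472 * (R : ℝ)) ^ 3 * P.toReal) =
              ENNReal.ofReal ((41472 * (R : ℝ)) ^ 3) * P := by
            rw [ENNReal.ofReal_mul (by positivity), ENNReal.ofReal_toReal hPt]
          have e2 : ENNReal.ofReal ((1 / (576 * (R : ℝ))) ^ 2 * (37748736 * (R : ℝ) ^ 5)) =
              ENNReal.ofReal (1 / (576 * R)) ^ 2 * ENNReal.ofReal (37748736 * (R : ℝ) ^ 5) := by
            rw [ENNReal.ofReal_mul (by positivity), ENNReal.ofReal_pow (by positivity)]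
          rw [ENNReal.ofReal_add (by positivity) (by positivity),
            ENNReal.ofReal_add (by positivity) (by positivity), e1, e2]
  rw [ENNReal.ofReal_le_ofReal_iff (by positivity)] at h4
  have h5 : (1 : ℝ) / 41472 ^ 3 ≤ P.toReal := by
    have hR0 : (0 : ℝ) < R := by linarith
    have h6 : 2 * (1 / (576 * (R : ℝ))) * (65536 * (R : ℝ) ^ 4) = (65536 / 288) * (R : ℝ) ^ 3 := by
      field_simp
      ring
    have h7 : (1 / (576 * (R : ℝ))) ^ 2 * (37748736 * (R : ℝ) ^ 5) =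
        (37748736 / 331776) * (R : ℝ) ^ 3 := by
      field_simp
      ring
    rw [h6, h7] at h4
    have h8 : (R : ℝ) ^ 3 * 1 ≤ (R : ℝ) ^ 3 * (41472 ^ 3 * P.toReal) := by
      nlinarith [pow_pos hR0 3]
    have h9 := le_of_mul_le_mul_left h8 (pow_pos hR0 3)
    rw [div_le_iff₀ (by norm_num)]
    linarith
  calc ENNReal.ofReal (1 / 41472 ^ 3) ≤ ENNReal.ofReal P.toReal := ENNReal.ofReal_le_ofReal h5
    _ = P := ENNReal.ofReal_toReal hPt

end Pool.Agent.Worm

end GoodLemSec

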