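import Pool.Agent.Lib.MP_b9fdbf_pr.PB

/-!
# Worm percolation on `ℤ³` (MP_b9fdbf_pr): definitions

The model in the form of the problem file, and its comparison with the probability space used in
the proofs.
-/

set_option autoImplicit false

open MeasureTheory Measure ProbabilityTheory
open scoped ENNReal NNReal

namespace Pool.Agent.Worm.Lit

/-- the points of `ℤ³` -/
abbrev Z3 := ℤ × ℤ × ℤ

/-- the nearest-neighbour lattice -/
def lattice : SimpleGraph Z3 where
  Adj x y := |x.1 - y.1| + |x.2.1 - y.2.1| + |x.2.2 - y.2.2| = 1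
  symm := ⟨fun x y h => by
    rw [abs_sub_comm y.1, abs_sub_comm y.2.1, abs_sub_comm y.2.2]; exact h⟩
  loopless := ⟨fun x h => by simp at h⟩

/-- The set `S` percolates: the subgraph of the lattice induced by `S` has an infinite connected
component. -/
def Percolates (S : Set Z3) : Prop :=
  ∃ C : (lattice.induce S).ConnectedComponent, C.supp.Infinite

/-- the six unit vectors -/
def unitVectors : Finset Z3 :=
  {(1, 0, 0), (-1, 0, 0), (0, 1, 0), (0, -1, 0), (0, 0, 1), (0, 0, -1)}

lemma unitVectors_nonempty : unitVectors.Nonempty := ⟨(1, 0, 0), by simp [unitVectors]⟩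

/-- the law of the steps of simple random walk: uniform on the six unit vectors -/
noncomputable def stepPMF : PMF Z3 := PMF.uniformOfFinset unitVectors unitVectors_nonempty

/-- the walk with steps `s 0, s 1, …`: its position at time `t` -/
def position (s : ℕ → Z3) (t : ℕ) : Z3 := ∑ k ∈ Finset.range t, s k

/-- the worm of length `ℓ`: the points `X(0), …, X(ℓ - 1)` of the walk `X` with steps `s` -/
def worm (ℓ : ℕ) (s : ℕ → Z3) : Finset Z3 := (Finset.range ℓ).image (position s)

/-- The law `ν` of a worm: the length has law `m` and is independent of the simple random walk. -/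
noncomputable def nu (m : PMF ℕ) : Measure (Finset Z3) :=
  (m.toMeasure.prod (infinitePi fun _ : ℕ => stepPMF.toMeasure)).map fun q => worm q.1 q.2

/-- The worms set when there are `N x` worms at the site `x`, with shapes `H (x, 0), H (x, 1), …`: the
union of the sets `x + H (x, j)`, `j < N x`. -/
def wormsSet (N : Z3 → ℕ) (H : Z3 × ℕ → Finset Z3) : Set Z3 :=
  {y | ∃ x : Z3, ∃ j < N x, ∃ h ∈ H (x, j), y = x + h}

/-- The worm model of level `v` with length distribution `m`, on an arbitrary probability space: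
the numbers `N x` are Poisson with mean `v`, the shapes `H (x, j)` have the law `ν`, and all these
random variables are independent. -/
structure IsWormModel (v : ℝ≥0) (m : PMF ℕ) {Ω : Type*} [MeasurableSpace Ω] (P : Measure Ω)
    (N : Z3 → Ω → ℕ) (H : Z3 × ℕ → Ω → Finset Z3) : Prop where
  law_N : ∀ x, HasLaw (N x) (poissonMeasure v) P
  law_H : ∀ q, HasLaw (H q) (nu m) P
  indep_N : iIndepFun N P
  indep_H : iIndepFun H P
  indep : IndepFun (fun ω x => N x ω) (fun ω q => H q ω) P

/-- The probability that the worms set of level `v` percolates (in the canonical probability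
space). -/
noncomputable def percProb (v : ℝ≥0) (m : PMF ℕ) : ℝ≥0∞ :=
  ((infinitePi fun _ : Z3 => (poissonMeasure v)).prod (infinitePi fun _ : Z3 × ℕ => nu m))
    {ω | Percolates (wormsSet ω.1 ω.2)}

/-- The critical level `v_c(m)`, the supremum of the `v ≥ 0` for which the worms set does not
percolate almost surely. -/
noncomputable def criticalLevel (m : PMF ℕ) : ℝ≥0∞ :=
  ⨆ (v : ℝ≥0) (_ : percProb v m = 0), (v : ℝ≥0∞)

/-! ### Percolation -/

lemma lattice_adj (a b : Z3) : lattice.Adj a b ↔ Adj a b := by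
  change |a.1 - b.1| + |a.2.1 - b.2.1| + |a.2.2 - b.2.2| = 1 ↔
    |b.1 - a.1| + |b.2.1 - a.2.1| + |b.2.2 - a.2.2| = 1
  rw [abs_sub_comm a.1, abs_sub_comm a.2.1, abs_sub_comm a.2.2]

lemma percolates_iff (S : Set Z3) : Percolates S ↔ Perc S := by
  constructor
  · rintro ⟨C, hC⟩
    obtain ⟨y0, hy0⟩ := hC.nonempty
    -- connections in the component
    have hconn : ∀ z : S, (lattice.induce S).Reachable y0 z → ∀ T : Set Site,
        T = {a | a + y0.1 ∈ S} → Conn T 0 (z.1 - y0.1) := by
      intro z hz T hT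
      obtain ⟨w⟩ := hz
      have key : ∀ (a b : S), (lattice.induce S).Walk a b → Conn T (a.1 - y0.1) (b.1 - y0.1) := by
        intro a b w
        induction w with
        | nil => exact Relation.ReflTransGen.refl
        | @cons a c b h _ ih =>
          refine Relation.ReflTransGen.head ⟨?_, ?_, ?_⟩ ih
          · have h1 : Adj a.1 c.1 := (lattice_adj _ _).mp h
            unfold Adj at h1 ⊢
            simpa using h1
          · rw [hT]; simp
          · rw [hT]; simp
      have := key _ _ w
      simpa using this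
    have hperc : Perc {a : Site | a + y0.1 ∈ S} := by
      apply perc_of_conn
      intro n
      by_contra hcon
      push Not at hcon
      apply hC
      have hfin : {y : Site | nrm y ≤ n}.Finite := by
        refine Set.Finite.subset (box ((-n : ℤ), (-n : ℤ), (-n : ℤ)) (2 * n + 1)).finite_toSet ?_
        intro y hy
        have := (nrm_le_iff _ _).mp hy
        rw [Finset.mem_coe, mem_box]
        simp only at this ⊢
        push_cast
        omega
      have hinj : Function.Injective (fun z : S => (z.1 - y0.1 : Site)) := by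
        intro a b hab
        exact Subtype.ext (sub_left_injective hab)
      refine (hfin.preimage (f := fun z : S => (z.1 - y0.1 : Site)) hinj.injOn).subset ?_
      intro z hz
      have hr : (lattice.induce S).Reachable y0 z := by
        have h1 := (SimpleGraph.ConnectedComponent.mem_supp_iff C y0).mp hy0
        have h2 := (SimpleGraph.ConnectedComponent.mem_supp_iff C z).mp hz
        exact SimpleGraph.ConnectedComponent.exact (h1.trans h2.symm)
      by_contra hlt
      simp only [Set.mem_preimage, Set.mem_ofPred_eq, not_le] at hlt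
      exact hcon _ hlt.le (hconn z hr _ rfl)
    obtain ⟨p, hinj, hp⟩ := hperc
    refine ⟨fun n => p n + y0.1, fun a b hab => hinj (add_right_cancel hab), fun n => ⟨?_, (hp n).2⟩⟩
    have h1 := (hp n).1
    unfold Adj at h1 ⊢
    simpa using h1
  · rintro ⟨p, hinj, hp⟩
    let f : ℕ → S := fun n => ⟨p n, (hp n).2⟩
    have hadj : ∀ n, (lattice.induce S).Adj (f n) (f (n + 1)) := fun n =>
      (lattice_adj _ _).mpr (hp n).1
    have hr : ∀ n, (lattice.induce S).Reachable (f 0) (f n) := by
      intro n
      induction n with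
      | zero => exact SimpleGraph.Reachable.refl _
      | succ n ih => exact ih.trans (hadj n).reachable
    refine ⟨(lattice.induce S).connectedComponentMk (f 0), ?_⟩
    refine Set.infinite_of_injective_forall_mem (f := f) (fun a b hab => hinj (congrArg Subtype.val hab))
      fun n => ?_
    rw [SimpleGraph.ConnectedComponent.mem_supp_iff]
    exact (SimpleGraph.ConnectedComponent.sound (hr n)).symm

/-! ### The law of the worms set -/

lemma poisson_eq (v : ℝ≥0) : (poissonPMF v).toMeasure = poissonMeasure v := by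
  refine Measure.ext_of_singleton fun n => ?_
  rw [PMF.toMeasure_apply_singleton _ _ (measurableSet_singleton n), poissonMeasure_singleton,
    ← poissonPMFReal_ofReal_eq_poissonPMF]
  rfl

lemma card_unitVectors : unitVectors.card = 6 := by decide

lemma stepPMF_map : stepPMF = (PMF.uniformOfFintype (Fin 6)).map vec := by
  ext x
  rw [PMF.map_apply, tsum_fintype, stepPMF, PMF.uniformOfFinset_apply, card_unitVectors]
  simp only [PMF.uniformOfFintype_apply, Fintype.card_fin]
  by_cases hx : x ∈ unitVectors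
  · rw [if_pos hx]
    simp only [unitVectors, Finset.mem_insert, Finset.mem_singleton] at hx
    rcases hx with rfl | rfl | rfl | rfl | rfl | rfl <;> simp [vec, Fin.sum_univ_succ]
  · rw [if_neg hx]
    symm
    apply Finset.sum_eq_zero
    intro i _
    rw [if_neg]
    rintro rfl
    apply hx
    fin_cases i <;> simp [vec, unitVectors]

lemma stepPMF_eq : stepPMF.toMeasure = uni.map vec := by
  rw [stepPMF_map, uni, PMF.toMeasure_map _ _ (measurable_of_countable vec)]

lemma measurable_position (t : ℕ) : Measurable fun s : ℕ → Z3 => position s t := by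
  unfold position
  fun_prop

lemma measurable_worm : Measurable fun q : ℕ × (ℕ → Z3) => worm q.1 q.2 := by
  refine measurable_from_prod_countable_right fun l => ?_
  simp only [worm]
  induction l with
  | zero => simp only [Finset.range_zero, Finset.image_empty]; exact measurable_const
  | succ T ih =>
    simp only [Finset.range_add_one, Finset.image_insert]
    exact (measurable_of_countable (fun p : Z3 × Finset Z3 => insert p.1 p.2)).comp
        ((measurable_position T).prodMk ih)

instance (m : PMF ℕ) : IsProbabilityMeasure (nu m) :=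
  Measure.isProbabilityMeasure_map measurable_worm.aemeasurable

/-- the worm of a sequence of directions -/
def dworm (q : ℕ × (ℕ → Fin 6)) : Finset Z3 := worm q.1 fun k => vec (q.2 k)

lemma measurable_dworm : Measurable dworm := by
  unfold dworm
  exact measurable_worm.comp (measurable_fst.prodMk
    (measurable_pi_iff.mpr fun k => (measurable_of_countable vec).comp
      ((measurable_pi_apply k).comp measurable_snd)))

lemma measurable_vecs : Measurable fun (d : ℕ → Fin 6) (k : ℕ) => (vec (d k) : Z3) := by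
  refine measurable_pi_iff.mpr fun k => ?_
  exact (measurable_of_countable vec).comp (measurable_pi_apply k)

lemma nu_eq (m : PMF ℕ) : nu m = (m.toMeasure.prod stepLaw).map dworm := by
  have h1 : (infinitePi fun _ : ℕ => stepPMF.toMeasure) =
      stepLaw.map fun (d : ℕ → Fin 6) k => vec (d k) := by
    rw [stepLaw, infinitePi_map_pi _ fun _ => measurable_of_countable _]
    simp only [stepPMF_eq]
  have h2 : m.toMeasure.prod (stepLaw.map fun (d : ℕ → Fin 6) k => vec (d k)) =
      (m.toMeasure.prod stepLaw).map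
        (Prod.map id fun (d : ℕ → Fin 6) k => vec (d k)) := by
    have h3 := Measure.map_prod_map m.toMeasure stepLaw (f := id) measurable_id measurable_vecs
    rw [Measure.map_id] at h3
    exact h3
  rw [nu, h1, h2, Measure.map_map measurable_worm (measurable_id.prodMap measurable_vecs)]
  rfl

/-- numbers and shapes of the worms, from the data of the sites -/
def shapes (d : Site → Dat) : (Z3 → ℕ) × (Z3 × ℕ → Finset Z3) :=
  (fun x => (d x).1, fun q => dworm (wormOf (d q.1) q.2))

lemma measurable_shapes : Measurable shapes := by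
  unfold shapes
  refine Measurable.prodMk (by fun_prop) (measurable_pi_iff.mpr fun q => ?_)
  exact measurable_dworm.comp ((measurable_wormOf q.2).comp (measurable_pi_apply q.1))

lemma map_shapes (v : ℝ≥0) (m : PMF ℕ) :
    (wormLaw (poissonPMF v).toMeasure m.toMeasure).map shapes =
      (infinitePi fun _ : Z3 => poissonMeasure v).prod (infinitePi fun _ : Z3 × ℕ => nu m) := by
  -- the shapes at one site
  have hm1 : Measurable fun (x : ℕ → ℕ × (ℕ → Fin 6)) (i : ℕ) => dworm (x i) :=
    measurable_pi_iff.mpr fun i => measurable_dworm.comp (measurable_pi_apply i)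
  have hm2 : Measurable fun (e : (ℕ → ℕ) × (ℕ × ℕ → Fin 6)) (i : ℕ) =>
      ((e.1 i, fun k => e.2 (i, k)) : ℕ × (ℕ → Fin 6)) := by
    fun_prop
  have hm3 : Measurable fun (e : (ℕ → ℕ) × (ℕ × ℕ → Fin 6)) (i : ℕ) =>
      dworm (e.1 i, fun k => e.2 (i, k)) := hm1.comp hm2
  have hsite : ((infinitePi (fun _ : ℕ => m.toMeasure)).prod
        (infinitePi (fun _ : ℕ × ℕ => uni))).map
        (fun e (i : ℕ) => dworm (e.1 i, fun k => e.2 (i, k))) = infinitePi fun _ : ℕ => nu m := by
    have h1 := infinitePi_map_curry (ι := ℕ) (κ := ℕ) (fun _ _ => uni)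
    have h2 := infinitePi_prod_map (fun _ : ℕ => m.toMeasure) (fun _ : ℕ => stepLaw)
    have h3 := infinitePi_map_pi (fun _ : ℕ => m.toMeasure.prod stepLaw)
      (fun _ : ℕ => measurable_dworm)
    have h4 : (infinitePi fun _ : ℕ => stepLaw) = (infinitePi fun _ : ℕ × ℕ => uni).map
        (fun (s : ℕ × ℕ → Fin 6) (i k : ℕ) => s (i, k)) := h1.symm
    have h5 := Measure.map_prod_map (infinitePi fun _ : ℕ => m.toMeasure)
      (infinitePi fun _ : ℕ × ℕ => uni) (f := id)
      (g := fun (s : ℕ × ℕ → Fin 6) (i k : ℕ) => s (i, k)) measurable_id (by fun_prop)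
    rw [Measure.map_id, ← h4] at h5
    have h6 : ((infinitePi (fun _ : ℕ => m.toMeasure)).prod
        (infinitePi (fun _ : ℕ × ℕ => uni))).map
        (fun e (i : ℕ) => ((e.1 i, fun k => e.2 (i, k)) : ℕ × (ℕ → Fin 6))) =
        infinitePi fun _ : ℕ => m.toMeasure.prod stepLaw := by
      rw [← h2, h5, Measure.map_map (by fun_prop) (by fun_prop)]
      rfl
    simp only [nu_eq]
    rw [← h3, ← h6, Measure.map_map hm1 hm2]
    rfl
  -- one site
  have hone : (datLaw (poissonPMF v).toMeasure m.toMeasure).map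
      (fun d => (d.1, fun i => dworm (wormOf d i))) =
      (poissonMeasure v).prod (infinitePi fun _ : ℕ => nu m) := by
    have h1 := Measure.map_prod_map (poissonPMF v).toMeasure
      ((infinitePi (fun _ : ℕ => m.toMeasure)).prod (infinitePi (fun _ : ℕ × ℕ => uni)))
      (f := id) measurable_id hm3
    rw [Measure.map_id, hsite, poisson_eq] at h1
    rw [datLaw, h1, poisson_eq]
    rfl
  have hmd : Measurable fun d : Dat => (d.1, fun i => dworm (wormOf d i)) := by
    refine Measurable.prodMk (by fun_prop) (measurable_pi_iff.mpr fun i => ?_)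
    exact measurable_dworm.comp (measurable_wormOf i)
  -- all sites
  have h1 := infinitePi_map_pi (fun _ : Site => datLaw (poissonPMF v).toMeasure m.toMeasure)
    (fun _ : Site => hmd)
  simp only [hone] at h1
  have h2 := infinitePi_prod_map (fun _ : Z3 => poissonMeasure v)
    (fun _ : Z3 => infinitePi fun _ : ℕ => nu m)
  have h3 := infinitePi_map_curry (ι := Z3) (κ := ℕ) (fun _ _ => nu m)
  have h4 := Measure.map_prod_map (infinitePi fun _ : Z3 => poissonMeasure v)
      (infinitePi fun _ : Z3 × ℕ => nu m) (f := id)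
      (g := fun (s : Z3 × ℕ → Finset Z3) (i : Z3) (k : ℕ) => s (i, k)) measurable_id (by fun_prop)
  have h3' : (infinitePi fun _ : Z3 × ℕ => nu m).map
      (fun (s : Z3 × ℕ → Finset Z3) (i : Z3) (k : ℕ) => s (i, k)) =
      infinitePi fun _ : Z3 => infinitePi fun _ : ℕ => nu m := h3
  rw [Measure.map_id, h3'] at h4
  have h5 : ((infinitePi fun _ : Z3 => poissonMeasure v).prod
      (infinitePi fun _ : Z3 × ℕ => nu m)).map (fun p (x : Z3) => (p.1 x, fun i => p.2 (x, i))) =
      infinitePi fun _ : Z3 => (poissonMeasure v).prod (infinitePi fun _ : ℕ => nu m) := by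
    rw [← h2, h4, Measure.map_map (by fun_prop) (by fun_prop)]
    rfl
  rw [← h5] at h1
  -- undo the regrouping
  have hun : Measurable fun (f : Z3 → ℕ × (ℕ → Finset Z3)) =>
      ((fun x => (f x).1, fun q => (f q.1).2 q.2) : (Z3 → ℕ) × (Z3 × ℕ → Finset Z3)) := by
    fun_prop
  have h6 := congrArg (Measure.map fun (f : Z3 → ℕ × (ℕ → Finset Z3)) =>
      ((fun x => (f x).1, fun q => (f q.1).2 q.2) : (Z3 → ℕ) × (Z3 × ℕ → Finset Z3))) h1
  have hm4 : Measurable fun (x : Site → Dat) (i : Site) =>
      ((x i).1, fun k => dworm (wormOf (x i) k)) :=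
    measurable_pi_iff.mpr fun i => hmd.comp (measurable_pi_apply i)
  rw [Measure.map_map hun hm4, Measure.map_map hun (by fun_prop)] at h6
  refine Eq.trans ?_ (h6.trans ?_)
  · rfl
  · exact Measure.map_id

lemma perc_shapes (d : Site → Dat) :
    Percolates (wormsSet (shapes d).1 (shapes d).2) ↔ Perc (occOn Set.univ d) := by
  rw [percolates_iff]
  have h : wormsSet (shapes d).1 (shapes d).2 = occOn Set.univ d := by
    ext y
    simp only [wormsSet, shapes, dworm, worm, occOn, pts, Set.mem_ofPred_eq, Set.mem_univ,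
      true_and, Finset.mem_image, Finset.mem_range]
    constructor
    · rintro ⟨x, i, hi, h, ⟨t, ht, rfl⟩, rfl⟩
      exact ⟨x, i, hi, t, ht, rfl⟩
    · rintro ⟨x, i, hi, t, ht, rfl⟩
      exact ⟨x, i, hi, _, ⟨t, ht, rfl⟩, rfl⟩
  rw [h]

lemma measurableSet_percolates :
    MeasurableSet {ω : (Z3 → ℕ) × (Z3 × ℕ → Finset Z3) | Percolates (wormsSet ω.1 ω.2)} := by
  simp only [percolates_iff]
  refine measurableSet_perc (fun ω : (Z3 → ℕ) × (Z3 × ℕ → Finset Z3) => wormsSet ω.1 ω.2)
    fun y => ?_
  have h : {ω : (Z3 → ℕ) × (Z3 × ℕ → Finset Z3) | y ∈ wormsSet ω.1 ω.2} =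
      ⋃ x : Z3, ⋃ i : ℕ, ({ω | i < ω.1 x} ∩ {ω | y - x ∈ ω.2 (x, i)}) := by
    ext ω
    simp only [wormsSet, Set.mem_ofPred_eq, Set.mem_iUnion, Set.mem_inter_iff]
    constructor
    · rintro ⟨x, i, hi, h, hh, rfl⟩
      exact ⟨x, i, hi, by simpa using hh⟩
    · rintro ⟨x, i, hi, hh⟩
      exact ⟨x, i, hi, _, hh, by abel⟩
  rw [h]
  refine MeasurableSet.iUnion fun x => MeasurableSet.iUnion fun i => MeasurableSet.inter ?_ ?_
  · have h1 : Measurable fun ω : (Z3 → ℕ) × (Z3 × ℕ → Finset Z3) => ω.1 x :=
      (measurable_pi_apply x).comp measurable_fst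
    exact h1 (Set.to_countable {n : ℕ | i < n}).measurableSet
  · have h1 : Measurable fun ω : (Z3 → ℕ) × (Z3 × ℕ → Finset Z3) => ω.2 (x, i) :=
      (measurable_pi_apply (x, i)).comp measurable_snd
    exact h1 (Set.to_countable {A : Finset Z3 | y - x ∈ A}).measurableSet

/-- The percolation probability in the probability space of the proofs. -/
lemma percProb_eq (v : ℝ≥0) (m : PMF ℕ) : percProb v m =
    wormLaw (poissonPMF v).toMeasure m.toMeasure {ω | Perc (occOn Set.univ ω)} := by
  rw [percProb, ← map_shapes, Measure.map_apply measurable_shapes measurableSet_percolates]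
  congr 1
  ext d
  exact perc_shapes d

/-- Every realisation of the model has the same percolation probability. -/
lemma IsWormModel.prob_eq {v : ℝ≥0} {m : PMF ℕ} {Ω : Type*} [MeasurableSpace Ω] {P : Measure Ω}
    [IsProbabilityMeasure P] {N : Z3 → Ω → ℕ} {H : Z3 × ℕ → Ω → Finset Z3}
    (h : IsWormModel v m P N H) :
    P {ω | Percolates (wormsSet (fun x => N x ω) fun q => H q ω)} = percProb v m := by
  have h1 := h.indep_N.hasLaw_infinitePi h.law_N
    (aemeasurable_pi_iff.mpr fun x => (h.law_N x).aemeasurable)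
  have h2 := h.indep_H.hasLaw_infinitePi h.law_H
    (aemeasurable_pi_iff.mpr fun q => (h.law_H q).aemeasurable)
  have h3 := h.indep.hasLaw_prod h1 h2
  rw [percProb, ← h3.map_eq, Measure.map_apply_of_aemeasurable h3.aemeasurable
    measurableSet_percolates]
  rfl

/-! ### The critical level -/

/-- For `β < 5/2` the worms set percolates almost surely, for every positive level. -/
theorem percProb_one (β : ℝ) (hβ : β < 5 / 2) (m : PMF ℕ) (c : ℝ) (hc : 0 < c)
    (hm : ∀ ℓ : ℕ, 1 ≤ ℓ → c * (ℓ : ℝ) ^ (-β) ≤ (m ℓ).toReal) (v : ℝ≥0) (hv : 0 < v) :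
    percProb v m = 1 := by
  rw [percProb_eq]
  have hN : (poissonPMF v).toMeasure {n | 0 < n} ≠ 0 := by
    intro h0
    have h1 : (poissonPMF v).toMeasure {1} = 0 := by
      apply MeasureTheory.measure_mono_null _ h0
      rintro n rfl
      exact Nat.one_pos
    rw [PMF.toMeasure_apply_singleton _ _ (measurableSet_singleton 1),
      ← poissonPMFReal_ofReal_eq_poissonPMF, ENNReal.ofReal_eq_zero] at h1
    exact absurd (poissonPMFReal_pos hv) (not_lt.mpr h1)
  refine (perc_zero_one _ _).resolve_left ?_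
  refine perc_pos (poissonPMF v).toMeasure hN m c (max β 0) hc
    (le_max_right _ _) (max_lt hβ (by norm_num)) (fun ℓ hℓ => ?_)
  refine le_trans ?_ (hm ℓ hℓ)
  refine mul_le_mul_of_nonneg_left ?_ hc.le
  apply Real.rpow_le_rpow_of_exponent_le
  · exact_mod_cast hℓ
  · exact neg_le_neg (le_max_left _ _)

/-- For `β ≥ 5/2` the worms set does not percolate at small positive levels; `v₀` depends on the
constant `C` only. -/
theorem exists_percProb_zero (C : ℝ) (hC : 0 < C) :
    ∃ v₀ : ℝ≥0, 0 < v₀ ∧ ∀ (β : ℝ), 5 / 2 ≤ β → ∀ m : PMF ℕ, m 0 = 0 →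
      (∀ ℓ : ℕ, 1 ≤ ℓ → (m ℓ).toReal ≤ C * (ℓ : ℝ) ^ (-β)) → percProb v₀ m = 0 := by
  set K : NNReal := Real.toNNReal (C * (42 ^ 3 * 1026) * 4) + 27 with hK
  have hK0 : 0 < K := by positivity
  refine ⟨(4 * (8 ^ 3 * 40 ^ 3) * K)⁻¹, by positivity, fun β hβ m hm0 hm => ?_⟩
  rw [percProb_eq]
  refine Pool.Agent.Worm.no_perc _ m C hC.le hm0 (fun L hL => ?_) ?_
  · refine (hm L hL).trans ?_
    refine mul_le_mul_of_nonneg_left ?_ hC.le
    have hL1 : (1 : ℝ) ≤ L := by exact_mod_cast hL
    have hL0 : (0 : ℝ) < L := by linarith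
    have h1 : ((L : ℝ) ^ 2 * Real.sqrt L)⁻¹ = (L : ℝ) ^ (-(5 / 2 : ℝ)) := by
      rw [Real.rpow_neg hL0.le, Real.sqrt_eq_rpow, ← Real.rpow_natCast, ← Real.rpow_add hL0]
      norm_num
    rw [h1]
    exact Real.rpow_le_rpow_of_exponent_le hL1 (neg_le_neg hβ)
  · rw [Pool.Agent.Worm.lintegral_poisson]
    have h1 : ENNReal.ofReal (C * (42 ^ 3 * 1026) * 4) + 27 = (K : ENNReal) := by
      rw [hK, ENNReal.coe_add]
      rfl
    rw [h1]
    have h2 : 4 * (8 ^ 3 * 40 ^ 3) * ((4 * (8 ^ 3 * 40 ^ 3) * K)⁻¹ * K) = (1 : NNReal) := by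
      rw [← mul_assoc, mul_right_comm]
      exact mul_inv_cancel₀ (by positivity)
    have h3 : (4 * (8 ^ 3 * 40 ^ 3) * (((4 * (8 ^ 3 * 40 ^ 3) * K)⁻¹ : NNReal) * (K : ENNReal)) :
        ENNReal) = ((4 * (8 ^ 3 * 40 ^ 3) * ((4 * (8 ^ 3 * 40 ^ 3) * K)⁻¹ * K) : NNReal) :
          ENNReal) := by
      push_cast
      rfl
    rw [h3, h2]
    simp

theorem criticalLevel_pos_iff (β : ℝ) (m : PMF ℕ) (hm0 : m 0 = 0) (c C : ℝ) (hc : 0 < c)
    (hC : 0 < C) (hm : ∀ ℓ : ℕ, 1 ≤ ℓ →
      c * (ℓ : ℝ) ^ (-β) ≤ (m ℓ).toReal ∧ (m ℓ).toReal ≤ C * (ℓ : ℝ) ^ (-β)) :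
    0 < criticalLevel m ↔ 5 / 2 ≤ β := by
  constructor
  · intro h
    by_contra hβ
    rw [not_le] at hβ
    refine absurd h (not_lt.mpr ?_)
    refine iSup_le fun v => iSup_le fun hv => ?_
    rcases eq_or_ne v 0 with rfl | hv0
    · simp
    · rw [percProb_one β hβ m c hc (fun ℓ hℓ => (hm ℓ hℓ).1) v (pos_iff_ne_zero.mpr hv0)] at hv
      exact absurd hv one_ne_zero
  · intro hβ
    obtain ⟨v, hv, h⟩ := exists_percProb_zero C hC
    have h1 : (v : ℝ≥0∞) ≤ criticalLevel m :=
      le_iSup₂_of_le v (h β hβ m hm0 fun ℓ hℓ => (hm ℓ hℓ).2) le_rfl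
    exact lt_of_lt_of_le (by exact_mod_cast hv) h1

end Pool.Agent.Worm.Lit
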