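import Mathlib
import Pool.Agent.Lib.MP_b9fdbf_pr.Base

set_option autoImplicit false

section SingleSec
open MeasureTheory Measure ProbabilityTheory
open scoped ENNReal

namespace Pool.Agent.Worm

/-- the function controlling the contribution of length `L` -/
noncomputable def phi (α L : ℕ) : ℝ :=
  if L < α ^ 2 then (Real.sqrt L)⁻¹ / α else α * ((L : ℝ) * Real.sqrt L)⁻¹

noncomputable def bigF (α : ℕ) (x : ℕ) : ℝ :=
  if x ≤ α ^ 2 then 2 * Real.sqrt x / α else 4 - 2 * α / Real.sqrt x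

lemma bigF_le (α x : ℕ) (hα : 1 ≤ α) : bigF α x ≤ 4 := by
  unfold bigF
  have hα' : (0 : ℝ) < α := by exact_mod_cast hα
  split_ifs with h
  · have : Real.sqrt x ≤ α := by
      rw [Real.sqrt_le_left hα'.le]
      exact_mod_cast h
    rw [div_le_iff₀ hα']
    linarith
  · have : 0 ≤ 2 * (α : ℝ) / Real.sqrt x := by positivity
    linarith

lemma phi_le_diff (α L : ℕ) (hα : 1 ≤ α) : phi α (L + 1) ≤ bigF α (L + 1) - bigF α L := by
  have hα' : (0 : ℝ) < α := by exact_mod_cast hα
  have hα1 : (1 : ℝ) ≤ α := by exact_mod_cast hα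
  set a : ℝ := Real.sqrt ((L + 1 : ℕ) : ℝ) with ha
  set b : ℝ := Real.sqrt (L : ℝ) with hb
  have hL0 : (0 : ℝ) ≤ L := Nat.cast_nonneg L
  have ha2 : a ^ 2 = L + 1 := by
    rw [ha, Real.sq_sqrt (by positivity)]; push_cast; ring
  have hb2 : b ^ 2 = L := by rw [hb, Real.sq_sqrt hL0]
  have hb0 : 0 ≤ b := Real.sqrt_nonneg _
  have ha0 : 0 < a := by rw [ha]; positivity
  have hab : b ≤ a := by
    apply Real.sqrt_le_sqrt
    push_cast; linarith
  have hdiff : (a - b) * (a + b) = 1 := by nlinarith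
  have hkey : a⁻¹ ≤ 2 * (a - b) := by
    rw [inv_le_iff_one_le_mul₀ ha0]
    nlinarith
  unfold phi bigF
  by_cases h1 : L + 1 ≤ α ^ 2
  · have h2 : L ≤ α ^ 2 := by omega
    rw [if_pos h1, if_pos h2]
    have h3 : (if L + 1 < α ^ 2 then (Real.sqrt ((L + 1 : ℕ) : ℝ))⁻¹ / α
        else α * (((L + 1 : ℕ) : ℝ) * Real.sqrt ((L + 1 : ℕ) : ℝ))⁻¹) = a⁻¹ / α := by
      split_ifs with h4
      · rfl
      · have h5 : L + 1 = α ^ 2 := by omega
        have h6 : ((L + 1 : ℕ) : ℝ) = (α : ℝ) ^ 2 := by exact_mod_cast h5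
        have h7 : a = α := by
          rw [ha, h6, Real.sqrt_sq hα'.le]
        rw [← ha, h6, h7]
        field_simp
    rw [h3, ← ha, ← hb, ← sub_div]
    apply div_le_div_of_nonneg_right _ hα'.le
    linarith
  · rw [if_neg h1, if_neg (by omega : ¬ (L + 1 < α ^ 2))]
    have hLpos : (α : ℝ) ^ 2 ≤ L := by
      have : α ^ 2 ≤ L := by omega
      exact_mod_cast this
    have hbα : (α : ℝ) ≤ b := by
      rw [hb]; exact Real.le_sqrt_of_sq_le hLpos
    have hbpos : 0 < b := lt_of_lt_of_le hα' hbα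
    have hmain : α * (((L + 1 : ℕ) : ℝ) * a)⁻¹ ≤ 2 * α / b - 2 * α / a := by
      have h8 : ((L + 1 : ℕ) : ℝ) = a ^ 2 := by rw [ha2]; push_cast; ring
      rw [h8]
      have h9 : 2 * (α : ℝ) / b - 2 * α / a = α * (2 * (a - b) / (a * b)) := by
        field_simp
      rw [h9]
      apply mul_le_mul_of_nonneg_left _ hα'.le
      rw [inv_eq_one_div, div_le_div_iff₀ (by positivity) (by positivity)]
      have h10 : 1 ≤ 2 * (a - b) * a := by
        have := mul_le_mul_of_nonneg_right hkey ha0.le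
        rwa [inv_mul_cancel₀ ha0.ne'] at this
      have h11 : a * b ≤ a * a := by nlinarith
      nlinarith [mul_le_mul h10 h11 (by positivity) (by nlinarith)]
    by_cases h2 : L ≤ α ^ 2
    · rw [if_pos h2]
      have h5 : L = α ^ 2 := by omega
      have h6 : (L : ℝ) = (α : ℝ) ^ 2 := by exact_mod_cast h5
      have h7 : b = α := by rw [hb, h6, Real.sqrt_sq hα'.le]
      rw [← ha, ← hb]
      rw [h7] at hmain ⊢
      have h12 : 2 * (α : ℝ) / α = 2 := by field_simp
      rw [h12] at hmain ⊢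
      linarith
    · rw [if_neg h2, ← ha, ← hb]
      linarith

lemma sum_phi_le (α : ℕ) (hα : 1 ≤ α) (N : ℕ) :
    ∑ L ∈ Finset.range N, phi α (L + 1) ≤ 4 := by
  have h : ∑ L ∈ Finset.range N, phi α (L + 1) ≤ bigF α N - bigF α 0 := by
    induction N with
    | zero => simp
    | succ N ih =>
      rw [Finset.sum_range_succ]
      have := phi_le_diff α N hα
      linarith
  have h0 : bigF α 0 = 0 := by simp [bigF]
  have := bigF_le α N hα
  linarith

lemma phi_nonneg (α L : ℕ) : 0 ≤ phi α L := by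
  unfold phi; split_ifs <;> positivity

/-- Expected number of sites from which a single worm is large at scale `α` and visits a given box
of side `40 α`. -/
theorem single_worm_bound (m : PMF ℕ) (C : ℝ) (hC : 0 ≤ C) (hm0 : m 0 = 0)
    (hm : ∀ L : ℕ, 1 ≤ L → (m L).toReal ≤ C * ((L : ℝ) ^ 2 * Real.sqrt L)⁻¹)
    (α : ℕ) (hα : 1 ≤ α) (c : Site) :
    ∫⁻ L, ∫⁻ σ, {σ : ℕ → Fin 6 | Large α σ L}.indicator
      (fun σ => ((visits c (40 * α) σ L).card : ℝ≥0∞)) σ ∂stepLaw ∂m.toMeasure ≤
      ENNReal.ofReal (C * (42 ^ 3 * 1026) * 4) := by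
  have hα' : (0 : ℝ) < α := by exact_mod_cast hα
  have hα0 : (α : ℝ≥0∞) ≠ 0 := by
    simp only [ne_eq, Nat.cast_eq_zero]; omega
  have hαt : (α : ℝ≥0∞) ≠ ∞ := ENNReal.natCast_ne_top α
  rw [lintegral_countable']
  have hterm : ∀ L : ℕ, (∫⁻ σ, {σ : ℕ → Fin 6 | Large α σ L}.indicator
      (fun σ => ((visits c (40 * α) σ L).card : ℝ≥0∞)) σ ∂stepLaw) * m.toMeasure {L} ≤
      if L = 0 then 0 else ENNReal.ofReal (C * (42 ^ 3 * 1026) * phi α L) := by
    intro L
    rw [PMF.toMeasure_apply_singleton _ _ (measurableSet_singleton L)]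
    split_ifs with hL0
    · rw [hL0, hm0, mul_zero]
    · have hL1 : 1 ≤ L := by omega
      have hLpos : (0 : ℝ) < L := by exact_mod_cast hL1
      have hsq : 0 < Real.sqrt L := Real.sqrt_pos.mpr hLpos
      have hmL : m L ≤ ENNReal.ofReal (C * ((L : ℝ) ^ 2 * Real.sqrt L)⁻¹) := by
        rw [← ENNReal.ofReal_toReal (m.apply_ne_top L)]
        exact ENNReal.ofReal_le_ofReal (hm L hL1)
      by_cases hlt : L < α ^ 2
      · have h1 := lintegral_visits_large c α L
        have h2 : (∫⁻ σ, {σ : ℕ → Fin 6 | Large α σ L}.indicator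
            (fun σ => ((visits c (40 * α) σ L).card : ℝ≥0∞)) σ ∂stepLaw) ≤
            ENNReal.ofReal (42 ^ 3 * 512 * (L : ℝ) ^ 2 / α) := by
          have h3 : ENNReal.ofReal (42 ^ 3 * 512 * (L : ℝ) ^ 2 / α) =
              (42 ^ 3 * 512 * (L : ℝ≥0∞) ^ 2) / α := by
            rw [ENNReal.ofReal_div_of_pos hα', ENNReal.ofReal_natCast,
              ENNReal.ofReal_mul (by norm_num), ENNReal.ofReal_pow (by positivity),
              ENNReal.ofReal_natCast]
            congr 2
            rw [show ((42 : ℝ) ^ 3 * 512) = ((42 ^ 3 * 512 : ℕ) : ℝ) by norm_num,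
              ENNReal.ofReal_natCast]
            norm_num
          rw [h3, ENNReal.le_div_iff_mul_le (Or.inl hα0) (Or.inl hαt), mul_comm]
          exact h1
        calc _ ≤ ENNReal.ofReal (42 ^ 3 * 512 * (L : ℝ) ^ 2 / α) *
              ENNReal.ofReal (C * ((L : ℝ) ^ 2 * Real.sqrt L)⁻¹) := mul_le_mul' h2 hmL
          _ = ENNReal.ofReal (42 ^ 3 * 512 * (L : ℝ) ^ 2 / α *
              (C * ((L : ℝ) ^ 2 * Real.sqrt L)⁻¹)) := by
              exact (ENNReal.ofReal_mul (by positivity)).symm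
          _ ≤ _ := by
              apply ENNReal.ofReal_le_ofReal
              rw [phi, if_pos hlt]
              have h4 : 42 ^ 3 * 512 * (L : ℝ) ^ 2 / α * (C * ((L : ℝ) ^ 2 * Real.sqrt L)⁻¹) =
                  42 ^ 3 * 512 * (C * ((Real.sqrt L)⁻¹ / α)) := by
                field_simp
              rw [h4]
              have h5 : 0 ≤ C * ((Real.sqrt L)⁻¹ / α) := by positivity
              nlinarith
      · have h1 := lintegral_visits_long c α L hα (not_lt.mp hlt)
        have h2 : (∫⁻ σ, {σ : ℕ → Fin 6 | Large α σ L}.indicator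
            (fun σ => ((visits c (40 * α) σ L).card : ℝ≥0∞)) σ ∂stepLaw) ≤
            ENNReal.ofReal (42 ^ 3 * 1026 * α * L) := by
          have h3 : ENNReal.ofReal (42 ^ 3 * 1026 * α * (L : ℝ)) =
              (42 ^ 3 * 1026 * (α : ℝ≥0∞) * L) := by
            rw [ENNReal.ofReal_mul (by positivity), ENNReal.ofReal_natCast,
              ENNReal.ofReal_mul (by norm_num), ENNReal.ofReal_natCast]
            congr 2
            rw [show ((42 : ℝ) ^ 3 * 1026) = ((42 ^ 3 * 1026 : ℕ) : ℝ) by norm_num,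
              ENNReal.ofReal_natCast]
            norm_num
          rw [h3]
          refine le_trans (lintegral_mono fun σ => ?_) h1
          exact Set.indicator_le_self _ _ _
        calc _ ≤ ENNReal.ofReal (42 ^ 3 * 1026 * α * L) *
              ENNReal.ofReal (C * ((L : ℝ) ^ 2 * Real.sqrt L)⁻¹) := mul_le_mul' h2 hmL
          _ = ENNReal.ofReal (42 ^ 3 * 1026 * α * L *
              (C * ((L : ℝ) ^ 2 * Real.sqrt L)⁻¹)) := by
              exact (ENNReal.ofReal_mul (by positivity)).symm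
          _ ≤ _ := by
              apply ENNReal.ofReal_le_ofReal
              rw [phi, if_neg hlt]
              apply le_of_eq
              field_simp
  refine (ENNReal.tsum_le_tsum hterm).trans ?_
  rw [tsum_eq_zero_add' ENNReal.summable]
  simp only [if_true, zero_add, Nat.succ_ne_zero, if_false]
  refine ENNReal.tsum_le_of_sum_range_le fun N => ?_
  rw [← ENNReal.ofReal_sum_of_nonneg]
  · apply ENNReal.ofReal_le_ofReal
    rw [← Finset.mul_sum]
    have := sum_phi_le α hα N
    apply mul_le_mul_of_nonneg_left this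
    positivity
  · intro L _
    have := phi_nonneg α (L + 1)
    positivity

end Pool.Agent.Worm

end SingleSec

section SiteBadSec
set_option linter.deprecated false

open MeasureTheory Measure ProbabilityTheory
open scoped ENNReal NNReal

namespace Pool.Agent.Worm

/-- The `i`-th worm at a site: its length and its steps. -/
def wormOf (d : Dat) (i : ℕ) : ℕ × (ℕ → Fin 6) := (d.2.1 i, fun k => d.2.2 (i, k))

@[fun_prop]
lemma measurable_wormOf (i : ℕ) : Measurable (fun d : Dat => wormOf d i) := by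
  unfold wormOf
  fun_prop

lemma map_worm (m : Measure ℕ) [IsProbabilityMeasure m] (i : ℕ) :
    ((infinitePi (fun _ : ℕ => m)).prod (infinitePi (fun _ : ℕ × ℕ => uni))).map
      (fun e : (ℕ → ℕ) × (ℕ × ℕ → Fin 6) => (e.1 i, fun k => e.2 (i, k))) = m.prod stepLaw := by
  have h1 : (infinitePi (fun _ : ℕ => m)).map (fun L : ℕ → ℕ => L i) = m :=
    infinitePi_map_eval (fun _ : ℕ => m) i
  have h2 : (infinitePi (fun _ : ℕ × ℕ => uni)).map
      (fun (S : ℕ × ℕ → Fin 6) (k : ℕ) => S (i, k)) = stepLaw := by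
    unfold stepLaw
    exact map_infinitePi_infinitePi_of_inj (P := fun _ : ℕ × ℕ => uni) (f := fun k : ℕ => (i, k))
      (fun a b h => by simpa using h)
  conv_rhs => rw [← h1, ← h2]
  rw [Measure.map_prod_map _ _ (by fun_prop) (by fun_prop)]
  rfl

lemma datLaw_worm (N m : Measure ℕ) [IsProbabilityMeasure N] [IsProbabilityMeasure m] (i : ℕ)
    (Q : Set (ℕ × (ℕ → Fin 6))) (hQ : MeasurableSet Q) :
    datLaw N m {d | i < d.1 ∧ wormOf d i ∈ Q} = N {n | i < n} * (m.prod stepLaw) Q := by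
  have hset : {d : Dat | i < d.1 ∧ wormOf d i ∈ Q} = {n | i < n} ×ˢ
      ((fun e : (ℕ → ℕ) × (ℕ × ℕ → Fin 6) => (e.1 i, fun k => e.2 (i, k))) ⁻¹' Q) := by
    ext d
    simp [wormOf]
  rw [hset, datLaw, Measure.prod_prod, ← map_worm m i, Measure.map_apply (by fun_prop) hQ]

/-- Some worm started at `x` (with data `d`) has displacement `> α` and visits the box. -/
def BadAt (α : ℕ) (c x : Site) (d : Dat) : Prop :=
  ∃ i < d.1, Large α (wormOf d i).2 (wormOf d i).1 ∧
    ∃ j < (wormOf d i).1, x + walk (wormOf d i).2 j ∈ box c (40 * α)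

def badSet (α : ℕ) (c x : Site) : Set (ℕ × (ℕ → Fin 6)) :=
  {p | Large α p.2 p.1 ∧ x ∈ visits c (40 * α) p.2 p.1}

lemma measurableSet_badSet (α : ℕ) (c x : Site) : MeasurableSet (badSet α c x) := by
  have : badSet α c x = ⋃ L : ℕ, {L} ×ˢ ({σ | Large α σ L} ∩
      ⋃ j ∈ Finset.range L, (fun σ : ℕ → Fin 6 => x + walk σ j) ⁻¹' (box c (40 * α))) := by
    ext ⟨L, σ⟩
    simp only [badSet, Set.mem_ofPred_eq, mem_visits, Set.mem_iUnion, Set.mem_prod,
      Set.mem_singleton_iff, Set.mem_inter_iff, Set.mem_preimage, Finset.mem_coe,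
      Finset.mem_range, exists_prop]
    constructor
    · rintro ⟨h1, h2⟩
      exact ⟨L, rfl, h1, h2⟩
    · rintro ⟨L', rfl, h1, h2⟩
      exact ⟨h1, h2⟩
  rw [this]
  refine MeasurableSet.iUnion fun L => ?_
  refine (measurableSet_singleton L).prod ((measurableSet_large α L).inter ?_)
  refine Finset.measurableSet_biUnion _ fun j _ => ?_
  exact (measurable_const.add (measurable_walk j)) (Set.to_countable _).measurableSet

lemma setOf_badAt (α : ℕ) (c x : Site) :
    {d : Dat | BadAt α c x d} = ⋃ i : ℕ, {d | i < d.1 ∧ wormOf d i ∈ badSet α c x} := by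
  ext d
  simp only [BadAt, badSet, mem_visits, Set.mem_ofPred_eq, Set.mem_iUnion]

lemma measurableSet_badAt (α : ℕ) (c x : Site) : MeasurableSet {d : Dat | BadAt α c x d} := by
  rw [setOf_badAt]
  refine MeasurableSet.iUnion fun i => ?_
  have h1 : MeasurableSet {d : Dat | i < d.1} :=
    measurable_fst (Set.to_countable {n : ℕ | i < n}).measurableSet
  exact h1.inter (measurable_wormOf i (measurableSet_badSet α c x))

/-- Expected number of worms. -/
lemma tsum_gt (N : Measure ℕ) : ∑' i : ℕ, N {n | i < n} = ∫⁻ n, (n : ℝ≥0∞) ∂N := by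
  have h1 : ∀ i : ℕ, N {n | i < n} = ∫⁻ n, ({n | i < n} : Set ℕ).indicator 1 n ∂N := by
    intro i
    rw [lintegral_indicator_one (Set.to_countable _).measurableSet]
  simp_rw [h1]
  rw [← lintegral_tsum (fun i => (measurable_of_countable _).aemeasurable)]
  refine lintegral_congr fun n => ?_
  rw [tsum_eq_sum (s := Finset.range n)]
  · rw [Finset.sum_congr rfl (g := fun _ => (1 : ℝ≥0∞))]
    · simp
    · intro i hi
      rw [Set.indicator_of_mem]
      · rfl
      · exact Finset.mem_range.mp hi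
  · intro i hi
    rw [Set.indicator_of_notMem]
    intro h
    exact hi (Finset.mem_range.mpr h)

lemma lintegral_poisson (v : ℝ≥0) : ∫⁻ n, (n : ℝ≥0∞) ∂(poissonPMF v).toMeasure = v := by
  rw [lintegral_countable']
  have hterm : ∀ n : ℕ, (n : ℝ≥0∞) * (poissonPMF v).toMeasure {n} =
      (n : ℝ≥0∞) * poissonPMF v n := by
    intro n
    rw [PMF.toMeasure_apply_singleton _ _ (measurableSet_singleton n)]
  simp_rw [hterm]
  rw [tsum_eq_zero_add' ENNReal.summable]
  simp only [Nat.cast_zero, zero_mul, zero_add]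
  have hstep : ∀ n : ℕ, ((n + 1 : ℕ) : ℝ≥0∞) * poissonPMF v (n + 1) = v * poissonPMF v n := by
    intro n
    have h1 : ∀ k, poissonPMF v k = ENNReal.ofReal (poissonPMFReal v k) := fun k => by
      rw [poissonPMFReal_ofReal_eq_poissonPMF]
    rw [h1, h1, ← ENNReal.ofReal_natCast, ← ENNReal.ofReal_mul (by positivity)]
    rw [← ENNReal.ofReal_coe_nnreal, ← ENNReal.ofReal_mul (by positivity)]
    congr 1
    unfold poissonPMFReal
    have h2 : ((n + 1).factorial : ℝ) = (n + 1) * n.factorial := by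
      rw [Nat.factorial_succ]; push_cast; ring
    rw [h2]
    have h3 : ((n : ℝ) + 1) ≠ 0 := by positivity
    have h4 : (n.factorial : ℝ) ≠ 0 := by positivity
    push_cast
    field_simp
    ring
  simp_rw [hstep]
  rw [ENNReal.tsum_mul_left, PMF.tsum_coe, mul_one]

/-- Expected number of sites with a bad worm. -/
theorem tsum_badAt_le (N : Measure ℕ) [IsProbabilityMeasure N] (m : PMF ℕ) (C : ℝ) (hC : 0 ≤ C)
    (hm0 : m 0 = 0)
    (hm : ∀ L : ℕ, 1 ≤ L → (m L).toReal ≤ C * ((L : ℝ) ^ 2 * Real.sqrt L)⁻¹)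
    (α : ℕ) (hα : 1 ≤ α) (c : Site) :
    ∑' x : Site, datLaw N m.toMeasure {d | BadAt α c x d} ≤
      (∫⁻ n, (n : ℝ≥0∞) ∂N) * ENNReal.ofReal (C * (42 ^ 3 * 1026) * 4) := by
  have h1 : ∀ x : Site, datLaw N m.toMeasure {d | BadAt α c x d} ≤
      (∑' i : ℕ, N {n | i < n}) * (m.toMeasure.prod stepLaw) (badSet α c x) := by
    intro x
    rw [setOf_badAt, ← ENNReal.tsum_mul_right]
    refine (measure_iUnion_le _).trans ?_
    refine ENNReal.tsum_le_tsum fun i => ?_
    rw [datLaw_worm _ _ _ _ (measurableSet_badSet α c x)]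
  refine (ENNReal.tsum_le_tsum h1).trans ?_
  rw [ENNReal.tsum_mul_left, tsum_gt]
  gcongr
  have h2 : ∀ x : Site, (m.toMeasure.prod stepLaw) (badSet α c x) =
      ∫⁻ L, ∫⁻ σ, (badSet α c x).indicator 1 (L, σ) ∂stepLaw ∂m.toMeasure := by
    intro x
    rw [Measure.prod_apply (measurableSet_badSet α c x)]
    refine lintegral_congr fun L => ?_
    rw [← lintegral_indicator_one (measurable_prodMk_left (measurableSet_badSet α c x))]
    rfl
  have hmeas : ∀ x L, Measurable (fun σ : ℕ → Fin 6 =>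
      (badSet α c x).indicator (1 : ℕ × (ℕ → Fin 6) → ℝ≥0∞) (L, σ)) := by
    intro x L
    exact (measurable_one.indicator (measurableSet_badSet α c x)).comp measurable_prodMk_left
  simp_rw [h2]
  rw [← lintegral_tsum (fun x => (measurable_of_countable _).aemeasurable)]
  have h3 : ∀ L : ℕ, ∑' x : Site, ∫⁻ σ, (badSet α c x).indicator 1 (L, σ) ∂stepLaw =
      ∫⁻ σ, {σ : ℕ → Fin 6 | Large α σ L}.indicator
      (fun σ => ((visits c (40 * α) σ L).card : ℝ≥0∞)) σ ∂stepLaw := by
    intro L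
    rw [← lintegral_tsum (fun x => (hmeas x L).aemeasurable)]
    refine lintegral_congr fun σ => ?_
    by_cases hL : Large α σ L
    · rw [Set.indicator_of_mem (by exact hL)]
      rw [tsum_eq_sum (s := visits c (40 * α) σ L)]
      · rw [Finset.sum_congr rfl (g := fun _ => (1 : ℝ≥0∞))]
        · simp
        · intro x hx
          rw [Set.indicator_of_mem]
          · rfl
          · exact ⟨hL, hx⟩
      · intro x hx
        rw [Set.indicator_of_notMem]
        rintro ⟨_, h⟩
        exact hx h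
    · rw [Set.indicator_of_notMem (by exact hL)]
      rw [ENNReal.tsum_eq_zero]
      intro x
      rw [Set.indicator_of_notMem]
      rintro ⟨h, _⟩
      exact hL h
  simp_rw [h3]
  exact single_worm_bound m C hC hm0 hm α hα c

end Pool.Agent.Worm

end SiteBadSec

section PercSec
open MeasureTheory Measure ProbabilityTheory
open scoped ENNReal NNReal

namespace Pool.Agent.Worm

/-- Nearest neighbour adjacency. -/
def Adj (a b : Site) : Prop := |b.1 - a.1| + |b.2.1 - a.2.1| + |b.2.2 - a.2.2| = 1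

lemma Adj.symm {a b : Site} (h : Adj a b) : Adj b a := by
  unfold Adj at h ⊢
  rw [abs_sub_comm a.1, abs_sub_comm a.2.1, abs_sub_comm a.2.2]
  exact h

lemma Adj.nrm_le {a b : Site} (h : Adj a b) : nrm (b - a) ≤ 1 := by
  unfold Adj at h
  rw [nrm_le_iff]
  simp only [Prod.fst_sub, Prod.snd_sub]
  have h1 := abs_nonneg (b.1 - a.1)
  have h2 := abs_nonneg (b.2.1 - a.2.1)
  have h3 := abs_nonneg (b.2.2 - a.2.2)
  refine ⟨?_, ?_, ?_⟩ <;> (zify; linarith)

lemma adj_vec (a : Site) (e : Fin 6) : Adj a (a + vec e) := by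
  unfold Adj
  fin_cases e <;> simp [vec]

/-- There is an infinite self-avoiding path in `A`. -/
def Perc (A : Set Site) : Prop :=
  ∃ p : ℕ → Site, Function.Injective p ∧ ∀ n, Adj (p n) (p (n + 1)) ∧ p n ∈ A

/-- There is a self-avoiding path with `n` steps in `A` starting from `x`. -/
def PathFrom (A : Set Site) (x : Site) (n : ℕ) : Prop :=
  ∃ p : ℕ → Site, p 0 = x ∧ Set.InjOn p (Set.Iic n) ∧ (∀ i < n, Adj (p i) (p (i + 1))) ∧
    ∀ i ≤ n, p i ∈ A

/-- König's lemma. -/
theorem perc_of_pathFrom {A : Set Site} {x : Site} (h : ∀ n, PathFrom A x n) : Perc A := by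
  classical
  -- compact set of candidate paths
  set K : Set (ℕ → Site) := Set.univ.pi (fun i => {y : Site | nrm (y - x) ≤ i}) with hK
  have hfin : ∀ i : ℕ, {y : Site | nrm (y - x) ≤ i}.Finite := by
    intro i
    refine Set.Finite.subset (box (x - ((i : ℤ), (i : ℤ), (i : ℤ))) (2 * i + 1)).finite_toSet ?_
    intro y hy
    have := (nrm_le_iff _ _).mp hy
    rw [Finset.mem_coe, mem_box]
    simp only [Prod.fst_sub, Prod.snd_sub] at this ⊢
    push_cast
    omega
  have hKc : IsCompact K := isCompact_univ_pi fun i => (hfin i).isCompact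
  set F : ℕ → Set (ℕ → Site) := fun n => {p | p ∈ K ∧ p 0 = x ∧ Set.InjOn p (Set.Iic n) ∧
    (∀ i < n, Adj (p i) (p (i + 1))) ∧ ∀ i ≤ n, p i ∈ A} with hF
  have hclosed : ∀ n, IsClosed (F n) := by
    intro n
    have h1 : F n = K ∩ ({p | p 0 = x} ∩ ((⋂ i ∈ Set.Iic n, ⋂ j ∈ Set.Iic n,
        {p : ℕ → Site | p i = p j → i = j}) ∩ ((⋂ i ∈ Set.Iio n, {p | Adj (p i) (p (i + 1))}) ∩
        ⋂ i ∈ Set.Iic n, {p | p i ∈ A}))) := by
      ext p
      simp only [hF, Set.mem_ofPred_eq, Set.mem_inter_iff, Set.mem_iInter, Set.mem_Iic,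
        Set.mem_Iio]
      constructor
      · rintro ⟨h1, h2, h3, h4, h5⟩
        exact ⟨h1, h2, fun i hi j hj hij => h3 hi hj hij, h4, h5⟩
      · rintro ⟨h1, h2, h3, h4, h5⟩
        exact ⟨h1, h2, fun i hi j hj hij => h3 i hi j hj hij, h4, h5⟩
    rw [h1]
    refine hKc.isClosed.inter (IsClosed.inter ?_ (IsClosed.inter ?_ (IsClosed.inter ?_ ?_)))
    · change IsClosed ((fun p : ℕ → Site => p 0) ⁻¹' {x})
      exact IsClosed.preimage (by fun_prop) (isClosed_discrete _)
    · refine isClosed_biInter fun i _ => isClosed_biInter fun j _ => ?_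
      change IsClosed ((fun p : ℕ → Site => (p i, p j)) ⁻¹' {q | q.1 = q.2 → i = j})
      exact IsClosed.preimage (by fun_prop) (isClosed_discrete _)
    · refine isClosed_biInter fun i _ => ?_
      change IsClosed ((fun p : ℕ → Site => (p i, p (i + 1))) ⁻¹' {q | Adj q.1 q.2})
      exact IsClosed.preimage (by fun_prop) (isClosed_discrete _)
    · refine isClosed_biInter fun i _ => ?_
      change IsClosed ((fun p : ℕ → Site => p i) ⁻¹' A)
      exact IsClosed.preimage (by fun_prop) (isClosed_discrete _)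
  have hne : ∀ n, (F n).Nonempty := by
    intro n
    obtain ⟨p, hp0, hinj, hadj, hA⟩ := h n
    refine ⟨fun i => p (min i n), ?_, ?_, ?_, ?_, ?_⟩
    · rw [hK, Set.mem_univ_pi]
      intro i
      have hnr : ∀ k ≤ n, nrm (p k - x) ≤ k := by
        intro k
        induction k with
        | zero => intro _; rw [hp0, sub_self, nrm_zero]
        | succ k ih =>
          intro hk
          have h1 := ih (by omega)
          have h2 := (hadj k (by omega)).nrm_le
          have h3 : p (k + 1) - x = (p (k + 1) - p k) + (p k - x) := by abel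
          rw [h3]
          exact (nrm_add_le _ _).trans (by omega)
      exact (hnr (min i n) (min_le_right _ _)).trans (min_le_left _ _)
    · simpa using hp0
    · intro i hi j hj hij
      simp only [Set.mem_Iic] at hi hj
      simp only [min_eq_left hi, min_eq_left hj] at hij
      exact hinj hi hj hij
    · intro i hi
      simp only
      rw [min_eq_left hi.le, min_eq_left (by omega : i + 1 ≤ n)]
      exact hadj i hi
    · intro i hi
      exact hA _ (min_le_right _ _)
  have hanti : ∀ n, F (n + 1) ⊆ F n := by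
    rintro n p ⟨h1, h2, h3, h4, h5⟩
    exact ⟨h1, h2, h3.mono (Set.Iic_subset_Iic.mpr (by omega)), fun i hi => h4 i (by omega),
      fun i hi => h5 i (by omega)⟩
  have hF0 : IsCompact (F 0) := hKc.of_isClosed_subset (hclosed 0) (fun p hp => hp.1)
  obtain ⟨p, hp⟩ := IsCompact.nonempty_iInter_of_sequence_nonempty_isCompact_isClosed F hanti hne
    hF0 hclosed
  rw [Set.mem_iInter] at hp
  refine ⟨p, ?_, ?_⟩
  · intro i j hij
    exact (hp (max i j)).2.2.1 (le_max_left i j) (le_max_right i j) hij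
  · intro n
    exact ⟨(hp (n + 1)).2.2.2.1 n (by omega), (hp n).2.2.2.2 n le_rfl⟩

theorem perc_iff (A : Set Site) : Perc A ↔ ∃ x, ∀ n, PathFrom A x n := by
  constructor
  · rintro ⟨p, hinj, hp⟩
    exact ⟨p 0, fun n => ⟨p, rfl, hinj.injOn, fun i _ => (hp i).1, fun i _ => (hp i).2⟩⟩
  · rintro ⟨x, hx⟩
    exact perc_of_pathFrom hx

/-- Measurability of the percolation event for a random set. -/
theorem measurableSet_perc {Ω : Type*} {mΩ : MeasurableSpace Ω} (A : Ω → Set Site)
    (hA : ∀ y, MeasurableSet {ω | y ∈ A ω}) : MeasurableSet {ω | Perc (A ω)} := by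
  have h1 : {ω | Perc (A ω)} = ⋃ x : Site, ⋂ n : ℕ, ⋃ q : {q : Fin (n + 1) → Site // q 0 = x ∧
      Function.Injective q ∧ ∀ i : Fin n, Adj (q i.castSucc) (q i.succ)},
      ⋂ i : Fin (n + 1), {ω | q.1 i ∈ A ω} := by
    ext ω
    simp only [Set.mem_ofPred_eq, Set.mem_iUnion, Set.mem_iInter, perc_iff]
    refine exists_congr fun x => forall_congr' fun n => ?_
    constructor
    · rintro ⟨p, hp0, hinj, hadj, hpA⟩
      refine ⟨⟨fun i => p i, ?_, ?_, ?_⟩, ?_⟩
      · simpa using hp0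
      · intro i j hij
        exact Fin.ext (hinj (show (i : ℕ) ≤ n by omega) (show (j : ℕ) ≤ n by omega) hij)
      · intro i
        simpa using hadj i i.2
      · intro i
        exact hpA i (by omega)
    · rintro ⟨⟨q, hq0, hinj, hadj⟩, hqA⟩
      refine ⟨fun i => if h : i < n + 1 then q ⟨i, h⟩ else x, ?_, ?_, ?_, ?_⟩
      · simpa using hq0
      · intro i hi j hj hij
        have hi' : i < n + 1 := Nat.lt_succ_of_le hi
        have hj' : j < n + 1 := Nat.lt_succ_of_le hj
        simp only [dif_pos hi', dif_pos hj'] at hij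
        simpa using hinj hij
      · intro i hi
        have h1 : i < n + 1 := by omega
        have h2 : i + 1 < n + 1 := by omega
        simp only [dif_pos h1, dif_pos h2]
        exact hadj ⟨i, hi⟩
      · intro i hi
        have h1 : i < n + 1 := by omega
        simp only [dif_pos h1]
        exact hqA ⟨i, h1⟩
  rw [h1]
  refine MeasurableSet.iUnion fun x => MeasurableSet.iInter fun n => MeasurableSet.iUnion fun q =>
    MeasurableSet.iInter fun i => hA _

end Pool.Agent.Worm

end PercSec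

section ZeroOneSec
open MeasureTheory Measure ProbabilityTheory
open scoped ENNReal NNReal

namespace Pool.Agent.Worm

/-- The points visited by the worms started at `x` when the data at `x` is `d`. -/
def pts (x : Site) (d : Dat) : Set Site :=
  {y | ∃ i, i < d.1 ∧ ∃ j, j < (wormOf d i).1 ∧ y = x + walk (wormOf d i).2 j}

lemma measurableSet_mem_pts (x y : Site) : MeasurableSet {d : Dat | y ∈ pts x d} := by
  have h : {d : Dat | y ∈ pts x d} = ⋃ i : ℕ, ⋃ j : ℕ, ({d : Dat | i < d.1} ∩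
      ({d : Dat | j < (wormOf d i).1} ∩ {d : Dat | y = x + walk (wormOf d i).2 j})) := by
    ext d
    simp only [pts, Set.mem_ofPred_eq, Set.mem_iUnion, Set.mem_inter_iff]
    constructor
    · rintro ⟨i, hi, j, hj, hy⟩; exact ⟨i, j, hi, hj, hy⟩
    · rintro ⟨i, j, hi, hj, hy⟩; exact ⟨i, hi, j, hj, hy⟩
  rw [h]
  refine MeasurableSet.iUnion fun i => MeasurableSet.iUnion fun j => ?_
  have hw : Measurable (fun d : Dat => wormOf d i) := measurable_wormOf i
  refine MeasurableSet.inter ?_ (MeasurableSet.inter ?_ ?_)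
  · exact measurable_fst (Set.to_countable {n : ℕ | i < n}).measurableSet
  · exact (measurable_fst.comp hw) (Set.to_countable {n : ℕ | j < n}).measurableSet
  · have h2 : Measurable (fun d : Dat => x + walk (wormOf d i).2 j) :=
      measurable_const.add ((measurable_walk j).comp (measurable_snd.comp hw))
    exact measurableSet_eq_fun measurable_const h2

/-- Points occupied by worms started in `u`. -/
def occOn (u : Set Site) (ω : Site → Dat) : Set Site := {y | ∃ x ∈ u, y ∈ pts x (ω x)}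

lemma finite_pts (x : Site) (d : Dat) : (pts x d).Finite := by
  have h : pts x d ⊆ ⋃ i ∈ Finset.range d.1, ⋃ j ∈ Finset.range (wormOf d i).1,
      {x + walk (wormOf d i).2 j} := by
    rintro y ⟨i, hi, j, hj, rfl⟩
    simp only [Set.mem_iUnion, Finset.mem_range, Set.mem_singleton_iff, exists_prop]
    exact ⟨i, hi, j, hj, rfl⟩
  refine Set.Finite.subset ?_ h
  refine Set.Finite.biUnion (Finset.finite_toSet _) fun i _ => ?_
  exact Set.Finite.biUnion (Finset.finite_toSet _) fun j _ => Set.finite_singleton _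

lemma Perc.mono {A B : Set Site} (h : Perc A) (hAB : A ⊆ B) : Perc B := by
  obtain ⟨p, hinj, hp⟩ := h
  exact ⟨p, hinj, fun n => ⟨(hp n).1, hAB (hp n).2⟩⟩

lemma occOn_mono {u v : Set Site} (h : u ⊆ v) (ω : Site → Dat) : occOn u ω ⊆ occOn v ω := by
  rintro y ⟨x, hx, hy⟩
  exact ⟨x, h hx, hy⟩

/-- Percolation is insensitive to finite modifications. -/
lemma perc_sdiff_finite {A B : Set Site} (h : Perc A) (hF : (A \ B).Finite) : Perc B := by
  obtain ⟨p, hinj, hp⟩ := h
  have hfin : (p ⁻¹' (A \ B)).Finite := hF.preimage hinj.injOn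
  obtain ⟨n0, hn0⟩ := hfin.bddAbove
  refine ⟨fun n => p (n0 + 1 + n), fun a b hab => ?_, fun n => ⟨?_, ?_⟩⟩
  · have := hinj hab; omega
  · have := (hp (n0 + 1 + n)).1
    simpa [add_assoc] using this
  · by_contra hcon
    have hmem : n0 + 1 + n ∈ p ⁻¹' (A \ B) := ⟨(hp _).2, hcon⟩
    have := hn0 hmem
    omega

lemma perc_occOn_iff {u : Set Site} (hu : uᶜ.Finite) (ω : Site → Dat) :
    Perc (occOn Set.univ ω) ↔ Perc (occOn u ω) := by
  constructor
  · intro h
    refine perc_sdiff_finite h ?_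
    refine Set.Finite.subset (hu.biUnion fun x _ => finite_pts x (ω x)) ?_
    rintro y ⟨⟨x, _, hy⟩, hyu⟩
    simp only [Set.mem_iUnion, exists_prop]
    refine ⟨x, ?_, hy⟩
    intro hxu
    exact hyu ⟨x, hxu, hy⟩
  · intro h
    exact h.mono (occOn_mono (Set.subset_univ u) ω)

/-- The σ-algebra of the data at `x`. -/
@[instance_reducible]
def siteAlg (x : Site) : MeasurableSpace (Site → Dat) :=
  MeasurableSpace.comap (fun ω : Site → Dat => ω x) inferInstance

lemma measurable_occOn (u : Set Site) (y : Site) :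
    MeasurableSet[⨆ x ∈ u, siteAlg x] {ω | y ∈ occOn u ω} := by
  have h : {ω : Site → Dat | y ∈ occOn u ω} = ⋃ x ∈ u, {ω | y ∈ pts x (ω x)} := by
    ext ω; simp [occOn]
  rw [h]
  refine MeasurableSet.biUnion (Set.to_countable u) fun x hx => ?_
  have h1 : MeasurableSet[siteAlg x] {ω : Site → Dat | y ∈ pts x (ω x)} :=
    ⟨{d | y ∈ pts x d}, measurableSet_mem_pts x y, rfl⟩
  have h2 : siteAlg x ≤ ⨆ x ∈ u, siteAlg x := le_biSup siteAlg hx
  exact h2 _ h1

lemma siteAlg_le (x : Site) : siteAlg x ≤ (inferInstance : MeasurableSpace (Site → Dat)) := by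
  unfold siteAlg
  exact (measurable_pi_apply x).comap_le

lemma measurableSet_perc_occ : MeasurableSet {ω : Site → Dat | Perc (occOn Set.univ ω)} := by
  refine measurableSet_perc (fun ω => occOn Set.univ ω) fun y => ?_
  have h1 : (⨆ x ∈ (Set.univ : Set Site), siteAlg x) ≤
      (inferInstance : MeasurableSpace (Site → Dat)) :=
    iSup₂_le fun x _ => siteAlg_le x
  exact h1 _ (measurable_occOn Set.univ y)

/-- Zero-one law for percolation. -/
theorem perc_zero_one (N m : Measure ℕ) [IsProbabilityMeasure N] [IsProbabilityMeasure m] :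
    wormLaw N m {ω | Perc (occOn Set.univ ω)} = 0 ∨
      wormLaw N m {ω | Perc (occOn Set.univ ω)} = 1 := by
  have hind : iIndepFun (fun (x : Site) (ω : Site → Dat) => ω x) (wormLaw N m) :=
    iIndepFun_infinitePi (X := fun _ d => d) (fun _ => measurable_id)
  have hind' : iIndep siteAlg (wormLaw N m) := hind.iIndep
  refine measure_zero_or_one_of_measurableSet_limsup (s := siteAlg) (f := Filter.cofinite)
    (p := Set.Finite) (ns := fun t : Finset Site => (t : Set Site)) siteAlg_le hind' ?_ ?_ ?_ ?_ ?_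
  · intro t ht
    rwa [Filter.mem_cofinite, compl_compl]
  · exact directed_of_isDirected_le (fun a b hab => by exact_mod_cast hab)
  · intro t; exact t.finite_toSet
  · intro x; exact ⟨{x}, by simp⟩
  · rw [Filter.limsup_eq_iInf_iSup]
    rw [MeasurableSpace.measurableSet_iInf]
    intro u
    rw [MeasurableSpace.measurableSet_iInf]
    intro hu
    have h1 : {ω : Site → Dat | Perc (occOn Set.univ ω)} = {ω | Perc (occOn u ω)} := by
      ext ω
      exact perc_occOn_iff (Filter.mem_cofinite.mp hu) ω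
    rw [h1]
    exact @measurableSet_perc _ (⨆ x ∈ u, siteAlg x) (fun ω => occOn u ω) (measurable_occOn u)

end Pool.Agent.Worm

end ZeroOneSec

section CrossSec
open MeasureTheory Measure ProbabilityTheory
open scoped ENNReal NNReal

namespace Pool.Agent.Worm

/-! ### Blocks -/

/-- Index of the block of side `8^n` containing `y`. -/
def blk (n : ℕ) (y : Site) : Site := (y.1 / 8 ^ n, y.2.1 / 8 ^ n, y.2.2 / 8 ^ n)

/-- Parent block. -/
def par (k : Site) : Site := (k.1 / 8, k.2.1 / 8, k.2.2 / 8)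

lemma blk_zero (y : Site) : blk 0 y = y := by simp [blk]

lemma blk_succ (n : ℕ) (y : Site) : blk (n + 1) y = par (blk n y) := by
  simp only [blk, par, pow_succ]
  refine Prod.ext ?_ (Prod.ext ?_ ?_) <;>
  exact (Int.ediv_ediv_of_nonneg (by positivity)).symm

lemma nrm_blk_sub_le (n : ℕ) {a b : Site} (h : nrm (a - b) ≤ 8 ^ n) :
    nrm (blk n a - blk n b) ≤ 1 := by
  rw [nrm_le_iff] at h ⊢
  have key : ∀ x y : ℤ, (x - y).natAbs ≤ 8 ^ n → (x / 8 ^ n - y / 8 ^ n).natAbs ≤ 1 := by
    intro x y hxy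
    have hp : (0 : ℤ) < 8 ^ n := by positivity
    have hxy' : |x - y| ≤ 8 ^ n := by
      zify at hxy
      exact_mod_cast hxy
    have h1 := Int.emod_nonneg x hp.ne'
    have h2 := Int.emod_lt_of_pos x hp
    have h3 := Int.emod_nonneg y hp.ne'
    have h4 := Int.emod_lt_of_pos y hp
    have h5 := Int.mul_ediv_add_emod x (8 ^ n)
    have h6 := Int.mul_ediv_add_emod y (8 ^ n)
    rw [abs_le] at hxy'
    have h7 : (8 : ℤ) ^ n * (x / 8 ^ n - y / 8 ^ n) < 8 ^ n * 2 := by nlinarith
    have h8 : (8 : ℤ) ^ n * (-2) < 8 ^ n * (x / 8 ^ n - y / 8 ^ n) := by nlinarith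
    have h9 := lt_of_mul_lt_mul_left h7 hp.le
    have h10 := lt_of_mul_lt_mul_left h8 hp.le
    omega
  exact ⟨key _ _ h.1, key _ _ h.2.1, key _ _ h.2.2⟩

/-- The region around block `k` at level `n`. -/
def Reg (n : ℕ) (k : Site) : Set Site := {a | nrm (blk n a - k) ≤ 2}

/-- corner of the box containing `Reg (n+1) K` -/
def crn (n : ℕ) (K : Site) : Site :=
  (8 ^ (n + 1) * (K.1 - 2), 8 ^ (n + 1) * (K.2.1 - 2), 8 ^ (n + 1) * (K.2.2 - 2))

lemma mem_box_of_reg (n : ℕ) {K a : Site} (h : a ∈ Reg (n + 1) K) :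
    a ∈ box (crn n K) (40 * 8 ^ n) := by
  have h' := (nrm_le_iff _ _).mp h
  rw [mem_box]
  simp only [crn, blk, Prod.fst_sub, Prod.snd_sub] at h' ⊢
  have key : ∀ x k : ℤ, (x / 8 ^ (n + 1) - k).natAbs ≤ 2 →
      8 ^ (n + 1) * (k - 2) ≤ x ∧ x < 8 ^ (n + 1) * (k - 2) + ((40 * 8 ^ n : ℕ) : ℤ) := by
    intro x k hk
    have hp : (0 : ℤ) < 8 ^ (n + 1) := by positivity
    have h1 := Int.emod_nonneg x hp.ne'
    have h2 := Int.emod_lt_of_pos x hp
    have h5 := Int.mul_ediv_add_emod x (8 ^ (n + 1))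
    have h6 : k - 2 ≤ x / 8 ^ (n + 1) := by omega
    have h7 : x / 8 ^ (n + 1) ≤ k + 2 := by omega
    have h8 := mul_le_mul_of_nonneg_left h6 hp.le
    have h9 := mul_le_mul_of_nonneg_left h7 hp.le
    constructor
    · linarith
    · push_cast
      have h10 : (40 : ℤ) * 8 ^ n = 8 ^ (n + 1) * 5 := by ring
      rw [h10]
      nlinarith
  exact ⟨key _ _ h'.1, key _ _ h'.2.1, key _ _ h'.2.2⟩

lemma reg_subset_par (n : ℕ) (k : Site) : Reg n k ⊆ Reg (n + 1) (par k) := by
  intro a ha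
  have h' := (nrm_le_iff _ _).mp ha
  show nrm (blk (n + 1) a - par k) ≤ 2
  rw [blk_succ, nrm_le_iff]
  simp only [par, Prod.fst_sub, Prod.snd_sub] at h' ⊢
  omega

/-! ### Connectivity -/

/-- Connection inside `A`. -/
def Conn (A : Set Site) : Site → Site → Prop :=
  Relation.ReflTransGen (fun a b => Adj a b ∧ a ∈ A ∧ b ∈ A)

lemma Conn.mono {A B : Set Site} (hAB : A ⊆ B) {y z : Site} (h : Conn A y z) : Conn B y z :=
  Relation.ReflTransGen.mono (r := fun a b => Adj a b ∧ a ∈ A ∧ b ∈ A)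
    (p := fun a b => Adj a b ∧ a ∈ B ∧ b ∈ B) (fun _ _ h => ⟨h.1, hAB h.2.1, hAB h.2.2⟩) _ _ h

lemma Conn.symm {A : Set Site} {y z : Site} (h : Conn A y z) : Conn A z y := by
  induction h with
  | refl => exact Relation.ReflTransGen.refl
  | tail _ hbc ih => exact Relation.ReflTransGen.head ⟨hbc.1.symm, hbc.2.2, hbc.2.1⟩ ih

lemma Conn.trans {A : Set Site} {x y z : Site} (h : Conn A x y) (h' : Conn A y z) : Conn A x z :=
  Relation.ReflTransGen.trans h h'

lemma Conn.mem_left {A : Set Site} {y z : Site} (h : Conn A y z) (hne : y ≠ z) : y ∈ A := by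
  rcases Relation.ReflTransGen.cases_head h with h | ⟨c, hc, _⟩
  · exact absurd h hne
  · exact hc.2.1

lemma Conn.mem_right {A : Set Site} {y z : Site} (h : Conn A y z) (hne : y ≠ z) : z ∈ A :=
  h.symm.mem_left hne.symm

/-- A connection leaving `R` can be truncated at its first exit. -/
lemma Conn.trunc {A R : Set Site} {y z : Site} (h : Conn A y z) (hy : y ∈ R) (hz : z ∉ R) :
    ∃ z', z' ∉ R ∧ Conn (A ∩ {a | a ∈ R ∨ ∃ b ∈ R, Adj b a}) y z' := by
  induction h using Relation.ReflTransGen.head_induction_on with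
  | refl => exact absurd hy hz
  | @head a c hac _ ih =>
    by_cases hc : c ∈ R
    · obtain ⟨z', hz', hconn⟩ := ih hc
      refine ⟨z', hz', Relation.ReflTransGen.head ⟨hac.1, ⟨hac.2.1, Or.inl hy⟩,
        ⟨hac.2.2, Or.inl hc⟩⟩ hconn⟩
    · exact ⟨c, hc, Relation.ReflTransGen.single ⟨hac.1, ⟨hac.2.1, Or.inl hy⟩,
        ⟨hac.2.2, Or.inr ⟨a, hy, hac.1⟩⟩⟩⟩

/-- Crossing from block `k` at level `n` to distance at least two blocks. -/
def Cross (n : ℕ) (k : Site) (A : Set Site) : Prop :=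
  ∃ y z, blk n y = k ∧ 2 ≤ nrm (blk n z - k) ∧ Conn A y z

lemma Cross.mono {n : ℕ} {k : Site} {A B : Set Site} (hAB : A ⊆ B) (h : Cross n k A) :
    Cross n k B := by
  obtain ⟨y, z, h1, h2, h3⟩ := h
  exact ⟨y, z, h1, h2, h3.mono hAB⟩

lemma ring_subset (n : ℕ) (k : Site) :
    {a | a ∈ {a : Site | nrm (blk n a - k) ≤ 1} ∨ ∃ b ∈ {a : Site | nrm (blk n a - k) ≤ 1},
      Adj b a} ⊆ Reg n k := by
  rintro a (ha | ⟨b, hb, hab⟩)
  · show nrm (blk n a - k) ≤ 2
    have ha' : nrm (blk n a - k) ≤ 1 := ha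
    omega
  · have h1 : nrm (blk n a - blk n b) ≤ 1 := by
      apply nrm_blk_sub_le
      exact hab.nrm_le.trans (Nat.one_le_pow _ _ (by norm_num))
    have h2 : blk n a - k = (blk n a - blk n b) + (blk n b - k) := by abel
    show nrm (blk n a - k) ≤ 2
    rw [h2]
    have hb' : nrm (blk n b - k) ≤ 1 := hb
    exact (nrm_add_le _ _).trans (by omega)

lemma Cross.local {n : ℕ} {k : Site} {A : Set Site} (h : Cross n k A) :
    Cross n k (A ∩ Reg n k) := by
  obtain ⟨y, z, h1, h2, h3⟩ := h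
  have hy : y ∈ {a : Site | nrm (blk n a - k) ≤ 1} := by
    simp [h1, nrm_zero]
  have hz : z ∉ {a : Site | nrm (blk n a - k) ≤ 1} := by
    intro hz
    have : nrm (blk n z - k) ≤ 1 := hz
    omega
  obtain ⟨z', hz', hconn⟩ := h3.trunc hy hz
  refine ⟨y, z', h1, ?_, hconn.mono (Set.inter_subset_inter_right A (ring_subset n k))⟩
  have : ¬ nrm (blk n z' - k) ≤ 1 := hz'
  omega

/-- The recursion: a crossing at level `n+1` gives two distant crossings at level `n`. -/
lemma Cross.step {n : ℕ} {K : Site} {A : Set Site} (h : Cross (n + 1) K A) :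
    ∃ k l, par k = K ∧ nrm (par l - K) ≤ 2 ∧ 7 ≤ nrm (k - l) ∧
      Cross n k (A ∩ Reg (n + 1) K) ∧ Cross n l (A ∩ Reg (n + 1) K) := by
  obtain ⟨y, z, h1, h2, h3⟩ := h.local
  have hne : y ≠ z := by
    rintro rfl
    rw [h1, sub_self, nrm_zero] at h2
    omega
  have hzreg : z ∈ Reg (n + 1) K := (h3.mem_right hne).2
  refine ⟨blk n y, blk n z, ?_, ?_, ?_, ?_, ?_⟩
  · rw [← blk_succ, h1]
  · rw [← blk_succ]; exact hzreg
  · -- far away
    rw [blk_succ] at h1 h2
    by_contra hcon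
    have hle : nrm (blk n y - blk n z) ≤ 6 := by omega
    rw [nrm_le_iff] at hle
    have : nrm (par (blk n z) - K) ≤ 1 := by
      rw [← h1, nrm_le_iff]
      simp only [par, Prod.fst_sub, Prod.snd_sub] at hle ⊢
      omega
    omega
  · refine ⟨y, z, rfl, ?_, h3⟩
    rw [blk_succ] at h1 h2
    by_contra hcon
    have hle : nrm (blk n z - blk n y) ≤ 1 := by omega
    rw [nrm_le_iff] at hle
    have : nrm (par (blk n z) - K) ≤ 1 := by
      rw [← h1, nrm_le_iff]
      simp only [par, Prod.fst_sub, Prod.snd_sub] at hle ⊢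
      omega
    omega
  · refine ⟨z, y, rfl, ?_, h3.symm⟩
    rw [blk_succ] at h1 h2
    by_contra hcon
    have hle : nrm (blk n y - blk n z) ≤ 1 := by omega
    rw [nrm_le_iff] at hle
    have : nrm (par (blk n z) - K) ≤ 1 := by
      rw [← h1, nrm_le_iff]
      simp only [par, Prod.fst_sub, Prod.snd_sub] at hle ⊢
      omega
    omega

/-! ### Measurability of connection events -/

/-- connection with at most `m` steps -/
def ConnN (A : Set Site) : ℕ → Site → Site → Prop
  | 0, y, z => y = z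
  | m + 1, y, z => ConnN A m y z ∨ ∃ w, ConnN A m y w ∧ Adj w z ∧ w ∈ A ∧ z ∈ A

lemma conn_iff (A : Set Site) (y z : Site) : Conn A y z ↔ ∃ m, ConnN A m y z := by
  constructor
  · intro h
    induction h with
    | refl => exact ⟨0, rfl⟩
    | tail _ hbc ih =>
      obtain ⟨m, hm⟩ := ih
      exact ⟨m + 1, Or.inr ⟨_, hm, hbc⟩⟩
  · rintro ⟨m, hm⟩
    induction m generalizing z with
    | zero => rw [show y = z from hm]; exact Relation.ReflTransGen.refl
    | succ m ih =>
      rcases hm with hm | ⟨w, hw, hwz⟩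
      · exact ih z hm
      · exact Relation.ReflTransGen.tail (ih w hw) hwz

lemma measurableSet_conn {Ω : Type*} {mΩ : MeasurableSpace Ω} (A : Ω → Set Site)
    (hA : ∀ y, MeasurableSet {ω | y ∈ A ω}) (y z : Site) :
    MeasurableSet {ω | Conn (A ω) y z} := by
  have h1 : {ω | Conn (A ω) y z} = ⋃ m : ℕ, {ω | ConnN (A ω) m y z} := by
    ext ω; simp [conn_iff]
  rw [h1]
  clear h1
  refine MeasurableSet.iUnion fun m => ?_
  induction m generalizing z with
  | zero =>
    by_cases h : y = z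
    · have : {ω | ConnN (A ω) 0 y z} = Set.univ := by ext ω; simp [ConnN, h]
      rw [this]; exact MeasurableSet.univ
    · have : {ω | ConnN (A ω) 0 y z} = ∅ := by ext ω; simp [ConnN, h]
      rw [this]; exact MeasurableSet.empty
  | succ m ih =>
    have h2 : {ω | ConnN (A ω) (m + 1) y z} = {ω | ConnN (A ω) m y z} ∪
        ⋃ w : {w : Site // Adj w z}, ({ω | ConnN (A ω) m y w} ∩ ({ω | (w : Site) ∈ A ω} ∩
          {ω | z ∈ A ω})) := by
      ext ω
      simp only [ConnN, Set.mem_ofPred_eq, Set.mem_union, Set.mem_iUnion, Set.mem_inter_iff,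
        Subtype.exists]
      constructor
      · rintro (h | ⟨w, h1, h2, h3, h4⟩)
        · exact Or.inl h
        · exact Or.inr ⟨w, h2, h1, h3, h4⟩
      · rintro (h | ⟨w, h2, h1, h3, h4⟩)
        · exact Or.inl h
        · exact Or.inr ⟨w, h1, h2, h3, h4⟩
    rw [h2]
    exact (ih z).union (MeasurableSet.iUnion fun w => (ih w).inter ((hA _).inter (hA _)))

lemma measurableSet_cross {Ω : Type*} {mΩ : MeasurableSpace Ω} (A : Ω → Set Site)
    (hA : ∀ y, MeasurableSet {ω | y ∈ A ω}) (n : ℕ) (k : Site) :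
    MeasurableSet {ω | Cross n k (A ω)} := by
  have h1 : {ω | Cross n k (A ω)} = ⋃ p : {p : Site × Site // blk n p.1 = k ∧
      2 ≤ nrm (blk n p.2 - k)}, {ω | Conn (A ω) p.1.1 p.1.2} := by
    ext ω
    simp only [Set.mem_ofPred_eq, Set.mem_iUnion]
    constructor
    · rintro ⟨y, z, h1, h2, h3⟩; exact ⟨⟨(y, z), h1, h2⟩, h3⟩
    · rintro ⟨⟨⟨y, z⟩, h1, h2⟩, h3⟩; exact ⟨y, z, h1, h2, h3⟩
  rw [h1]
  exact MeasurableSet.iUnion fun p => measurableSet_conn A hA _ _

end Pool.Agent.Worm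

end CrossSec

section PartASec
set_option linter.deprecated false

open MeasureTheory Measure ProbabilityTheory
open scoped ENNReal NNReal

namespace Pool.Agent.Worm

/-- Points of the worms at `x` with displacement at most `8^n`. -/
def ptsS (n : ℕ) (x : Site) (d : Dat) : Set Site :=
  {y | ∃ i, i < d.1 ∧ ¬ Large (8 ^ n) (wormOf d i).2 (wormOf d i).1 ∧
    ∃ j, j < (wormOf d i).1 ∧ y = x + walk (wormOf d i).2 j}

def occS (n : ℕ) (u : Set Site) (ω : Site → Dat) : Set Site := {y | ∃ x ∈ u, y ∈ ptsS n x (ω x)}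

lemma ptsS_near {n : ℕ} {x y : Site} {d : Dat} (h : y ∈ ptsS n x d) : nrm (y - x) ≤ 8 ^ n := by
  obtain ⟨i, _, hL, j, hj, rfl⟩ := h
  rw [add_sub_cancel_left]
  by_contra hcon
  exact hL ⟨j, hj, not_le.mp hcon⟩

lemma measurableSet_mem_ptsS (n : ℕ) (x y : Site) : MeasurableSet {d : Dat | y ∈ ptsS n x d} := by
  have h : {d : Dat | y ∈ ptsS n x d} = ⋃ i : ℕ, ⋃ j : ℕ, ({d : Dat | i < d.1} ∩
      ({d : Dat | Large (8 ^ n) (wormOf d i).2 (wormOf d i).1}ᶜ ∩
      ({d : Dat | j < (wormOf d i).1} ∩ {d : Dat | y = x + walk (wormOf d i).2 j}))) := by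
    ext d
    simp only [ptsS, Set.mem_ofPred_eq, Set.mem_iUnion, Set.mem_inter_iff, Set.mem_compl_iff]
    constructor
    · rintro ⟨i, hi, hL, j, hj, hy⟩; exact ⟨i, j, hi, hL, hj, hy⟩
    · rintro ⟨i, j, hi, hL, hj, hy⟩; exact ⟨i, hi, hL, j, hj, hy⟩
  rw [h]
  refine MeasurableSet.iUnion fun i => MeasurableSet.iUnion fun j => ?_
  have hw : Measurable (fun d : Dat => wormOf d i) := measurable_wormOf i
  refine MeasurableSet.inter ?_ (MeasurableSet.inter ?_ (MeasurableSet.inter ?_ ?_))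
  · exact measurable_fst (Set.to_countable {n : ℕ | i < n}).measurableSet
  · have h3 : MeasurableSet {p : ℕ × (ℕ → Fin 6) | Large (8 ^ n) p.2 p.1} := by
      have h4 : {p : ℕ × (ℕ → Fin 6) | Large (8 ^ n) p.2 p.1} =
          ⋃ L : ℕ, {L} ×ˢ {σ | Large (8 ^ n) σ L} := by
        ext ⟨L, σ⟩
        simp only [Set.mem_ofPred_eq, Set.mem_iUnion, Set.mem_prod, Set.mem_singleton_iff]
        constructor
        · intro h; exact ⟨L, rfl, h⟩
        · rintro ⟨L', rfl, h⟩; exact h
      rw [h4]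
      exact MeasurableSet.iUnion fun L =>
        (measurableSet_singleton L).prod (measurableSet_large _ L)
    exact (hw h3).compl
  · exact (measurable_fst.comp hw) (Set.to_countable {n : ℕ | j < n}).measurableSet
  · have h2 : Measurable (fun d : Dat => x + walk (wormOf d i).2 j) :=
      measurable_const.add ((measurable_walk j).comp (measurable_snd.comp hw))
    exact measurableSet_eq_fun measurable_const h2

lemma measurable_occS (n : ℕ) (u : Set Site) (y : Site) :
    MeasurableSet[⨆ x ∈ u, siteAlg x] {ω | y ∈ occS n u ω} := by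
  have h : {ω : Site → Dat | y ∈ occS n u ω} = ⋃ x ∈ u, {ω | y ∈ ptsS n x (ω x)} := by
    ext ω; simp [occS]
  rw [h]
  refine MeasurableSet.biUnion (Set.to_countable u) fun x hx => ?_
  have h1 : MeasurableSet[siteAlg x] {ω : Site → Dat | y ∈ ptsS n x (ω x)} :=
    ⟨{d | y ∈ ptsS n x d}, measurableSet_mem_ptsS n x y, rfl⟩
  have h2 : siteAlg x ≤ ⨆ x ∈ u, siteAlg x := le_biSup siteAlg hx
  exact h2 _ h1

/-- Sites whose small worms can reach the region around `k`. -/
def U (n : ℕ) (k : Site) : Set Site := {x | nrm (blk n x - k) ≤ 3}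

lemma occS_inter_reg (n : ℕ) (k : Site) (ω : Site → Dat) :
    occS n Set.univ ω ∩ Reg n k ⊆ occS n (U n k) ω := by
  rintro y ⟨⟨x, _, hy⟩, hyk⟩
  refine ⟨x, ?_, hy⟩
  have h1 := ptsS_near hy
  have h2 := nrm_blk_sub_le n h1
  rw [nrm_sub_comm] at h2
  show nrm (blk n x - k) ≤ 3
  have h3 : blk n x - k = (blk n x - blk n y) + (blk n y - k) := by abel
  have h4 : nrm (blk n y - k) ≤ 2 := hyk
  rw [h3]
  exact (nrm_add_le _ _).trans (by omega)

lemma occS_mono {n : ℕ} {u v : Set Site} (h : u ⊆ v) (ω : Site → Dat) :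
    occS n u ω ⊆ occS n v ω := by
  rintro y ⟨x, hx, hy⟩
  exact ⟨x, h hx, hy⟩

/-- The crossing event. -/
def E (n : ℕ) (k : Site) : Set (Site → Dat) := {ω | Cross n k (occS n Set.univ ω)}

lemma E_eq (n : ℕ) (k : Site) : E n k = {ω | Cross n k (occS n (U n k) ω)} := by
  ext ω
  constructor
  · intro h
    exact (Cross.local h).mono (occS_inter_reg n k ω)
  · intro h
    exact Cross.mono (occS_mono (Set.subset_univ _) ω) h

lemma measurable_E' (n : ℕ) (k : Site) : MeasurableSet[⨆ x ∈ U n k, siteAlg x] (E n k) := by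
  rw [E_eq]
  exact @measurableSet_cross _ (⨆ x ∈ U n k, siteAlg x) (fun ω => occS n (U n k) ω)
    (measurable_occS n (U n k)) n k

lemma disjoint_U (n : ℕ) {k l : Site} (h : 7 ≤ nrm (k - l)) : Disjoint (U n k) (U n l) := by
  rw [Set.disjoint_left]
  intro x hx hx'
  have h1 : nrm (blk n x - k) ≤ 3 := hx
  have h2 : nrm (blk n x - l) ≤ 3 := hx'
  have h3 : k - l = (blk n x - l) - (blk n x - k) := by abel
  rw [h3] at h
  have := nrm_sub_le (blk n x - l) (blk n x - k)
  omega

lemma indep_sites (N m : Measure ℕ) [IsProbabilityMeasure N] [IsProbabilityMeasure m]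
    {S T : Set Site} (hST : Disjoint S T) :
    Indep (⨆ x ∈ S, siteAlg x) (⨆ x ∈ T, siteAlg x) (wormLaw N m) := by
  have hind : iIndepFun (fun (x : Site) (ω : Site → Dat) => ω x) (wormLaw N m) :=
    iIndepFun_infinitePi (X := fun _ d => d) (fun _ => measurable_id)
  exact indep_iSup_of_disjoint siteAlg_le hind.iIndep hST

lemma measure_E_inter (N m : Measure ℕ) [IsProbabilityMeasure N] [IsProbabilityMeasure m]
    (n : ℕ) {k l : Site} (h : 7 ≤ nrm (k - l)) :
    wormLaw N m (E n k ∩ E n l) = wormLaw N m (E n k) * wormLaw N m (E n l) :=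
  (Indep_iff _ _ _).mp (indep_sites N m (disjoint_U n h)) _ _ (measurable_E' n k)
    (measurable_E' n l)

lemma wormLaw_site (N m : Measure ℕ) [IsProbabilityMeasure N] [IsProbabilityMeasure m] (x : Site)
    {S : Set Dat} (hS : MeasurableSet S) : wormLaw N m {ω | ω x ∈ S} = datLaw N m S := by
  have h := infinitePi_map_eval (fun _ : Site => datLaw N m) x
  conv_rhs => rw [← h]
  rw [Measure.map_apply (by fun_prop) hS]
  rfl

/-- Some site has a bad worm. -/
def Hbad (n : ℕ) (K : Site) : Set (Site → Dat) := {ω | ∃ x, BadAt (8 ^ n) (crn n K) x (ω x)}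

lemma measure_Hbad (N : Measure ℕ) [IsProbabilityMeasure N] (m : PMF ℕ) (C : ℝ) (hC : 0 ≤ C)
    (hm0 : m 0 = 0)
    (hm : ∀ L : ℕ, 1 ≤ L → (m L).toReal ≤ C * ((L : ℝ) ^ 2 * Real.sqrt L)⁻¹) (n : ℕ) (K : Site) :
    wormLaw N m.toMeasure (Hbad n K) ≤
      (∫⁻ n, (n : ℝ≥0∞) ∂N) * ENNReal.ofReal (C * (42 ^ 3 * 1026) * 4) := by
  have h1 : Hbad n K = ⋃ x : Site, {ω | ω x ∈ {d | BadAt (8 ^ n) (crn n K) x d}} := by
    ext ω; simp [Hbad]
  rw [h1]
  refine (measure_iUnion_le _).trans ?_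
  have h2 : ∀ x : Site, wormLaw N m.toMeasure {ω | ω x ∈ {d | BadAt (8 ^ n) (crn n K) x d}} =
      datLaw N m.toMeasure {d | BadAt (8 ^ n) (crn n K) x d} := fun x =>
    wormLaw_site N m.toMeasure x (measurableSet_badAt _ _ _)
  simp_rw [h2]
  exact tsum_badAt_le N m C hC hm0 hm (8 ^ n) (Nat.one_le_pow _ _ (by norm_num)) (crn n K)

/-- Off the bad event, points of `Reg (n+1) K` covered at all are covered by small worms. -/
lemma occS_of_not_Hbad {n : ℕ} {K : Site} {ω : Site → Dat} (h : ω ∉ Hbad n K) :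
    occOn Set.univ ω ∩ Reg (n + 1) K ⊆ occS n Set.univ ω := by
  rintro y ⟨⟨x, _, i, hi, j, hj, rfl⟩, hyK⟩
  refine ⟨x, Set.mem_univ x, i, hi, ?_, j, hj, rfl⟩
  intro hL
  exact h ⟨x, i, hi, hL, j, hj, mem_box_of_reg n hyK⟩

lemma occS_subset_occOn (n : ℕ) (ω : Site → Dat) : occS n Set.univ ω ⊆ occOn Set.univ ω := by
  rintro y ⟨x, hx, i, hi, _, j, hj, rfl⟩
  exact ⟨x, hx, i, hi, j, hj, rfl⟩

lemma E_succ_subset (n : ℕ) (K : Site) : E (n + 1) K ⊆ Hbad n K ∪
    ⋃ k ∈ box (8 * K.1, 8 * K.2.1, 8 * K.2.2) 8,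
      ⋃ l ∈ (box (8 * (K.1 - 2), 8 * (K.2.1 - 2), 8 * (K.2.2 - 2)) 40).filter
        (fun l => 7 ≤ nrm (k - l)), (E n k ∩ E n l) := by
  intro ω hω
  by_cases hbad : ω ∈ Hbad n K
  · exact Or.inl hbad
  · right
    obtain ⟨k, l, hk, hl, hkl, hck, hcl⟩ := Cross.step hω
    have hsub : occS (n + 1) Set.univ ω ∩ Reg (n + 1) K ⊆ occS n Set.univ ω := by
      refine subset_trans (Set.inter_subset_inter_left _ (occS_subset_occOn (n + 1) ω)) ?_
      exact occS_of_not_Hbad hbad
    simp only [Set.mem_iUnion, Finset.mem_filter, exists_prop]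
    refine ⟨k, ?_, l, ⟨?_, hkl⟩, hck.mono hsub, hcl.mono hsub⟩
    · rw [mem_box, ← hk]
      simp only [par]
      push_cast
      omega
    · rw [nrm_le_iff] at hl
      rw [mem_box]
      simp only [par, Prod.fst_sub, Prod.snd_sub] at hl ⊢
      push_cast
      omega

lemma measure_E_zero (N m : Measure ℕ) [IsProbabilityMeasure N] [IsProbabilityMeasure m]
    (k : Site) : wormLaw N m (E 0 k) ≤ 27 * ∫⁻ n, (n : ℝ≥0∞) ∂N := by
  have hsub : E 0 k ⊆ ⋃ x ∈ box (k - (1, 1, 1)) 3, {ω : Site → Dat | ω x ∈ {d : Dat | 0 < d.1}} := by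
    intro ω hω
    obtain ⟨y, z, h1, h2, h3⟩ := hω
    rw [blk_zero] at h1 h2
    subst h1
    have hne : y ≠ z := by
      rintro rfl
      rw [sub_self, nrm_zero] at h2
      omega
    obtain ⟨x, _, hx⟩ := h3.mem_left hne
    have hnear := ptsS_near hx
    obtain ⟨i, hi, _⟩ := hx
    simp only [Set.mem_iUnion, exists_prop]
    refine ⟨x, ?_, by show 0 < (ω x).1; omega⟩
    rw [nrm_le_iff] at hnear
    rw [mem_box]
    simp only [pow_zero, Prod.fst_sub, Prod.snd_sub] at hnear ⊢
    push_cast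
    omega
  have hms : MeasurableSet {d : Dat | 0 < d.1} :=
    measurable_fst (Set.to_countable {n : ℕ | 0 < n}).measurableSet
  have hone : datLaw N m {d : Dat | 0 < d.1} ≤ ∫⁻ n, (n : ℝ≥0∞) ∂N := by
    have h1 := datLaw_worm N m 0 Set.univ MeasurableSet.univ
    simp only [Set.mem_univ, and_true] at h1
    rw [h1, measure_univ, mul_one, ← tsum_gt]
    exact ENNReal.le_tsum 0
  refine (measure_mono hsub).trans ?_
  refine (measure_biUnion_finset_le _ _).trans ?_
  calc ∑ x ∈ box (k - (1, 1, 1)) 3, wormLaw N m {ω : Site → Dat | ω x ∈ {d : Dat | 0 < d.1}}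
      ≤ ∑ x ∈ box (k - (1, 1, 1)) 3, ∫⁻ n, (n : ℝ≥0∞) ∂N := by
        apply Finset.sum_le_sum
        intro x _
        rw [wormLaw_site N m x hms]
        exact hone
    _ = 27 * ∫⁻ n, (n : ℝ≥0∞) ∂N := by
        rw [Finset.sum_const, card_box, nsmul_eq_mul]
        norm_num

/-- Crossing probabilities stay small at all scales. -/
theorem measure_E_le (N : Measure ℕ) [IsProbabilityMeasure N] (m : PMF ℕ) (C : ℝ) (hC : 0 ≤ C)
    (hm0 : m 0 = 0)
    (hm : ∀ L : ℕ, 1 ≤ L → (m L).toReal ≤ C * ((L : ℝ) ^ 2 * Real.sqrt L)⁻¹)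
    (a : ℝ≥0∞) (ha1 : (∫⁻ n, (n : ℝ≥0∞) ∂N) * (ENNReal.ofReal (C * (42 ^ 3 * 1026) * 4) + 27) ≤ a)
    (ha2 : 4 * (8 ^ 3 * 40 ^ 3) * a ≤ 1) (n : ℕ) :
    ∀ k : Site, wormLaw N m.toMeasure (E n k) ≤ 2 * a := by
  have hH : ∀ n K, wormLaw N m.toMeasure (Hbad n K) ≤ a := by
    intro n K
    refine (measure_Hbad N m C hC hm0 hm n K).trans (le_trans ?_ ha1)
    gcongr
    exact le_self_add
  induction n with
  | zero =>
    intro k
    refine (measure_E_zero N m.toMeasure k).trans ?_
    have h1 : 27 * ∫⁻ n, (n : ℝ≥0∞) ∂N ≤ a := by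
      refine le_trans ?_ ha1
      rw [mul_comm]
      gcongr
      exact le_add_self
    refine h1.trans ?_
    rw [two_mul]
    exact le_self_add
  | succ n ih =>
    intro K
    refine (measure_mono (E_succ_subset n K)).trans ?_
    refine (measure_union_le _ _).trans ?_
    have h1 : wormLaw N m.toMeasure (⋃ k ∈ box (8 * K.1, 8 * K.2.1, 8 * K.2.2) 8,
      ⋃ l ∈ (box (8 * (K.1 - 2), 8 * (K.2.1 - 2), 8 * (K.2.2 - 2)) 40).filter
        (fun l => 7 ≤ nrm (k - l)), (E n k ∩ E n l)) ≤ 8 ^ 3 * (40 ^ 3 * (2 * a * (2 * a))) := by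
      refine (measure_biUnion_finset_le _ _).trans ?_
      have hin : ∀ k ∈ box (8 * K.1, 8 * K.2.1, 8 * K.2.2) 8, wormLaw N m.toMeasure
          (⋃ l ∈ (box (8 * (K.1 - 2), 8 * (K.2.1 - 2), 8 * (K.2.2 - 2)) 40).filter
          (fun l => 7 ≤ nrm (k - l)), (E n k ∩ E n l)) ≤ (40 ^ 3 * (2 * a * (2 * a))) := by
        intro k _
        refine (measure_biUnion_finset_le _ _).trans ?_
        have hl2 : ∀ l ∈ (box (8 * (K.1 - 2), 8 * (K.2.1 - 2), 8 * (K.2.2 - 2)) 40).filter
            (fun l => 7 ≤ nrm (k - l)), wormLaw N m.toMeasure (E n k ∩ E n l) ≤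
            (2 * a * (2 * a)) := by
          intro l hl
          rw [measure_E_inter N m.toMeasure n (Finset.mem_filter.mp hl).2]
          exact mul_le_mul' (ih k) (ih l)
        refine (Finset.sum_le_sum hl2).trans ?_
        rw [Finset.sum_const, nsmul_eq_mul]
        gcongr
        have h2 := (Finset.card_filter_le (box (8 * (K.1 - 2), 8 * (K.2.1 - 2),
          8 * (K.2.2 - 2)) 40) (fun l => 7 ≤ nrm (k - l)))
        rw [card_box] at h2
        exact_mod_cast h2
      refine (Finset.sum_le_sum hin).trans ?_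
      rw [Finset.sum_const, card_box, nsmul_eq_mul]
      norm_num
    have h3 : (8 : ℝ≥0∞) ^ 3 * (40 ^ 3 * (2 * a * (2 * a))) ≤ a := by
      calc (8 : ℝ≥0∞) ^ 3 * (40 ^ 3 * (2 * a * (2 * a))) = (4 * (8 ^ 3 * 40 ^ 3) * a) * a := by ring
        _ ≤ 1 * a := by gcongr
        _ = a := one_mul a
    calc _ ≤ a + a := add_le_add (hH n K) (h1.trans h3)
      _ = 2 * a := (two_mul a).symm

/-- Percolation from within the central blocks of level `n`. -/
def PercN (n : ℕ) : Set (Site → Dat) := {ω | ∃ p : ℕ → Site, nrm (blk n (p 0)) ≤ 1 ∧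
  Function.Injective p ∧ ∀ i, Adj (p i) (p (i + 1)) ∧ p i ∈ occOn Set.univ ω}

lemma percN_subset (n : ℕ) : PercN n ⊆ ⋃ k ∈ box (-1, -1, -1) 3, (E n k ∪ Hbad n (par k)) := by
  rintro ω ⟨p, hp0, hinj, hp⟩
  simp only [Set.mem_iUnion, exists_prop]
  refine ⟨blk n (p 0), ?_, ?_⟩
  · rw [nrm_le_iff] at hp0
    rw [mem_box]
    push_cast
    omega
  · by_cases hbad : ω ∈ Hbad n (par (blk n (p 0)))
    · exact Or.inr hbad
    · left
      -- the path leaves the ring
      have hfin : {a : Site | nrm (blk n a - blk n (p 0)) ≤ 1}.Finite := by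
        refine Set.Finite.subset (box (crn n (par (blk n (p 0)))) (40 * 8 ^ n)).finite_toSet ?_
        intro a ha
        refine mem_box_of_reg n (reg_subset_par n _ ?_)
        have : nrm (blk n a - blk n (p 0)) ≤ 1 := ha
        show nrm (blk n a - blk n (p 0)) ≤ 2
        omega
      obtain ⟨i, hi⟩ : ∃ i, p i ∉ {a : Site | nrm (blk n a - blk n (p 0)) ≤ 1} := by
        by_contra hcon
        push Not at hcon
        have : (Set.range p).Finite := hfin.subset (by rintro _ ⟨i, rfl⟩; exact hcon i)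
        exact (Set.infinite_range_of_injective hinj) this
      have hconn : ∀ i, Conn (occOn Set.univ ω) (p 0) (p i) := by
        intro i
        induction i with
        | zero => exact Relation.ReflTransGen.refl
        | succ i ih =>
          exact Relation.ReflTransGen.tail ih ⟨(hp i).1, (hp i).2, (hp (i + 1)).2⟩
      have hcross : Cross n (blk n (p 0)) (occOn Set.univ ω) := by
        refine ⟨p 0, p i, rfl, ?_, hconn i⟩
        have : ¬ nrm (blk n (p i) - blk n (p 0)) ≤ 1 := hi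
        omega
      refine hcross.local.mono ?_
      refine subset_trans (Set.inter_subset_inter_right _ (reg_subset_par n _)) ?_
      exact occS_of_not_Hbad hbad

lemma percN_mono : Monotone PercN := by
  apply monotone_nat_of_le_succ
  rintro n ω ⟨p, hp0, hinj, hp⟩
  refine ⟨p, ?_, hinj, hp⟩
  rw [blk_succ]
  rw [nrm_le_iff] at hp0 ⊢
  simp only [par] at hp0 ⊢
  omega

lemma iUnion_percN : ⋃ n, PercN n = {ω | Perc (occOn Set.univ ω)} := by
  ext ω
  simp only [Set.mem_iUnion]
  constructor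
  · rintro ⟨n, p, _, hinj, hp⟩
    exact ⟨p, hinj, hp⟩
  · rintro ⟨p, hinj, hp⟩
    obtain ⟨n, hn⟩ : ∃ n : ℕ, nrm (p 0) ≤ 8 ^ n :=
      ⟨nrm (p 0), (Nat.lt_pow_self (by norm_num)).le⟩
    refine ⟨n, p, ?_, hinj, hp⟩
    have h1 : nrm (p 0 - 0) ≤ 8 ^ n := by simpa using hn
    have h2 := nrm_blk_sub_le n h1
    have h3 : blk n 0 = 0 := by simp [blk]
    rwa [h3, sub_zero] at h2

/-- Part A: no percolation for small intensity. -/
theorem no_perc (N : Measure ℕ) [IsProbabilityMeasure N] (m : PMF ℕ) (C : ℝ) (hC : 0 ≤ C)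
    (hm0 : m 0 = 0)
    (hm : ∀ L : ℕ, 1 ≤ L → (m L).toReal ≤ C * ((L : ℝ) ^ 2 * Real.sqrt L)⁻¹)
    (ha : 4 * (8 ^ 3 * 40 ^ 3) *
      ((∫⁻ n, (n : ℝ≥0∞) ∂N) * (ENNReal.ofReal (C * (42 ^ 3 * 1026) * 4) + 27)) ≤ 1) :
    wormLaw N m.toMeasure {ω | Perc (occOn Set.univ ω)} = 0 := by
  set a := (∫⁻ n, (n : ℝ≥0∞) ∂N) * (ENNReal.ofReal (C * (42 ^ 3 * 1026) * 4) + 27) with haD
  have hE := measure_E_le N m C hC hm0 hm a le_rfl ha
  have hH : ∀ n K, wormLaw N m.toMeasure (Hbad n K) ≤ a := by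
    intro n K
    refine (measure_Hbad N m C hC hm0 hm n K).trans ?_
    rw [haD]
    gcongr
    exact le_self_add
  rcases perc_zero_one N m.toMeasure with h | h
  · exact h
  · exfalso
    rw [← iUnion_percN, Monotone.measure_iUnion percN_mono] at h
    have hle : ∀ n, wormLaw N m.toMeasure (PercN n) ≤ 1 / 2 := by
      intro n
      refine (measure_mono (percN_subset n)).trans ?_
      refine (measure_biUnion_finset_le _ _).trans ?_
      calc ∑ k ∈ box (-1, -1, -1) 3, wormLaw N m.toMeasure (E n k ∪ Hbad n (par k))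
          ≤ ∑ k ∈ box (-1, -1, -1) 3, (2 * a + a) := by
            apply Finset.sum_le_sum
            intro k _
            exact (measure_union_le _ _).trans (add_le_add (hE n k) (hH n _))
        _ = 81 * a := by
            rw [Finset.sum_const, card_box, nsmul_eq_mul]
            push_cast
            ring
        _ ≤ 1 / 2 := by
            rw [ENNReal.le_div_iff_mul_le (Or.inl (by norm_num)) (Or.inl (by norm_num))]
            calc 81 * a * 2 ≤ 4 * (8 ^ 3 * 40 ^ 3) * a := by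
                  have : 81 * a * 2 = 162 * a := by ring
                  rw [this]
                  gcongr
                  norm_num
              _ ≤ 1 := ha
    have h2 : (⨆ n, wormLaw N m.toMeasure (PercN n)) ≤ 1 / 2 := iSup_le hle
    rw [h] at h2
    norm_num at h2

end Pool.Agent.Worm

end PartASec

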