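import Mathlib
import Pool.Agent.Lib.MP_b9fdbf_pr.HK
import Pool.Agent.Lib.MP_b9fdbf_pr.PA

set_option autoImplicit false

section ChainSec
set_option linter.deprecated false

open MeasureTheory Measure ProbabilityTheory
open scoped ENNReal

namespace Pool.Agent.Worm

/-! ### Splitting a walk in two halves -/

/-- remaining steps -/
def shift (T : ℕ) (σ : ℕ → Fin 6) : ℕ → Fin 6 := fun k => σ (T + k)

lemma walk_shift (T : ℕ) (σ : ℕ → Fin 6) (s : ℕ) :
    walk σ (T + s) = walk σ T + walk (shift T σ) s := by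
  induction s with
  | zero => simp [walk_zero]
  | succ s ih => rw [← add_assoc, walk_succ, ih, walk_succ, add_assoc]; rfl

lemma shift_cat (T : ℕ) (σ τ : ℕ → Fin 6) : shift T (cat T (σ, τ)) = τ := by
  funext k
  simp [shift, cat]

@[fun_prop]
lemma measurable_shift (T : ℕ) : Measurable (shift T) := by
  unfold shift
  fun_prop

lemma measurable_tr2 (T : ℕ) :
    Measurable (fun p : Site × (ℕ → Fin 6) => tr p.1 p.2 T) := by
  unfold tr
  induction T with
  | zero => simp only [Finset.range_zero, Finset.image_empty]; exact measurable_const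
  | succ T ih =>
    simp only [Finset.range_add_one, Finset.image_insert]
    exact (measurable_of_countable (fun p : Site × Finset Site => insert p.1 p.2)).comp
        ((measurable_fst.add ((measurable_walk T).comp measurable_snd)).prodMk ih)

/-- The walk from `y` hits `A` in its first half and has a good second half. -/
def Hit (R : ℕ) (A : Finset Site) (y : Site) : Set (ℕ → Fin 6) :=
  {σ | σ ∈ Ht R A y ∧
    Good (512 * R) (tr (y + walk σ ((512 * R) ^ 2)) (shift ((512 * R) ^ 2) σ) ((512 * R) ^ 2))}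

lemma measurableSet_Hit (R : ℕ) (A : Finset Site) (y : Site) : MeasurableSet (Hit R A y) := by
  have h1 : Measurable (fun σ : ℕ → Fin 6 =>
      tr (y + walk σ ((512 * R) ^ 2)) (shift ((512 * R) ^ 2) σ) ((512 * R) ^ 2)) :=
    (measurable_tr2 ((512 * R) ^ 2)).comp
      ((measurable_const.add (measurable_walk _)).prodMk (measurable_shift _))
  exact (measurableSet_Ht R A y).inter (h1 (Set.to_countable {A | Good (512 * R) A}).measurableSet)

lemma mx_cat (T : ℕ) (σ τ : ℕ → Fin 6) : mx (cat T (σ, τ)) T = mx σ T := by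
  unfold mx
  refine Finset.sup_congr rfl fun j hj => ?_
  rw [walk_cat_le _ _ (by have := Finset.mem_range.mp hj; omega)]

lemma Ht_cat (R : ℕ) (A : Finset Site) (y : Site) (σ τ : ℕ → Fin 6) :
    cat ((512 * R) ^ 2) (σ, τ) ∈ Ht R A y ↔ σ ∈ Ht R A y := by
  unfold Ht
  simp only [Set.mem_ofPred_eq, mx_cat]
  refine and_congr_right fun _ => exists_congr fun u => and_congr_right fun hu => ?_
  rw [walk_cat_le _ _ hu.le]

lemma hit_prob {R : ℕ} (hR : 1 ≤ R) (A : Finset Site) (hA : ∀ a ∈ A, nrm a ≤ 40 * R) (y : Site) :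
    ENNReal.ofReal (1 / 41472 ^ 3) * stepLaw (Ht R A y) ≤ stepLaw (Hit R A y) := by
  have hms := measurableSet_Hit R A y
  rw [← lintegral_indicator_one hms, lintegral_cat ((512 * R) ^ 2) _ (measurable_one.indicator hms),
    ← lintegral_indicator_one (measurableSet_Ht R A y),
    ← lintegral_const_mul _ (measurable_one.indicator (measurableSet_Ht R A y))]
  refine lintegral_mono fun σ => ?_
  by_cases h : σ ∈ Ht R A y
  · rw [Set.indicator_of_mem h, Pi.one_apply, mul_one]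
    have hz : nrm (y + walk σ ((512 * R) ^ 2)) ≤ 32 * (512 * R) := by
      obtain ⟨h1, u, hu, h2⟩ := h
      have h3 := hA _ h2
      have h4 := le_mx σ hu.le
      have h5 := le_mx σ (le_refl ((512 * R) ^ 2))
      have h6 : y + walk σ ((512 * R) ^ 2) = (y + walk σ u) +
          (walk σ ((512 * R) ^ 2) - walk σ u) := by abel
      rw [h6]
      have h7 := nrm_add_le (y + walk σ u) (walk σ ((512 * R) ^ 2) - walk σ u)
      have h8 := nrm_sub_le (walk σ ((512 * R) ^ 2)) (walk σ u)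
      omega
    refine (good_prob (R := 512 * R) (by omega) _ hz).trans ?_
    rw [← lintegral_indicator_one (measurableSet_good _ _ _)]
    refine lintegral_mono fun τ => ?_
    by_cases h2 : Good (512 * R) (tr (y + walk σ ((512 * R) ^ 2)) τ ((512 * R) ^ 2))
    · have h3 : cat ((512 * R) ^ 2) (σ, τ) ∈ Hit R A y := by
        refine ⟨(Ht_cat R A y σ τ).mpr h, ?_⟩
        rw [shift_cat, walk_cat_le _ _ le_rfl]
        exact h2
      rw [Set.indicator_of_mem h3, Set.indicator_of_mem (by exact h2)]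
      exact le_rfl
    · rw [Set.indicator_of_notMem (by exact h2)]
      exact zero_le
  · rw [Set.indicator_of_notMem h]
    simp

/-! ### Success of a site -/

/-- The first worm at `y` is long, hits `A` and has a good second half. -/
def Suc (R : ℕ) (A : Finset Site) (y : Site) : Set Dat :=
  {d | 0 < d.1 ∧ wormOf d 0 ∈ ({L : ℕ | 2 * (512 * R) ^ 2 ≤ L} ×ˢ Hit R A y)}

lemma measurableSet_first (Q : Set (ℕ × (ℕ → Fin 6))) (hQ : MeasurableSet Q) :
    MeasurableSet {d : Dat | 0 < d.1 ∧ wormOf d 0 ∈ Q} := by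
  have h1 : MeasurableSet {d : Dat | 0 < d.1} :=
    measurable_fst (Set.to_countable {n : ℕ | 0 < n}).measurableSet
  exact h1.inter (measurable_wormOf 0 hQ)

lemma measurableSet_Suc (R : ℕ) (A : Finset Site) (y : Site) : MeasurableSet (Suc R A y) :=
  measurableSet_first _ ((Set.to_countable _).measurableSet.prod (measurableSet_Hit R A y))

lemma datLaw_Suc (N m : Measure ℕ) [IsProbabilityMeasure N] [IsProbabilityMeasure m]
    (R : ℕ) (A : Finset Site) (y : Site) :
    datLaw N m (Suc R A y) = N {n | 0 < n} * (m {L : ℕ | 2 * (512 * R) ^ 2 ≤ L} *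
      stepLaw (Hit R A y)) := by
  unfold Suc
  rw [datLaw_worm N m 0 _ ((Set.to_countable _).measurableSet.prod (measurableSet_Hit R A y)),
    Measure.prod_prod]

/-- No site in the annulus succeeds. -/
def Fail (R : ℕ) (A : Finset Site) : Set (Site → Dat) := {ω | ∀ y ∈ Lam R, ω y ∉ Suc R A y}

lemma measurable_Fail (R : ℕ) (A : Finset Site) :
    MeasurableSet[⨆ x ∈ ((Lam R : Finset Site) : Set Site), siteAlg x] (Fail R A) := by
  have h : Fail R A = ⋂ y ∈ ((Lam R : Finset Site) : Set Site), {ω | ω y ∈ (Suc R A y)ᶜ} := by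
    ext ω; simp [Fail]
  rw [h]
  refine MeasurableSet.biInter (Set.to_countable _) fun y hy => ?_
  have h1 : MeasurableSet[siteAlg y] {ω : Site → Dat | ω y ∈ (Suc R A y)ᶜ} :=
    ⟨(Suc R A y)ᶜ, (measurableSet_Suc R A y).compl, rfl⟩
  have h2 : siteAlg y ≤ ⨆ x ∈ ((Lam R : Finset Site) : Set Site), siteAlg x := le_biSup siteAlg hy
  exact h2 _ h1

lemma measure_Fail (N m : Measure ℕ) [IsProbabilityMeasure N] [IsProbabilityMeasure m]
    (R : ℕ) (A : Finset Site) :
    wormLaw N m (Fail R A) = ∏ y ∈ Lam R, (1 - datLaw N m (Suc R A y)) := by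
  have h : Fail R A = ((Lam R : Finset Site) : Set Site).pi (fun y => (Suc R A y)ᶜ) := by
    ext ω; simp [Fail, Set.mem_pi]
  rw [h]
  unfold wormLaw
  rw [infinitePi_pi _ (fun y _ => (measurableSet_Suc R A y).compl)]
  refine Finset.prod_congr rfl fun y _ => ?_
  rw [prob_compl_eq_one_sub (measurableSet_Suc R A y)]

lemma one_sub_le_exp (x : ℝ≥0∞) (hx : x ≤ 1) :
    1 - x ≤ ENNReal.ofReal (Real.exp (-x.toReal)) := by
  have hxt : x ≠ ∞ := (hx.trans_lt ENNReal.one_lt_top).ne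
  have h1 : 1 - x = ENNReal.ofReal (1 - x.toReal) := by
    rw [ENNReal.ofReal_sub _ ENNReal.toReal_nonneg, ENNReal.ofReal_toReal hxt, ENNReal.ofReal_one]
  rw [h1]
  apply ENNReal.ofReal_le_ofReal
  have := Real.add_one_le_exp (-x.toReal)
  linarith

/-- Failure is unlikely for good sets. -/
lemma measure_Fail_le (N m : Measure ℕ) [IsProbabilityMeasure N] [IsProbabilityMeasure m]
    {R : ℕ} (hR : 1 ≤ R) (A : Finset Site) (hA : Good R A) :
    wormLaw N m (Fail R A) ≤ ENNReal.ofReal (Real.exp (-((N {n | 0 < n}).toReal *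
      ((m {L : ℕ | 2 * (512 * R) ^ 2 ≤ L}).toReal * (1 / 41472 ^ 3 * (R : ℝ) ^ 3))))) := by
  rw [measure_Fail]
  calc ∏ y ∈ Lam R, (1 - datLaw N m (Suc R A y))
      ≤ ∏ y ∈ Lam R, ENNReal.ofReal (Real.exp (-(datLaw N m (Suc R A y)).toReal)) :=
        Finset.prod_le_prod' fun y _ => one_sub_le_exp _ prob_le_one
    _ = ENNReal.ofReal (Real.exp (-∑ y ∈ Lam R, (datLaw N m (Suc R A y)).toReal)) := by
        rw [← Finset.sum_neg_distrib, Real.exp_sum,
          ENNReal.ofReal_prod_of_nonneg (fun _ _ => (Real.exp_pos _).le)]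
    _ ≤ _ := by
        apply ENNReal.ofReal_le_ofReal
        apply Real.exp_le_exp.mpr
        apply neg_le_neg
        have h1 : ∀ y ∈ Lam R, (N {n | 0 < n}).toReal *
            ((m {L : ℕ | 2 * (512 * R) ^ 2 ≤ L}).toReal * (1 / 41472 ^ 3 *
              (stepLaw (Ht R A y)).toReal)) ≤ (datLaw N m (Suc R A y)).toReal := by
          intro y _
          rw [datLaw_Suc, ENNReal.toReal_mul, ENNReal.toReal_mul]
          have h2 := hit_prob hR A hA.1 y
          have h3 := ENNReal.toReal_mono (measure_ne_top _ _) h2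
          rw [ENNReal.toReal_mul, ENNReal.toReal_ofReal (by norm_num)] at h3
          gcongr
        have h4 : (R : ℝ) ^ 3 ≤ ∑ y ∈ Lam R, (stepLaw (Ht R A y)).toReal := by
          have h5 := ENNReal.toReal_mono (ENNReal.sum_ne_top.mpr fun y _ => measure_ne_top _ _) hA.2
          rw [ENNReal.toReal_sum (fun y _ => measure_ne_top _ _)] at h5
          simpa using h5
        calc (N {n | 0 < n}).toReal *
              ((m {L : ℕ | 2 * (512 * R) ^ 2 ≤ L}).toReal * (1 / 41472 ^ 3 * (R : ℝ) ^ 3))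
            ≤ (N {n | 0 < n}).toReal *
              ((m {L : ℕ | 2 * (512 * R) ^ 2 ≤ L}).toReal * (1 / 41472 ^ 3 *
                ∑ y ∈ Lam R, (stepLaw (Ht R A y)).toReal)) := by gcongr
          _ = ∑ y ∈ Lam R, (N {n | 0 < n}).toReal *
            ((m {L : ℕ | 2 * (512 * R) ^ 2 ≤ L}).toReal * (1 / 41472 ^ 3 *
              (stepLaw (Ht R A y)).toReal)) := by
              rw [Finset.mul_sum, Finset.mul_sum, Finset.mul_sum]
          _ ≤ _ := Finset.sum_le_sum h1

/-! ### States -/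

/-- ball of radius `40 R` -/
def Bl (R : ℕ) : Set Site := {x | nrm x ≤ 40 * R}

/-- `A` is good and connected to the origin, and the origin is connected to distance `n`. -/
def V (R n : ℕ) (A : Finset Site) : Set (Site → Dat) :=
  {ω | Good R A ∧ (∀ a ∈ A, Conn (occOn (Bl R) ω) 0 a) ∧
    ∃ w, n ≤ nrm w ∧ Conn (occOn (Bl R) ω) 0 w}

lemma measurable_V (R n : ℕ) (A : Finset Site) :
    MeasurableSet[⨆ x ∈ Bl R, siteAlg x] (V R n A) := by
  by_cases hg : Good R A
  · have h : V R n A = (⋂ a ∈ ((A : Finset Site) : Set Site), {ω | Conn (occOn (Bl R) ω) 0 a}) ∩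
        ⋃ w ∈ {w : Site | n ≤ nrm w}, {ω | Conn (occOn (Bl R) ω) 0 w} := by
      ext ω
      simp [V, hg]
    rw [h]
    have hc : ∀ w, MeasurableSet[⨆ x ∈ Bl R, siteAlg x] {ω | Conn (occOn (Bl R) ω) 0 w} :=
      fun w => @measurableSet_conn _ (⨆ x ∈ Bl R, siteAlg x) (fun ω => occOn (Bl R) ω)
        (measurable_occOn (Bl R)) 0 w
    exact @MeasurableSet.inter _ (⨆ x ∈ Bl R, siteAlg x) _ _
      (MeasurableSet.biInter (Set.to_countable _) fun a _ => hc a)
      (MeasurableSet.biUnion (Set.to_countable _) fun w _ => hc w)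
  · have h : V R n A = ∅ := by
      ext ω
      simp [V, hg]
    rw [h]
    exact @MeasurableSet.empty _ (⨆ x ∈ Bl R, siteAlg x)

lemma Bl_mono {R R' : ℕ} (h : R ≤ R') : Bl R ⊆ Bl R' := by
  intro x hx
  have : nrm x ≤ 40 * R := hx
  show nrm x ≤ 40 * R'
  omega

/-- points of a worm are connected to each other -/
lemma conn_worm (S : Set Site) (ω : Site → Dat) (y : Site) (hy : y ∈ S) (h0 : 0 < (ω y).1)
    (i j : ℕ) (hi : i < (wormOf (ω y) 0).1) (hj : j < (wormOf (ω y) 0).1) :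
    Conn (occOn S ω) (y + walk (wormOf (ω y) 0).2 i) (y + walk (wormOf (ω y) 0).2 j) := by
  have hmem : ∀ k < (wormOf (ω y) 0).1, y + walk (wormOf (ω y) 0).2 k ∈ occOn S ω :=
    fun k hk => ⟨y, hy, 0, h0, k, hk, rfl⟩
  have h1 : ∀ k < (wormOf (ω y) 0).1, Conn (occOn S ω) (y + walk (wormOf (ω y) 0).2 0)
      (y + walk (wormOf (ω y) 0).2 k) := by
    intro k
    induction k with
    | zero => intro _; exact Relation.ReflTransGen.refl
    | succ k ih =>
      intro hk
      refine Relation.ReflTransGen.tail (ih (by omega)) ⟨?_, hmem k (by omega), hmem _ hk⟩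
      rw [walk_succ, ← add_assoc]
      exact adj_vec _ _
  exact (h1 i hi).symm.trans (h1 j hj)

/-- Going from one scale to the next. -/
lemma V_step {R n n' : ℕ} (hR : 1 ≤ R) (hn' : n' ≤ 40 * R + 1) {A : Finset Site} {ω : Site → Dat}
    (hV : ω ∈ V R n A) (hF : ω ∉ Fail R A) : ∃ A', ω ∈ V (512 * R) n' A' := by
  obtain ⟨hg, hA, -⟩ := hV
  have hF' : ∃ y ∈ Lam R, ω y ∈ Suc R A y := by
    by_contra hcon
    push Not at hcon
    exact hF hcon
  obtain ⟨y, hy, h0, hL, hHt, hgood⟩ := hF'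
  rw [mem_Lam] at hy
  set σ := (wormOf (ω y) 0).2 with hσ
  have hL' : 2 * (512 * R) ^ 2 ≤ (wormOf (ω y) 0).1 := hL
  have hyB : y ∈ Bl (512 * R) := hy.1
  obtain ⟨hmx, u, hu, hua⟩ := hHt
  have hsub : occOn (Bl R) ω ⊆ occOn (Bl (512 * R)) ω := occOn_mono (Bl_mono (by omega)) ω
  have hT : 0 < (512 * R) ^ 2 := by positivity
  have hall : ∀ j < (wormOf (ω y) 0).1, Conn (occOn (Bl (512 * R)) ω) 0 (y + walk σ j) := by
    intro j hj
    have h1 := (hA _ hua).mono hsub
    exact h1.trans (conn_worm (Bl (512 * R)) ω y hyB h0 u j (by omega) hj)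
  refine ⟨_, hgood, ?_, y, ?_, ?_⟩
  · intro a ha
    obtain ⟨s, hs, rfl⟩ := mem_tr.mp ha
    rw [add_assoc, ← walk_shift]
    exact hall _ (by omega)
  · omega
  · have := hall 0 (by omega)
    rwa [walk_zero, add_zero] at this

/-- The initial event. -/
def Suc0 (R : ℕ) : Set Dat :=
  {d | 0 < d.1 ∧ wormOf d 0 ∈ ({L : ℕ | R ^ 2 ≤ L} ×ˢ {σ | Good R (tr 0 σ (R ^ 2))})}

lemma V_start {R : ℕ} (hR : 1 ≤ R) {ω : Site → Dat} (h : ω 0 ∈ Suc0 R) : ∃ A, ω ∈ V R 0 A := by
  obtain ⟨h0, hL, hg⟩ := h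
  refine ⟨_, hg, ?_, 0, ?_, Relation.ReflTransGen.refl⟩
  · intro a ha
    obtain ⟨s, hs, rfl⟩ := mem_tr.mp ha
    have hL' : R ^ 2 ≤ (wormOf (ω 0) 0).1 := hL
    have hR2 : 0 < R ^ 2 := by positivity
    have h1 := conn_worm (Bl R) ω 0 (by show nrm 0 ≤ 40 * R; rw [nrm_zero]; omega) h0 0 s
      (by omega) (by omega)
    rwa [walk_zero, add_zero] at h1
  · exact Nat.zero_le _

end Pool.Agent.Worm

end ChainSec

section PartBSec
set_option linter.deprecated false

open MeasureTheory Measure ProbabilityTheory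
open scoped ENNReal

namespace Pool.Agent.Worm

/-- One step of the exploration. -/
lemma chain_step {Ω : Type*} {mΩ : MeasurableSpace Ω} (μ : Measure Ω)
    (mA mB : MeasurableSpace Ω) (hAB : Indep mA mB μ) (hmA : mA ≤ mΩ) (V W : ℕ → Set Ω)
    (hV : ∀ i, MeasurableSet[mA] (V i)) (hW : ∀ i, MeasurableSet[mB] (W i)) (ε : ℝ≥0∞)
    (hε : ∀ i, (V i).Nonempty → μ (W i) ≤ ε) (D' : Set Ω) (hD : ∀ i, V i \ W i ⊆ D') :
    μ (⋃ i, V i) ≤ μ D' + ε * μ (⋃ i, V i) := by
  have hVd : ∀ i, MeasurableSet[mA] (disjointed V i) := fun i =>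
    @MeasurableSet.disjointed _ mA V hV i
  have hsub : (⋃ i, V i) ⊆ D' ∪ ⋃ i, (disjointed V i ∩ W i) := by
    intro ω hω
    rw [← iUnion_disjointed] at hω
    obtain ⟨i, hi⟩ := Set.mem_iUnion.mp hω
    by_cases h : ω ∈ W i
    · right; exact Set.mem_iUnion.mpr ⟨i, hi, h⟩
    · left; exact hD i ⟨disjointed_subset V i hi, h⟩
  refine (measure_mono hsub).trans ((measure_union_le _ _).trans ?_)
  gcongr
  refine (measure_iUnion_le _).trans ?_
  have h1 : ∀ i, μ (disjointed V i ∩ W i) ≤ ε * μ (disjointed V i) := by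
    intro i
    rw [(Indep_iff _ _ _).mp hAB _ _ (hVd i) (hW i), mul_comm]
    by_cases hne : (V i).Nonempty
    · gcongr
      exact hε i hne
    · rw [Set.not_nonempty_iff_eq_empty] at hne
      have : disjointed V i = ∅ := Set.eq_empty_of_subset_empty (by
        have := disjointed_subset V i
        rwa [hne] at this)
      rw [this]
      simp
  refine (ENNReal.tsum_le_tsum h1).trans ?_
  rw [ENNReal.tsum_mul_left, ← measure_iUnion (disjoint_disjointed V)
    (fun i => hmA _ (hVd i)), iUnion_disjointed]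

/-- The event at scale `R`. -/
def DD (R n : ℕ) : Set (Site → Dat) := ⋃ A : Finset Site, V R n A

/-- exponent of the failure probability -/
noncomputable def xx (N m : Measure ℕ) (R : ℕ) : ℝ :=
  (N {n | 0 < n}).toReal *
      ((m {L : ℕ | 2 * (512 * R) ^ 2 ≤ L}).toReal * (1 / 41472 ^ 3 * (R : ℝ) ^ 3))

lemma DD_step (N m : Measure ℕ) [IsProbabilityMeasure N] [IsProbabilityMeasure m] {R n n' : ℕ}
    (hR : 1 ≤ R) (hn' : n' ≤ 40 * R + 1) :
    wormLaw N m (DD R n) ≤ wormLaw N m (DD (512 * R) n') +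
      ENNReal.ofReal (Real.exp (-xx N m R)) * wormLaw N m (DD R n) := by
  obtain ⟨f, hf⟩ := exists_surjective_nat (Finset Site)
  have hDD : DD R n = ⋃ i, V R n (f i) := by
    unfold DD
    exact (hf.iUnion_comp (fun A => V R n A)).symm
  rw [hDD]
  have hdisj : Disjoint (Bl R) ((Lam R : Finset Site) : Set Site) := by
    rw [Set.disjoint_left]
    intro x hx hx'
    have h1 : nrm x ≤ 40 * R := hx
    have h2 := (mem_Lam.mp (Finset.mem_coe.mp hx')).2
    omega
  refine chain_step (wormLaw N m) (⨆ x ∈ Bl R, siteAlg x)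
    (⨆ x ∈ ((Lam R : Finset Site) : Set Site), siteAlg x) (indep_sites N m hdisj)
    (iSup₂_le fun x _ => siteAlg_le x) (fun i => V R n (f i)) (fun i => Fail R (f i))
    (fun i => measurable_V R n (f i)) (fun i => measurable_Fail R (f i)) _ ?_ _ ?_
  · rintro i ⟨ω, hω⟩
    exact measure_Fail_le N m hR (f i) hω.1
  · rintro i ω ⟨hV, hF⟩
    obtain ⟨A', hA'⟩ := V_step hR hn' hV hF
    exact Set.mem_iUnion.mpr ⟨A', hA'⟩

/-! ### Numerical part -/

lemma mass_lower (m : PMF ℕ) (c β : ℝ) (hc : 0 < c) (hβ : 0 ≤ β)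
    (hm : ∀ ℓ : ℕ, 1 ≤ ℓ → c * (ℓ : ℝ) ^ (-β) ≤ (m ℓ).toReal) (T : ℕ) (hT : 1 ≤ T) :
    c * (2 * (T : ℝ) * (4 * (T : ℝ)) ^ (-β)) ≤ (m.toMeasure {L | 2 * T ≤ L}).toReal := by
  have h1 : m.toMeasure ((Finset.Ico (2 * T) (4 * T) : Finset ℕ) : Set ℕ) ≤
      m.toMeasure {L | 2 * T ≤ L} := by
    apply measure_mono
    intro L hL
    exact (Finset.mem_Ico.mp (Finset.mem_coe.mp hL)).1
  refine le_trans ?_ (ENNReal.toReal_mono (measure_ne_top _ _) h1)
  rw [PMF.toMeasure_apply_finset, ENNReal.toReal_sum (fun _ _ => PMF.apply_ne_top _ _)]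
  have h2 : ∀ ℓ ∈ Finset.Ico (2 * T) (4 * T), c * (4 * (T : ℝ)) ^ (-β) ≤ (m ℓ).toReal := by
    intro ℓ hℓ
    have hℓ' := Finset.mem_Ico.mp hℓ
    refine le_trans ?_ (hm ℓ (by omega))
    refine mul_le_mul_of_nonneg_left ?_ hc.le
    apply Real.rpow_le_rpow_of_nonpos
    · have : 0 < ℓ := by omega
      exact_mod_cast this
    · have : ℓ ≤ 4 * T := by omega
      exact_mod_cast this
    · linarith
  refine le_trans ?_ (Finset.sum_le_sum h2)
  rw [Finset.sum_const, Nat.card_Ico, nsmul_eq_mul]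
  have h3 : 4 * T - 2 * T = 2 * T := by omega
  rw [h3]
  push_cast
  apply le_of_eq
  ring

lemma growth (β : ℝ) (K : ℕ) :
    (2 * (512 * (512 : ℝ) ^ K) ^ 2 * (4 * (512 * (512 : ℝ) ^ K) ^ 2) ^ (-β)) *
      ((512 : ℝ) ^ K) ^ 3 =
      (1 / 2) * (1024 : ℝ) ^ (2 - 2 * β) * ((512 : ℝ) ^ (5 - 2 * β)) ^ K := by
  have e1 : (4 * (512 * (512 : ℝ) ^ K) ^ 2) ^ (-β) =
      (1024 : ℝ) ^ (-(2 * β)) * ((512 : ℝ) ^ K) ^ (-(2 * β)) := by
    have h1 : (4 * (512 * (512 : ℝ) ^ K) ^ 2) = (1024 * (512 : ℝ) ^ K) ^ (2 : ℝ) := by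
      rw [Real.rpow_ofNat]; ring
    rw [h1, ← Real.rpow_mul (by positivity), Real.mul_rpow (by norm_num) (by positivity)]
    have h2 : 2 * -β = -(2 * β) := by ring
    rw [h2]
  have e2 : (1024 : ℝ) ^ (2 - 2 * β) = 1024 ^ 2 * (1024 : ℝ) ^ (-(2 * β)) := by
    rw [sub_eq_add_neg, Real.rpow_add (by norm_num), Real.rpow_ofNat]
  have e3 : ((512 : ℝ) ^ (5 - 2 * β)) ^ K = ((512 : ℝ) ^ K) ^ 5 * ((512 : ℝ) ^ K) ^ (-(2 * β)) := by
    have h3 : ((512 : ℝ) ^ (5 - 2 * β)) ^ K = ((512 : ℝ) ^ K) ^ (5 - 2 * β) := by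
      rw [← Real.rpow_natCast, ← Real.rpow_mul (by norm_num), mul_comm, Real.rpow_mul (by norm_num),
        Real.rpow_natCast]
    rw [h3, sub_eq_add_neg, Real.rpow_add (by positivity), Real.rpow_ofNat]
  rw [e1, e2, e3]
  ring

lemma xx_lower (N : Measure ℕ) [IsProbabilityMeasure N] (m : PMF ℕ) (c β : ℝ) (hc : 0 < c)
    (hβ : 0 ≤ β) (hm : ∀ ℓ : ℕ, 1 ≤ ℓ → c * (ℓ : ℝ) ^ (-β) ≤ (m ℓ).toReal) (K : ℕ) :
    ((N {n | 0 < n}).toReal * (c / 41472 ^ 3 * ((1 / 2) * (1024 : ℝ) ^ (2 - 2 * β)))) *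
      ((512 : ℝ) ^ (5 - 2 * β)) ^ K ≤ xx N m.toMeasure (512 ^ K) := by
  unfold xx
  have h1 := mass_lower m c β hc hβ hm ((512 * 512 ^ K) ^ 2) (Nat.one_le_pow _ _ (by positivity))
  push_cast at h1
  have h2 := growth β K
  calc ((N {n | 0 < n}).toReal * (c / 41472 ^ 3 * ((1 / 2) * (1024 : ℝ) ^ (2 - 2 * β)))) *
        ((512 : ℝ) ^ (5 - 2 * β)) ^ K
      = (N {n | 0 < n}).toReal * (c / 41472 ^ 3 * ((1 / 2) * (1024 : ℝ) ^ (2 - 2 * β) *
        ((512 : ℝ) ^ (5 - 2 * β)) ^ K)) := by ring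
    _ = (N {n | 0 < n}).toReal * ((c * (2 * (512 * (512 : ℝ) ^ K) ^ 2 *
        (4 * (512 * (512 : ℝ) ^ K) ^ 2) ^ (-β))) * (1 / 41472 ^ 3 * ((512 : ℝ) ^ K) ^ 3)) := by
        rw [← h2]; ring
    _ ≤ _ := by
        push_cast
        gcongr

/-! ### Infinite clusters -/

lemma perc_of_conn {A : Set Site} (h : ∀ n : ℕ, ∃ w, n ≤ nrm w ∧ Conn A 0 w) : Perc A := by
  apply perc_of_pathFrom (x := 0)
  intro n
  obtain ⟨w, hw, hconn⟩ := h (n + 1)
  let G : SimpleGraph Site :=
    { Adj := fun a b => Adj a b ∧ a ∈ A ∧ b ∈ A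
      symm := ⟨fun a b h => ⟨h.1.symm, h.2.2, h.2.1⟩⟩
      loopless := ⟨fun a h => by
        have := h.1
        simp [Adj] at this⟩ }
  have hall : ∀ w, Conn A 0 w → G.Reachable 0 w := by
    intro w hc
    induction hc with
    | refl => exact SimpleGraph.Reachable.refl _
    | tail _ hbc ih => exact ih.trans (SimpleGraph.Adj.reachable (G := G) hbc)
  have hreach := hall w hconn
  obtain ⟨p, hp⟩ := hreach.exists_isPath
  have hlen : ∀ i ≤ p.length, nrm (p.getVert i) ≤ i := by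
    intro i
    induction i with
    | zero => intro _; rw [SimpleGraph.Walk.getVert_zero, nrm_zero]
    | succ i ih =>
      intro hi
      have h1 := ih (by omega)
      have h2 := (p.adj_getVert_succ (by omega : i < p.length)).1.nrm_le
      have h3 : p.getVert (i + 1) = (p.getVert (i + 1) - p.getVert i) + p.getVert i := by abel
      rw [h3]
      exact (nrm_add_le _ _).trans (by omega)
  have hl := hlen p.length le_rfl
  rw [SimpleGraph.Walk.getVert_length] at hl
  refine ⟨p.getVert, p.getVert_zero, ?_, ?_, ?_⟩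
  · intro i hi j hj hij
    have hi' : i ≤ n := hi
    have hj' : j ≤ n := hj
    exact hp.getVert_injOn (by show i ≤ p.length; omega) (by show j ≤ p.length; omega) hij
  · intro i hi
    exact (p.adj_getVert_succ (by omega : i < p.length)).1
  · intro i hi
    exact (p.adj_getVert_succ (by omega : i < p.length)).2.1

/-- The origin is connected to distance `n`. -/
def Far (n : ℕ) : Set (Site → Dat) := {ω | ∃ w, n ≤ nrm w ∧ Conn (occOn Set.univ ω) 0 w}

lemma measurableSet_Far (n : ℕ) : MeasurableSet (Far n) := by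
  have h : Far n = ⋃ w ∈ {w : Site | n ≤ nrm w}, {ω | Conn (occOn Set.univ ω) 0 w} := by
    ext ω; simp [Far]
  rw [h]
  refine MeasurableSet.biUnion (Set.to_countable _) fun w _ => ?_
  refine measurableSet_conn (fun ω => occOn Set.univ ω) (fun y => ?_) 0 w
  have h1 : (⨆ x ∈ (Set.univ : Set Site), siteAlg x) ≤
      (inferInstance : MeasurableSpace (Site → Dat)) :=
    iSup₂_le fun x _ => siteAlg_le x
  exact h1 _ (measurable_occOn Set.univ y)

lemma DD_subset_Far (R n : ℕ) : DD R n ⊆ Far n := by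
  intro ω hω
  obtain ⟨A, _, _, w, hw, hc⟩ := Set.mem_iUnion.mp hω
  exact ⟨w, hw, hc.mono (occOn_mono (Set.subset_univ _) ω)⟩

lemma Far_anti : Antitone Far := by
  intro a b hab ω hω
  obtain ⟨w, hw, hc⟩ := hω
  exact ⟨w, hab.trans hw, hc⟩

/-- Part B: percolation for every positive intensity. -/
theorem perc_pos (N : Measure ℕ) [IsProbabilityMeasure N] (hN : N {n | 0 < n} ≠ 0) (m : PMF ℕ)
    (c β : ℝ) (hc : 0 < c) (hβ : 0 ≤ β) (hβ2 : β < 5 / 2)
    (hm : ∀ ℓ : ℕ, 1 ≤ ℓ → c * (ℓ : ℝ) ^ (-β) ≤ (m ℓ).toReal) :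
    wormLaw N m.toMeasure {ω | Perc (occOn Set.univ ω)} ≠ 0 := by
  set μ := wormLaw N m.toMeasure with hμ
  have hN0 : 0 < (N {n | 0 < n}).toReal := ENNReal.toReal_pos hN (measure_ne_top _ _)
  set a := (N {n | 0 < n}).toReal * (c / 41472 ^ 3 * ((1 / 2) * (1024 : ℝ) ^ (2 - 2 * β))) with ha
  set b := (512 : ℝ) ^ (5 - 2 * β) with hb
  have ha0 : 0 < a := by positivity
  have hb1 : 1 < b := Real.one_lt_rpow (by norm_num) (by linarith)
  set r := Real.exp (-(a * (b - 1))) with hr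
  have hr0 : 0 < r := Real.exp_pos _
  have hr1 : r < 1 := by
    rw [hr, Real.exp_lt_one_iff]
    have : 0 < a * (b - 1) := mul_pos ha0 (by linarith)
    linarith
  have hε : ∀ K : ℕ, Real.exp (-xx N m.toMeasure (512 ^ K)) ≤ r ^ K := by
    intro K
    rw [hr, ← Real.exp_nat_mul]
    apply Real.exp_le_exp.mpr
    have h1 := xx_lower N m c β hc hβ hm K
    have h2 : 1 + (K : ℝ) * (b - 1) ≤ b ^ K := by
      have := one_add_mul_le_pow (a := b - 1) (by linarith) K
      simpa using this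
    have h3 : a * (1 + (K : ℝ) * (b - 1)) ≤ a * b ^ K := mul_le_mul_of_nonneg_left h2 ha0.le
    have h4 : a * b ^ K ≤ xx N m.toMeasure (512 ^ K) := h1
    have h5 : (K : ℝ) * -(a * (b - 1)) = a - a * (1 + (K : ℝ) * (b - 1)) := by ring
    rw [h5]
    linarith
  obtain ⟨k0, hk0⟩ := exists_pow_lt_of_lt_one (show 0 < (1 - r) / 2 by linarith) hr1
  set d : ℕ → ℝ := fun j => (μ (DD (512 ^ (k0 + j)) j)).toReal with hd
  have hd0 : ∀ j, 0 ≤ d j := fun j => ENNReal.toReal_nonneg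
  have hstep : ∀ j, d j ≤ d (j + 1) + r ^ (k0 + j) * d j := by
    intro j
    have h1 := DD_step N m.toMeasure (R := 512 ^ (k0 + j)) (n := j) (n' := j + 1)
      (Nat.one_le_pow _ _ (by norm_num)) (by
        have : k0 + j < 512 ^ (k0 + j) := Nat.lt_pow_self (by norm_num)
        omega)
    have h2 : 512 * 512 ^ (k0 + j) = 512 ^ (k0 + (j + 1)) := by
      rw [← add_assoc, pow_succ, mul_comm]
    rw [h2] at h1
    have h3 := ENNReal.toReal_mono (by finiteness) h1
    rw [ENNReal.toReal_add (by finiteness) (by finiteness), ENNReal.toReal_mul,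
      ENNReal.toReal_ofReal (Real.exp_pos _).le] at h3
    have h4 := mul_le_mul_of_nonneg_right (hε (k0 + j)) (hd0 j)
    have h5 : d j ≤ d (j + 1) + Real.exp (-xx N m.toMeasure (512 ^ (k0 + j))) * d j := h3
    linarith
  have hsum : ∀ j, (1 - ∑ i ∈ Finset.range j, r ^ (k0 + i)) * d 0 ≤ d j := by
    intro j
    induction j with
    | zero => simp
    | succ j ih =>
      rw [Finset.sum_range_succ]
      have h1 := hstep j
      have h2 : 0 < r ^ (k0 + j) := pow_pos hr0 _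
      have h3 : r ^ (k0 + j) ≤ 1 := pow_le_one₀ hr0.le hr1.le
      have h4 : 0 ≤ ∑ i ∈ Finset.range j, r ^ (k0 + i) :=
        Finset.sum_nonneg fun i _ => (pow_pos hr0 _).le
      have h5 : (1 - r ^ (k0 + j)) * ((1 - ∑ i ∈ Finset.range j, r ^ (k0 + i)) * d 0) ≤
          (1 - r ^ (k0 + j)) * d j := mul_le_mul_of_nonneg_left ih (by linarith)
      have h6 : 0 ≤ r ^ (k0 + j) * (∑ i ∈ Finset.range j, r ^ (k0 + i)) * d 0 :=
        mul_nonneg (mul_nonneg h2.le h4) (hd0 0)
      nlinarith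
  have hgeo : ∀ j, ∑ i ∈ Finset.range j, r ^ (k0 + i) ≤ 1 / 2 := by
    intro j
    have h1 : ∑ i ∈ Finset.range j, r ^ (k0 + i) = r ^ k0 * ∑ i ∈ Finset.range j, r ^ i := by
      rw [Finset.mul_sum]
      exact Finset.sum_congr rfl fun i _ => pow_add _ _ _
    rw [h1, geom_sum_eq hr1.ne]
    have h2 : (r ^ j - 1) / (r - 1) ≤ 1 / (1 - r) := by
      rw [← neg_div_neg_eq, neg_sub, neg_sub]
      have := pow_pos hr0 j
      have h3 : 0 < 1 - r := by linarith
      gcongr
      linarith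
    have h3 : 0 < 1 - r := by linarith
    calc r ^ k0 * ((r ^ j - 1) / (r - 1)) ≤ r ^ k0 * (1 / (1 - r)) := by gcongr
      _ ≤ (1 - r) / 2 * (1 / (1 - r)) := by gcongr
      _ = 1 / 2 := by field_simp
  have hd0pos : 0 < d 0 := by
    apply ENNReal.toReal_pos _ (measure_ne_top _ _)
    have hR : 1 ≤ 512 ^ (k0 + 0) := Nat.one_le_pow _ _ (by norm_num)
    set R := 512 ^ (k0 + 0) with hRdef
    have hgm : MeasurableSet {σ : ℕ → Fin 6 | Good R (tr 0 σ (R ^ 2))} := measurableSet_good R 0 _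
    have hQ : MeasurableSet ({L : ℕ | R ^ 2 ≤ L} ×ˢ {σ : ℕ → Fin 6 | Good R (tr 0 σ (R ^ 2))}) :=
      (Set.to_countable _).measurableSet.prod hgm
    have h1 : μ {ω | ω 0 ∈ Suc0 R} ≤ μ (DD R 0) := by
      apply measure_mono
      intro ω hω
      obtain ⟨A, hA⟩ := V_start hR hω
      exact Set.mem_iUnion.mpr ⟨A, hA⟩
    have h2 : μ {ω | ω 0 ∈ Suc0 R} = N {n | 0 < n} * (m.toMeasure {L : ℕ | R ^ 2 ≤ L} *
        stepLaw {σ : ℕ → Fin 6 | Good R (tr 0 σ (R ^ 2))}) := by
      have h10 : wormLaw N m.toMeasure {ω | ω 0 ∈ Suc0 R} = datLaw N m.toMeasure (Suc0 R) :=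
        wormLaw_site N m.toMeasure 0 (measurableSet_first _ hQ)
      rw [hμ, h10]
      unfold Suc0
      rw [datLaw_worm N m.toMeasure 0 _ hQ, Measure.prod_prod]
    have h3 : m.toMeasure {L : ℕ | R ^ 2 ≤ L} ≠ 0 := by
      intro h0
      have h4 := mass_lower m c β hc hβ hm (R ^ 2) (Nat.one_le_pow _ _ hR)
      have h5 : m.toMeasure {L : ℕ | 2 * R ^ 2 ≤ L} = 0 := by
        apply measure_mono_null _ h0
        intro L hL
        have : 2 * R ^ 2 ≤ L := hL
        show R ^ 2 ≤ L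
        omega
      rw [h5] at h4
      have hRp : (0 : ℝ) < ((R ^ 2 : ℕ) : ℝ) := by
        have : 0 < R ^ 2 := by positivity
        exact_mod_cast this
      have h6 : 0 < c * (2 * ((R ^ 2 : ℕ) : ℝ) * (4 * ((R ^ 2 : ℕ) : ℝ)) ^ (-β)) := by positivity
      simp only [ENNReal.toReal_zero] at h4
      linarith
    have h7 : stepLaw {σ : ℕ → Fin 6 | Good R (tr 0 σ (R ^ 2))} ≠ 0 := by
      intro h0
      have h8 := good_prob hR 0 (by rw [nrm_zero]; omega)
      rw [h0, nonpos_iff_eq_zero, ENNReal.ofReal_eq_zero] at h8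
      norm_num at h8
    intro h0
    rw [h0, h2, nonpos_iff_eq_zero] at h1
    rcases mul_eq_zero.mp h1 with h | h
    · exact hN h
    · rcases mul_eq_zero.mp h with h | h
      · exact h3 h
      · exact h7 h
  have hlow : ∀ j, d 0 / 2 ≤ d j := by
    intro j
    have h1 := hsum j
    have h2 := hgeo j
    nlinarith
  have hfar : ∀ n, ENNReal.ofReal (d 0 / 2) ≤ μ (Far n) := by
    intro n
    have h1 : μ (DD (512 ^ (k0 + n)) n) ≤ μ (Far n) := measure_mono (DD_subset_Far _ _)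
    refine le_trans ?_ h1
    rw [← ENNReal.ofReal_toReal (measure_ne_top μ (DD (512 ^ (k0 + n)) n))]
    exact ENNReal.ofReal_le_ofReal (hlow n)
  have hinter : ENNReal.ofReal (d 0 / 2) ≤ μ (⋂ n, Far n) := by
    rw [Far_anti.measure_iInter (fun n => (measurableSet_Far n).nullMeasurableSet)
      ⟨0, measure_ne_top _ _⟩]
    exact le_iInf hfar
  have hsub : (⋂ n, Far n) ⊆ {ω | Perc (occOn Set.univ ω)} := by
    intro ω hω
    exact perc_of_conn fun n => Set.mem_iInter.mp hω n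
  have hpos : 0 < ENNReal.ofReal (d 0 / 2) := ENNReal.ofReal_pos.mpr (by linarith)
  exact (lt_of_lt_of_le hpos (hinter.trans (measure_mono hsub))).ne'

end Pool.Agent.Worm

end PartBSec

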